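import Mathlib

/-!
# Stackings of cyclic words

For a cyclically reduced word which is not a proper power we construct a total order of the
positions compatible with the letters (a stacking in the sense of Louder and Wilton).
-/

namespace Pool.Agent.H44R2

open Finset

lemma bool1 : ∀ b1 b2 b3 b4 : Bool, b1 ≠ b2 → b3 ≠ b4 → b1 = b3 → b2 = b4 := by decide

lemma bool2 : ∀ b1 b2 b3 b4 : Bool, b1 ≠ b2 → b3 ≠ b4 → ¬ b1 = b3 → b1 = b4 := by decide

lemma bool3 : ∀ b1 b2 b3 b4 : Bool, b1 ≠ b2 → b3 ≠ b4 → ¬ b1 = b3 → b2 = b3 := by decide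

section Letters

variable {α Ω : Type}

/-- The inverse letter. -/
def linv (p : α × Bool) : α × Bool := (p.1, !p.2)

@[simp] lemma linv_linv (p : α × Bool) : linv (linv p) = p := by
  simp [linv]

lemma linv_ne_self (p : α × Bool) : linv p ≠ p := by
  intro h
  have := congrArg Prod.snd h
  simp [linv] at this

lemma linv_eq_iff {p q : α × Bool} : linv p = q ↔ p = linv q := by
  constructor
  · rintro rfl; simp
  · rintro rfl; simp

/-- The permutation attached to a letter. -/
def act (f : α → Equiv.Perm Ω) (p : α × Bool) : Equiv.Perm Ω :=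
  if p.2 then f p.1 else (f p.1)⁻¹

lemma act_true (f : α → Equiv.Perm Ω) (a : α) : act f (a, true) = f a := by simp [act]

lemma act_false (f : α → Equiv.Perm Ω) (a : α) : act f (a, false) = (f a)⁻¹ := by simp [act]

lemma act_linv (f : α → Equiv.Perm Ω) (p : α × Bool) : act f (linv p) = (act f p)⁻¹ := by
  obtain ⟨a, b⟩ := p
  cases b <;> simp [act, linv]

/-- The edge crossed when reading the letter `p` from the vertex `v`. -/
def edgeAt (f : α → Equiv.Perm Ω) (p : α × Bool) (v : Ω) : α × Ω :=
  (p.1, if p.2 then v else act f p v)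

lemma edgeAt_linv (f : α → Equiv.Perm Ω) (p : α × Bool) (v : Ω) :
    edgeAt f (linv p) (act f p v) = edgeAt f p v := by
  obtain ⟨a, b⟩ := p
  cases b <;> simp [edgeAt, act, linv]

lemma edgeAt_eq {f : α → Equiv.Perm Ω} {p q : α × Bool} {v w : Ω}
    (h : edgeAt f p v = edgeAt f q w) :
    (p = q ∧ v = w) ∨ (p = linv q ∧ v = act f q w) := by
  obtain ⟨a, b⟩ := p
  obtain ⟨a', b'⟩ := q
  have h1 : a = a' := congrArg Prod.fst h
  subst h1
  have h2 := congrArg Prod.snd h
  cases b <;> cases b' <;> simp [edgeAt, act, linv] at h2 ⊢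
  · exact h2
  · rw [← h2]; simp
  · exact h2
  · exact h2

end Letters

section LinAlg

variable {α Ω : Type} {k : Type} [Field k]

/-- Dimension count: few linear conditions on cochains admit a solution which is not a
coboundary. -/
lemma exists_not_coboundary (f : α → Equiv.Perm Ω) (E : Finset (α × Ω)) (V : Finset Ω)
    (hE : ∀ e ∈ E, e.2 ∈ V ∧ f e.1 e.2 ∈ V) {ι : Type} [Fintype ι]
    (Λ : (α × Ω → k) →ₗ[k] (ι → k)) (hV : V.Nonempty)
    (hcard : Fintype.card ι + V.card ≤ E.card) :
    ∃ c : α × Ω → k, (∀ e, e ∉ E → c e = 0) ∧ Λ c = 0 ∧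
      ∀ φ : Ω → k, ∃ e ∈ E, c e ≠ φ (f e.1 e.2) - φ e.2 := by
  classical
  let ext : (E → k) →ₗ[k] (α × Ω → k) :=
    { toFun := fun c e => if h : e ∈ E then c ⟨e, h⟩ else 0
      map_add' := by
        intro c d; funext e; by_cases h : e ∈ E <;> simp [h]
      map_smul' := by
        intro t c; funext e; by_cases h : e ∈ E <;> simp [h] }
  let δ : (V → k) →ₗ[k] (E → k) :=
    { toFun := fun φ e => φ ⟨f e.1.1 e.1.2, (hE e.1 e.2).2⟩ - φ ⟨e.1.2, (hE e.1 e.2).1⟩
      map_add' := by intro φ ψ; funext e; simp; ring
      map_smul' := by intro t φ; funext e; simp; ring }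
  let Λ' : (E → k) →ₗ[k] (ι → k) := Λ.comp ext
  have h1 := LinearMap.finrank_range_add_finrank_ker Λ'
  have h2 := LinearMap.finrank_range_add_finrank_ker δ
  have h3 : Module.finrank k (LinearMap.range Λ') ≤ Fintype.card ι := by
    calc Module.finrank k (LinearMap.range Λ') ≤ Module.finrank k (ι → k) :=
          Submodule.finrank_le _
      _ = Fintype.card ι := by simp
  have h4 : 1 ≤ Module.finrank k (LinearMap.ker δ) := by
    rw [Nat.one_le_iff_ne_zero, Submodule.finrank_eq_zero.ne, Submodule.ne_bot_iff]
    obtain ⟨v, hv⟩ := hV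
    refine ⟨fun _ => 1, ?_, ?_⟩
    · rw [LinearMap.mem_ker]
      funext e
      simp [δ]
    · intro h
      have := congrFun h ⟨v, hv⟩
      simp at this
  have h5 : Module.finrank k (E → k) = E.card := by simp
  have h6 : Module.finrank k (V → k) = V.card := by simp
  have h7 : ¬ (LinearMap.ker Λ' ≤ LinearMap.range δ) := by
    intro hle
    have := Submodule.finrank_mono hle
    have hVc : 1 ≤ V.card := hV.card_pos
    omega
  obtain ⟨c, hc, hc'⟩ := Set.not_subset.mp h7
  refine ⟨ext c, ?_, hc, ?_⟩
  · intro e he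
    simp [ext, he]
  · intro φ
    by_contra hcon
    push Not at hcon
    apply hc'
    refine ⟨fun v => φ v.1, ?_⟩
    funext e
    have := hcon e.1 e.2
    simp only [ext, LinearMap.coe_mk, AddHom.coe_mk, e.2, dif_pos] at this
    simp only [δ, LinearMap.coe_mk, AddHom.coe_mk]
    exact this.symm

end LinAlg

section Walk

variable {α Ω : Type} {ℓ : ℕ} [NeZero ℓ]

/-- `o` is a closed walk reading the cyclic word `x`. -/
def IsWalk (f : α → Equiv.Perm Ω) (x : ZMod ℓ → α × Bool) (o : ZMod ℓ → Ω) : Prop :=
  ∀ i, o (i + 1) = act f (x i) (o i)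

/-- The word is cyclically reduced. -/
def CycRed (x : ZMod ℓ → α × Bool) : Prop := ∀ i, x (i + 1) ≠ linv (x i)

/-- The cyclic word has no proper period. -/
def Primitive (x : ZMod ℓ → α × Bool) : Prop := ∀ d, (∀ i, x (i + d) = x i) → d = 0

lemma sum_range_zmod (v : ZMod ℓ → ℚ) :
    ∑ k ∈ range ℓ, v (k : ZMod ℓ) = ∑ i, v i := by
  apply Finset.sum_bij (fun (k : ℕ) (_ : k ∈ range ℓ) => ((k : ℕ) : ZMod ℓ))
  · intro a _; exact mem_univ _
  · intro a ha b hb hab
    have ha' := Finset.mem_range.mp ha
    have hb' := Finset.mem_range.mp hb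
    have := congrArg ZMod.val hab
    rwa [ZMod.val_natCast_of_lt ha', ZMod.val_natCast_of_lt hb'] at this
  · intro b _
    exact ⟨b.val, Finset.mem_range.mpr (ZMod.val_lt b), by simp⟩
  · intro a _; rfl

lemma exists_height (v : ZMod ℓ → ℚ) (hv : ∑ i, v i = 0) :
    ∃ h : ZMod ℓ → ℚ, ∀ i, h (i + 1) = h i + v i := by
  refine ⟨fun i => ∑ k ∈ range i.val, v (k : ZMod ℓ), ?_⟩
  intro i
  have hlt := ZMod.val_lt i
  have hcast : ((i.val : ℕ) : ZMod ℓ) = i := by simp
  rcases Nat.lt_or_ge (i.val + 1) ℓ with h | h
  · have h2 : (i + 1).val = i.val + 1 := by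
      have : i + 1 = ((i.val + 1 : ℕ) : ZMod ℓ) := by push_cast; rw [hcast]
      rw [this, ZMod.val_natCast_of_lt h]
    simp only [h2, Finset.sum_range_succ, hcast]
  · have h1 : i.val + 1 = ℓ := by omega
    have h2 : i + 1 = 0 := by
      have : i + 1 = ((i.val + 1 : ℕ) : ZMod ℓ) := by push_cast; rw [hcast]
      rw [this, h1]; simp
    have h3 : ∑ k ∈ range i.val, v (k : ZMod ℓ) + v i = 0 := by
      have := sum_range_zmod v
      have hr : range ℓ = range (i.val + 1) := by rw [h1]
      rw [hr, Finset.sum_range_succ, hcast] at this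
      have h4 : ∑ k ∈ range i.val, v (k : ZMod ℓ) + v i = ∑ i, v i := by
        rw [← this]
      rw [h4, hv]
    simp only [h2, ZMod.val_zero, Finset.range_zero, Finset.sum_empty]
    exact h3.symm

/-- The cochain value picked up by the traversal starting at position `i`. -/
def sval (f : α → Equiv.Perm Ω) (c : α × Ω → ℚ) (p : α × Bool) (v : Ω) : ℚ :=
  if p.2 then c (edgeAt f p v) else - c (edgeAt f p v)

lemma sval_linv (f : α → Equiv.Perm Ω) (c : α × Ω → ℚ) (p : α × Bool) (v : Ω) :
    sval f c (linv p) (act f p v) = - sval f c p v := by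
  unfold sval
  rw [edgeAt_linv]
  obtain ⟨a, b⟩ := p
  cases b <;> simp [linv]

variable {f : α → Equiv.Perm Ω} {x : ZMod ℓ → α × Bool} {o : ZMod ℓ → Ω}

omit [NeZero ℓ] in
lemma IsWalk.prev (hw : IsWalk f x o) (i : ZMod ℓ) : o (i - 1) = act f (linv (x (i - 1))) (o i) := by
  have := hw (i - 1)
  rw [sub_add_cancel] at this
  rw [this, act_linv]; simp

/-- If the walk is not injective then its image has more edges than vertices. -/
lemma card_lt (hw : IsWalk f x o) (hred : CycRed x) (hprim : Primitive x)
    (hne : ∃ i j, i ≠ j ∧ o i = o j) [DecidableEq α] [DecidableEq Ω] :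
    (univ.image o).card < (univ.image (fun i => edgeAt f (x i) (o i))).card := by
  classical
  by_contra hcon
  push Not at hcon
  set V := univ.image o with hVdef
  set E := univ.image (fun i => edgeAt f (x i) (o i)) with hEdef
  -- half edges
  let D : ZMod ℓ × Bool → Ω × (α × Bool) := fun p =>
    (o p.1, if p.2 then x p.1 else linv (x (p.1 - 1)))
  set DD := (univ : Finset (ZMod ℓ × Bool)).image D with hDD
  have hDlab : ∀ i, D (i, true) ≠ D (i, false) := by
    intro i h
    have h2 : x i = linv (x (i - 1)) := congrArg Prod.snd h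
    have := hred (i - 1)
    rw [sub_add_cancel] at this
    exact this h2
  have h1 : DD.card ≤ (E ×ˢ (univ : Finset Bool)).card := by
    apply Finset.card_le_card_of_injOn (fun d => (edgeAt f d.2 d.1, d.2.2))
    · intro d hd
      rw [Finset.mem_coe, hDD, Finset.mem_image] at hd
      obtain ⟨⟨i, b⟩, _, rfl⟩ := hd
      simp only [Finset.coe_product, Set.mem_prod, Finset.mem_coe, Finset.mem_univ, and_true]
      cases b
      · simp only [D, Bool.false_eq_true, if_false]
        rw [hEdef, Finset.mem_image]
        refine ⟨i - 1, mem_univ _, ?_⟩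
        have h2 := hw (i - 1)
        rw [sub_add_cancel] at h2
        rw [h2, edgeAt_linv]
      · simp only [D, if_true]
        rw [hEdef, Finset.mem_image]
        exact ⟨i, mem_univ _, rfl⟩
    · rintro ⟨v, a, b⟩ _ ⟨v', a', b'⟩ _ h
      simp only [Prod.mk.injEq] at h
      obtain ⟨h, h'⟩ := h
      subst h'
      rcases edgeAt_eq h with ⟨h2, h3⟩ | ⟨h2, _⟩
      · rw [h2, h3]
      · exfalso
        have := congrArg Prod.snd h2
        simp [linv] at this
  have hch : ∀ v : V, ∃ i, o i = v.1 := by
    rintro ⟨v, hv⟩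
    rw [hVdef, Finset.mem_image] at hv
    obtain ⟨i, _, hi⟩ := hv
    exact ⟨i, hi⟩
  choose ch hch using hch
  let J : V × Bool → Ω × (α × Bool) := fun q => D (ch q.1, q.2)
  have hJinj : Function.Injective J := by
    rintro ⟨v, b⟩ ⟨v', b'⟩ h
    have h2 : o (ch v) = o (ch v') := congrArg Prod.fst h
    rw [hch, hch] at h2
    have h3 : v = v' := Subtype.ext h2
    subst h3
    cases b <;> cases b'
    · rfl
    · exact absurd h.symm (hDlab _)
    · exact absurd h (hDlab _)
    · rfl
  have h2 : (univ.image J).card = V.card * 2 := by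
    rw [Finset.card_image_of_injective _ hJinj]
    simp
  have h3 : univ.image J ⊆ DD := by
    intro d hd
    rw [Finset.mem_image] at hd
    obtain ⟨q, _, rfl⟩ := hd
    rw [hDD]
    exact Finset.mem_image_of_mem _ (mem_univ _)
  have h4 : (E ×ˢ (univ : Finset Bool)).card = E.card * 2 := by
    rw [Finset.card_product]; simp
  have h5 : univ.image J = DD := by
    apply Finset.eq_of_subset_of_card_le h3
    rw [h2]
    omega
  -- every half edge at `v` is one of the two chosen ones
  have h6 : ∀ (i : ZMod ℓ) (b : Bool), ∃ b', D (i, b) = D (ch ⟨o i, by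
      rw [hVdef]; exact Finset.mem_image_of_mem _ (mem_univ _)⟩, b') := by
    intro i b
    have : D (i, b) ∈ DD := by
      rw [hDD]; exact Finset.mem_image_of_mem _ (mem_univ _)
    rw [← h5, Finset.mem_image] at this
    obtain ⟨⟨v, b'⟩, _, hq⟩ := this
    have h7 : o (ch v) = o i := congrArg Prod.fst hq
    rw [hch] at h7
    have h8 : v = ⟨o i, by rw [hVdef]; exact Finset.mem_image_of_mem _ (mem_univ _)⟩ :=
      Subtype.ext h7
    refine ⟨b', ?_⟩
    rw [← hq, ← h8]
  have h7 : ∀ i j, o i = o j → (x i = x j ∧ x (i - 1) = x (j - 1)) ∨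
      (x i = linv (x (j - 1)) ∧ x (i - 1) = linv (x j)) := by
    intro i j hij
    have hv : (⟨o i, by rw [hVdef]; exact Finset.mem_image_of_mem _ (mem_univ _)⟩ : V) =
        ⟨o j, by rw [hVdef]; exact Finset.mem_image_of_mem _ (mem_univ _)⟩ := Subtype.ext hij
    obtain ⟨b1, hb1⟩ := h6 i true
    obtain ⟨b2, hb2⟩ := h6 i false
    obtain ⟨b3, hb3⟩ := h6 j true
    obtain ⟨b4, hb4⟩ := h6 j false
    rw [hv] at hb1 hb2
    have n1 : b1 ≠ b2 := by
      rintro rfl
      exact hDlab i (hb1.trans hb2.symm)
    have n2 : b3 ≠ b4 := by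
      rintro rfl
      exact hDlab j (hb3.trans hb4.symm)
    by_cases h : b1 = b3
    · have h' : b2 = b4 := bool1 b1 b2 b3 b4 n1 n2 h
      left
      constructor
      · have := congrArg Prod.snd (hb1.trans (h ▸ hb3.symm))
        simpa [D] using this
      · have := congrArg Prod.snd (hb2.trans (h' ▸ hb4.symm))
        simp only [D, Bool.false_eq_true, if_false] at this
        rw [linv_eq_iff, linv_linv] at this
        exact this
    · have h8 : b1 = b4 := bool2 b1 b2 b3 b4 n1 n2 h
      have h9 : b2 = b3 := bool3 b1 b2 b3 b4 n1 n2 h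
      right
      constructor
      · have := congrArg Prod.snd (hb1.trans (h8 ▸ hb4.symm))
        simpa [D] using this
      · have := congrArg Prod.snd (hb2.trans (h9 ▸ hb3.symm))
        simp only [D, Bool.false_eq_true, if_false, if_true] at this
        rw [linv_eq_iff] at this
        exact this
  obtain ⟨i, j, hne, hij⟩ := hne
  rcases h7 i j hij with ⟨hx, -⟩ | ⟨hx, -⟩
  · -- same direction
    have key : ∀ k : ℕ, o (i + k) = o (j + k) ∧ x (i + k) = x (j + k) := by
      intro k
      induction k with
      | zero => simpa using ⟨hij, hx⟩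
      | succ k ih =>
        obtain ⟨ih1, ih2⟩ := ih
        have e1 : i + ((k + 1 : ℕ) : ZMod ℓ) = (i + k) + 1 := by push_cast; ring
        have e2 : j + ((k + 1 : ℕ) : ZMod ℓ) = (j + k) + 1 := by push_cast; ring
        rw [e1, e2]
        have h8 : o (i + k + 1) = o (j + k + 1) := by
          rw [hw, hw, ih1, ih2]
        refine ⟨h8, ?_⟩
        rcases h7 _ _ h8 with ⟨h9, -⟩ | ⟨h9, -⟩
        · exact h9
        · exfalso
          rw [add_sub_cancel_right, ← ih2] at h9
          exact hred _ h9
    apply hne
    have h8 := hprim (i - j) (by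
      intro t
      have h9 := (key (t - j).val).2
      have h10 : (((t - j).val : ℕ) : ZMod ℓ) = t - j := by simp
      rw [h10] at h9
      have e1 : i + (t - j) = t + (i - j) := by ring
      have e2 : j + (t - j) = t := by ring
      rw [e1, e2] at h9
      exact h9)
    exact sub_eq_zero.mp h8
  · -- opposite direction
    have key : ∀ k : ℕ, o (i + k) = o (j - k) ∧ x (i + k) = linv (x (j - k - 1)) := by
      intro k
      induction k with
      | zero => simpa using ⟨hij, hx⟩
      | succ k ih =>
        obtain ⟨ih1, ih2⟩ := ih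
        have e1 : i + ((k + 1 : ℕ) : ZMod ℓ) = (i + k) + 1 := by push_cast; ring
        have e2 : j - ((k + 1 : ℕ) : ZMod ℓ) = j - k - 1 := by push_cast; ring
        rw [e1, e2]
        have h8 : o (i + k + 1) = o (j - k - 1) := by
          rw [hw, ih1, ih2, ← hw.prev]
        refine ⟨h8, ?_⟩
        rcases h7 _ _ h8 with ⟨h9, -⟩ | ⟨h9, -⟩
        · exfalso
          rw [← linv_eq_iff] at ih2
          rw [← ih2] at h9
          exact hred _ h9
        · exact h9
    have hu : (((j - 1 - i).val : ℕ) : ZMod ℓ) = j - 1 - i := by simp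
    rcases Nat.even_or_odd' (j - 1 - i).val with ⟨m, hm | hm⟩
    · have h8 := (key m).2
      rw [hm] at hu
      push_cast at hu
      have e1 : j - m - 1 = i + m := by linear_combination (-1 : ZMod ℓ) * hu
      rw [e1] at h8
      exact linv_ne_self _ h8.symm
    · have h8 := (key m).2
      rw [hm] at hu
      push_cast at hu
      have e1 : j - m - 1 = i + m + 1 := by linear_combination (-1 : ZMod ℓ) * hu
      rw [e1, ← linv_eq_iff] at h8
      exact hred _ h8.symm

/-- A family of strict orders on the fibres of a walk, compatible with the letters. -/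
structure FibreOrder (x : ZMod ℓ → α × Bool) (o : ZMod ℓ → Ω) (R : ZMod ℓ → ZMod ℓ → Prop) :
    Prop where
  irrefl : ∀ i, ¬ R i i
  trans : ∀ i j k, o i = o j → o j = o k → R i j → R j k → R i k
  total : ∀ i j, o i = o j → i ≠ j → R i j ∨ R j i
  same : ∀ i j, o i = o j → x i = x j → (R i j ↔ R (i + 1) (j + 1))
  opp : ∀ i j, o i = o (j + 1) → x i = linv (x j) → (R i (j + 1) ↔ R (i + 1) j)

/-- The skew product over `Ω × ℚ`. -/
def skewPerm (e : Equiv.Perm Ω) (c : Ω → ℚ) : Equiv.Perm (Ω × ℚ) where
  toFun q := (e q.1, q.2 + c q.1)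
  invFun q := (e⁻¹ q.1, q.2 - c (e⁻¹ q.1))
  left_inv q := by ext <;> simp
  right_inv q := by ext <;> simp

lemma exists_fibreOrder_aux (hred : CycRed x) (hprim : Primitive x) (n : ℕ) :
    ∀ (Ω : Type) (f : α → Equiv.Perm Ω) (o : ZMod ℓ → Ω), IsWalk f x o →
      {p : ZMod ℓ × ZMod ℓ | o p.1 = o p.2}.ncard ≤ n → ∃ R, FibreOrder x o R := by
  classical
  induction n with
  | zero =>
    intro Ω f o hw hn
    exfalso
    have h1 : {p : ZMod ℓ × ZMod ℓ | o p.1 = o p.2}.ncard = 0 := by omega
    rw [Set.ncard_eq_zero (Set.toFinite _)] at h1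
    have h2 : ((0 : ZMod ℓ), (0 : ZMod ℓ)) ∈ {p : ZMod ℓ × ZMod ℓ | o p.1 = o p.2} := rfl
    rw [h1] at h2
    exact h2
  | succ n ih =>
    intro Ω f o hw hn
    by_cases hinj : ∃ i j, i ≠ j ∧ o i = o j
    · -- refine
      set V := univ.image o with hV
      set E := univ.image (fun i => edgeAt f (x i) (o i)) with hE
      have hlt : V.card < E.card := by
        have h0 := card_lt hw hred hprim hinj
        convert h0
      have hEV : ∀ e ∈ E, e.2 ∈ V ∧ f e.1 e.2 ∈ V := by
        intro e he
        rw [hE, Finset.mem_image] at he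
        obtain ⟨i, _, rfl⟩ := he
        have hi : o i ∈ V := by rw [hV]; exact Finset.mem_image_of_mem _ (mem_univ _)
        have hi' : o (i + 1) ∈ V := by rw [hV]; exact Finset.mem_image_of_mem _ (mem_univ _)
        rw [hw] at hi'
        rcases hx : x i with ⟨a, b⟩
        rw [hx] at hi'
        cases b
        · simp only [edgeAt, Bool.false_eq_true, if_false]
          refine ⟨hi', ?_⟩
          simpa [act] using hi
        · simp only [edgeAt, if_true]
          refine ⟨hi, ?_⟩
          simpa [act] using hi'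
      let Λ : (α × Ω → ℚ) →ₗ[ℚ] (Unit → ℚ) :=
        { toFun := fun c _ => ∑ i, sval f c (x i) (o i)
          map_add' := by
            intro c d; funext _
            simp only [Pi.add_apply]
            rw [← Finset.sum_add_distrib]
            apply Finset.sum_congr rfl
            intro i _
            unfold sval
            split_ifs <;> simp only [Pi.add_apply] <;> ring
          map_smul' := by
            intro t c; funext _
            simp only [Pi.smul_apply, smul_eq_mul, RingHom.id_apply]
            rw [Finset.mul_sum]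
            apply Finset.sum_congr rfl
            intro i _
            unfold sval
            split_ifs <;> simp only [Pi.smul_apply, smul_eq_mul] <;> ring }
      obtain ⟨c, -, hc0, hc⟩ := exists_not_coboundary f E V hEV Λ
        ⟨o 0, by rw [hV]; exact Finset.mem_image_of_mem _ (mem_univ _)⟩ (by
          rw [Fintype.card_unit]; omega)
      have hsum : ∑ i, sval f c (x i) (o i) = 0 := congrFun hc0 ()
      obtain ⟨h, hh⟩ := exists_height _ hsum
      -- the new walk
      let f' : α → Equiv.Perm (Ω × ℚ) := fun a => skewPerm (f a) (fun ω => c (a, ω))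
      let o' : ZMod ℓ → Ω × ℚ := fun i => (o i, h i)
      have hw' : IsWalk f' x o' := by
        intro i
        have h1 := hw i
        have h2 := hh i
        rcases hx : x i with ⟨a, b⟩
        rw [hx] at h1 h2
        cases b
        · rw [act_false] at h1
          simp only [sval, edgeAt, Bool.false_eq_true, if_false, act_false] at h2
          rw [act_false]
          simp only [f', o']
          rw [h1, h2]
          change _ = ((f a)⁻¹ (o i), h i - c (a, (f a)⁻¹ (o i)))
          rw [sub_eq_add_neg]
        · rw [act_true] at h1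
          simp only [sval, edgeAt, if_true] at h2
          rw [act_true]
          simp only [f', o']
          rw [h1, h2]
          rfl
      have hlt2 : {p : ZMod ℓ × ZMod ℓ | o' p.1 = o' p.2}.ncard <
          {p : ZMod ℓ × ZMod ℓ | o p.1 = o p.2}.ncard := by
        apply Set.ncard_lt_ncard _ (Set.toFinite _)
        refine ⟨?_, ?_⟩
        · intro p hp
          exact congrArg Prod.fst (show o' p.1 = o' p.2 from hp)
        · intro hsub
          have hfac : ∀ i j, o i = o j → h i = h j := by
            intro i j hij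
            have : (i, j) ∈ {p : ZMod ℓ × ZMod ℓ | o' p.1 = o' p.2} := hsub hij
            exact congrArg Prod.snd (show o' i = o' j from this)
          let φ : Ω → ℚ := fun v => if hv : ∃ i, o i = v then h hv.choose else 0
          have hφ : ∀ i, φ (o i) = h i := by
            intro i
            have hv : ∃ j, o j = o i := ⟨i, rfl⟩
            simp only [φ, hv, dif_pos]
            exact hfac _ _ hv.choose_spec
          obtain ⟨e, he, hne⟩ := hc φ
          rw [hE, Finset.mem_image] at he
          obtain ⟨i, _, rfl⟩ := he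
          apply hne
          have h1 := hw i
          have h2 := hh i
          have h3 := hφ i
          have h4 := hφ (i + 1)
          rcases hx : x i with ⟨a, b⟩
          rw [hx] at h1 h2
          cases b
          · rw [act_false] at h1
            simp only [sval, edgeAt, Bool.false_eq_true, if_false, act_false] at h2 ⊢
            rw [← h1] at h2 ⊢
            have h5 : f a (o (i + 1)) = o i := by rw [h1]; simp
            rw [h4, h2, h5, h3]
            ring
          · rw [act_true] at h1
            simp only [sval, edgeAt, if_true] at h2 ⊢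
            rw [← h1, h4, h3, h2]
            ring
      obtain ⟨R', hR'⟩ := ih (Ω × ℚ) f' o' hw' (by omega)
      have ho' : ∀ i j, o i = o j → h i = h j → o' i = o' j := by
        intro i j h1 h2
        simp only [o', h1, h2]
      refine ⟨fun i j => h i < h j ∨ (h i = h j ∧ R' i j), ?_, ?_, ?_, ?_, ?_⟩
      · rintro i (h1 | ⟨_, h1⟩)
        · exact lt_irrefl _ h1
        · exact hR'.irrefl i h1
      · rintro i j k hij hjk (h1 | ⟨h1, h1'⟩) (h2 | ⟨h2, h2'⟩)
        · exact Or.inl (h1.trans h2)
        · exact Or.inl (h2 ▸ h1)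
        · exact Or.inl (h1 ▸ h2)
        · exact Or.inr ⟨h1.trans h2, hR'.trans i j k (ho' _ _ hij h1) (ho' _ _ hjk h2) h1' h2'⟩
      · intro i j hij hne
        rcases lt_trichotomy (h i) (h j) with h1 | h1 | h1
        · exact Or.inl (Or.inl h1)
        · rcases hR'.total i j (ho' _ _ hij h1) hne with h2 | h2
          · exact Or.inl (Or.inr ⟨h1, h2⟩)
          · exact Or.inr (Or.inr ⟨h1.symm, h2⟩)
        · exact Or.inr (Or.inl h1)
      · intro i j hij hx
        have h1 := hh i
        have h2 := hh j
        rw [← hx, ← hij] at h2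
        have h3 : h i < h j ↔ h (i + 1) < h (j + 1) := by
          rw [h1, h2]; constructor <;> intro h4 <;> linarith
        have h4 : h i = h j ↔ h (i + 1) = h (j + 1) := by
          rw [h1, h2]; constructor <;> intro h4 <;> linarith
        constructor
        · rintro (h5 | ⟨h5, h6⟩)
          · exact Or.inl (h3.mp h5)
          · exact Or.inr ⟨h4.mp h5, (hR'.same i j (ho' _ _ hij h5) hx).mp h6⟩
        · rintro (h5 | ⟨h5, h6⟩)
          · exact Or.inl (h3.mpr h5)
          · exact Or.inr ⟨h4.mpr h5, (hR'.same i j (ho' _ _ hij (h4.mpr h5)) hx).mpr h6⟩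
      · intro i j hij hx
        have h1 := hh i
        have h2 := hh j
        have h2' : sval f c (x i) (o i) = - sval f c (x j) (o j) := by
          rw [hx, hij, hw j, sval_linv]
        have h3 : h i < h (j + 1) ↔ h (i + 1) < h j := by
          rw [h1, h2, h2']; constructor <;> intro h4 <;> linarith
        have h4 : h i = h (j + 1) ↔ h (i + 1) = h j := by
          rw [h1, h2, h2']; constructor <;> intro h4 <;> linarith
        constructor
        · rintro (h5 | ⟨h5, h6⟩)
          · exact Or.inl (h3.mp h5)
          · exact Or.inr ⟨h4.mp h5, (hR'.opp i j (ho' _ _ hij h5) hx).mp h6⟩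
        · rintro (h5 | ⟨h5, h6⟩)
          · exact Or.inl (h3.mpr h5)
          · exact Or.inr ⟨h4.mpr h5, (hR'.opp i j (ho' _ _ hij (h4.mpr h5)) hx).mpr h6⟩
    · -- the walk is injective
      push Not at hinj
      have hinj' : ∀ i j, o i = o j → i = j := by
        intro i j hij
        by_contra h
        exact hinj i j h hij
      refine ⟨fun _ _ => False, fun _ h => h, fun _ _ _ _ _ h _ => h, ?_, fun _ _ _ _ => Iff.rfl,
        fun _ _ _ _ => Iff.rfl⟩
      intro i j hij hne
      exact absurd (hinj' i j hij) hne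

end Walk

section Main

variable {α : Type} {ℓ : ℕ} [NeZero ℓ]

/-- A stacking: a strict total order of the positions, compatible with the letters. -/
structure Stacking (x : ZMod ℓ → α × Bool) (R : ZMod ℓ → ZMod ℓ → Prop) : Prop where
  irrefl : ∀ i, ¬ R i i
  trans : ∀ i j k, R i j → R j k → R i k
  total : ∀ i j, i ≠ j → R i j ∨ R j i
  same : ∀ i j, x i = x j → (R i j ↔ R (i + 1) (j + 1))
  opp : ∀ i j, x i = linv (x j) → (R i (j + 1) ↔ R (i + 1) j)

/-- Existence of stackings (Louder and Wilton). -/
theorem exists_stacking {x : ZMod ℓ → α × Bool} (hred : CycRed x) (hprim : Primitive x) :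
    ∃ R, Stacking x R := by
  obtain ⟨R, hR⟩ := exists_fibreOrder_aux hred hprim _ Unit (fun _ => 1) (fun _ => ())
    (fun _ => rfl) le_rfl
  exact ⟨R, hR.irrefl, fun i j k => hR.trans i j k rfl rfl, fun i j => hR.total i j rfl,
    fun i j => hR.same i j rfl, fun i j => hR.opp i j rfl⟩

end Main

end Pool.Agent.H44R2
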