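import Mathlib
import Pool.Agent.H44R2.Stack

/-!
# The counting inequality for cycles of a stacked word

This is the combinatorial heart of the proof of the `w`-cycles theorem of Louder and Wilton.
-/

namespace Pool.Agent.H44R2

open Finset

section Rank

variable {α : Type} {ℓ : ℕ} [NeZero ℓ]

/-- A stacking given by an injective rank function. -/
structure RankStacking (x : ZMod ℓ → α × Bool) (rk : ZMod ℓ → ℕ) : Prop where
  inj : Function.Injective rk
  same : ∀ i j, x i = x j → (rk i < rk j ↔ rk (i + 1) < rk (j + 1))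
  opp : ∀ i j, x i = linv (x j) → (rk i < rk (j + 1) ↔ rk (i + 1) < rk j)

theorem exists_rankStacking {x : ZMod ℓ → α × Bool} (hred : CycRed x) (hprim : Primitive x) :
    ∃ rk, RankStacking x rk := by
  classical
  obtain ⟨R, hR⟩ := exists_stacking hred hprim
  let rk : ZMod ℓ → ℕ := fun i => (univ.filter (fun j => R j i)).card
  have hlt : ∀ i j, R i j → rk i < rk j := by
    intro i j hij
    apply Finset.card_lt_card
    refine ⟨?_, ?_⟩
    · intro t ht
      simp only [Finset.mem_filter, mem_univ, true_and] at ht ⊢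
      exact hR.trans _ _ _ ht hij
    · intro hsub
      have : i ∈ univ.filter (fun j => R j i) := hsub (by simpa using hij)
      simp only [Finset.mem_filter, mem_univ, true_and] at this
      exact hR.irrefl _ this
  have hiff : ∀ i j, R i j ↔ rk i < rk j := by
    intro i j
    refine ⟨hlt i j, fun h => ?_⟩
    by_cases hij : i = j
    · subst hij; exact absurd h (lt_irrefl _)
    · rcases hR.total i j hij with h1 | h1
      · exact h1
      · exact absurd (hlt _ _ h1) (by omega)
  refine ⟨rk, ?_, ?_, ?_⟩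
  · intro i j hij
    by_contra hne
    rcases hR.total i j hne with h1 | h1
    · have := hlt _ _ h1; omega
    · have := hlt _ _ h1; omega
  · intro i j h
    rw [← hiff, ← hiff]; exact hR.same i j h
  · intro i j h
    rw [← hiff, ← hiff]; exact hR.opp i j h

end Rank

section Count

variable {α Ω : Type} {ℓ : ℕ} [NeZero ℓ]

/-- The walking permutation: read the letter at the current position. -/
def walkT (f : α → Equiv.Perm Ω) (x : ZMod ℓ → α × Bool) : Equiv.Perm (Ω × ZMod ℓ) where
  toFun p := (act f (x p.2) p.1, p.2 + 1)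
  invFun p := ((act f (x (p.2 - 1)))⁻¹ p.1, p.2 - 1)
  left_inv p := by ext <;> simp
  right_inv p := by ext <;> simp

/-- The edge crossed from a position. -/
def stepE (f : α → Equiv.Perm Ω) (x : ZMod ℓ → α × Bool) (p : Ω × ZMod ℓ) : α × Ω :=
  edgeAt f (x p.2) p.1

variable {f : α → Equiv.Perm Ω} {x : ZMod ℓ → α × Bool}

omit [NeZero ℓ] in
@[simp] lemma walkT_fst (p : Ω × ZMod ℓ) : (walkT f x p).1 = act f (x p.2) p.1 := rfl

omit [NeZero ℓ] in
@[simp] lemma walkT_snd (p : Ω × ZMod ℓ) : (walkT f x p).2 = p.2 + 1 := rfl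

omit [NeZero ℓ] in
lemma walkT_pow_snd (k : ℕ) (p : Ω × ZMod ℓ) : ((walkT f x ^ k) p).2 = p.2 + k := by
  induction k with
  | zero => simp
  | succ k ih =>
    rw [pow_succ', Equiv.Perm.mul_apply, walkT_snd, ih]
    push_cast; ring

omit [NeZero ℓ] in
lemma stepE_eq {p q : Ω × ZMod ℓ} (h : stepE f x p = stepE f x q) :
    (x p.2 = x q.2 ∧ p.1 = q.1) ∨ (x p.2 = linv (x q.2) ∧ p.1 = (walkT f x q).1) :=
  edgeAt_eq h

/-- The rank of the position over the tail of the crossed edge. -/
def tailRk (x : ZMod ℓ → α × Bool) (rk : ZMod ℓ → ℕ) (p : Ω × ZMod ℓ) : ℕ :=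
  if (x p.2).2 then rk p.2 else rk (p.2 + 1)

omit [NeZero ℓ] in
lemma opp_fst {p q : Ω × ZMod ℓ} (h1 : x p.2 = linv (x q.2)) (h2 : p.1 = (walkT f x q).1) :
    (walkT f x p).1 = q.1 := by
  rw [walkT_fst, h1, h2, walkT_fst, act_linv]; simp

variable {rk : ZMod ℓ → ℕ}

omit [NeZero ℓ] in
lemma tailRk_inj (hR : RankStacking x rk) (hred : CycRed x) {p q : Ω × ZMod ℓ}
    (h : stepE f x p = stepE f x q) (ht : tailRk x rk p = tailRk x rk q) : p = q := by
  rcases stepE_eq h with ⟨h1, h2⟩ | ⟨h1, h2⟩
  · refine Prod.ext h2 ?_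
    unfold tailRk at ht
    rw [h1] at ht
    split_ifs at ht
    · exact hR.inj ht
    · exact add_right_cancel (hR.inj ht)
  · exfalso
    unfold tailRk at ht
    rw [h1] at ht
    rcases hxq : x q.2 with ⟨a, b⟩
    rw [hxq] at ht h1
    cases b
    · simp only [linv, Bool.not_false, if_true, Bool.false_eq_true, if_false] at ht
      have h3 := hR.inj ht
      apply hred q.2
      rw [← h3, h1, hxq]
    · simp only [linv, Bool.not_true, if_true, Bool.false_eq_true, if_false] at ht
      have h3 := hR.inj ht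
      apply hred p.2
      rw [h3, h1, hxq]
      simp

omit [NeZero ℓ] in
lemma rk_same_le (hR : RankStacking x rk) {i j : ZMod ℓ} (h : x i = x j) :
    rk i ≤ rk j ↔ rk (i + 1) ≤ rk (j + 1) := by
  have := hR.same j i h.symm
  omega

omit [NeZero ℓ] in
lemma rk_opp_le (hR : RankStacking x rk) (hred : CycRed x) {i j : ZMod ℓ}
    (h : x i = linv (x j)) : rk i ≤ rk (j + 1) ↔ rk (i + 1) ≤ rk j := by
  have h1 := hR.opp i j h
  have h2 : rk i ≠ rk (j + 1) := by
    intro h3
    apply hred j
    rw [← hR.inj h3, h]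
  have h3 : rk (i + 1) ≠ rk j := by
    intro h3
    apply hred i
    rw [hR.inj h3, h]; simp
  omega

/-- **The counting inequality.**  If every edge is crossed at least twice, then the number of
vertices plus the number of positions of minimal rank is at most the number of edges. -/
theorem card_add_card_le [DecidableEq α] [DecidableEq Ω] (hR : RankStacking x rk)
    (hred : CycRed x) (P : Finset (Ω × ZMod ℓ)) (hP : ∀ p ∈ P, walkT f x p ∈ P)
    (h2 : ∀ p ∈ P, ∃ q ∈ P, q ≠ p ∧ stepE f x q = stepE f x p) (i₀ : ZMod ℓ)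
    (hi₀ : ∀ j, rk i₀ ≤ rk j) :
    (P.filter (fun p => p.2 = i₀)).card + (P.image Prod.fst).card ≤
      (P.image (stepE f x)).card := by
  classical
  set TV := P.filter (fun p => ∀ q ∈ P, q.1 = p.1 → rk q.2 ≤ rk p.2) with hTV
  set TE := P.filter (fun p => ∀ q ∈ P, stepE f x q = stepE f x p →
    tailRk x rk q ≤ tailRk x rk p) with hTE
  have hPk : ∀ (k : ℕ) (p), p ∈ P → (walkT f x ^ k) p ∈ P := by
    intro k
    induction k with
    | zero => intro p hp; simpa using hp
    | succ k ih =>
      intro p hp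
      rw [pow_succ', Equiv.Perm.mul_apply]
      exact hP _ (ih p hp)
  -- cardinalities
  have cV : (P.image Prod.fst).card ≤ TV.card := by
    have : P.image Prod.fst ⊆ TV.image Prod.fst := by
      intro v hv
      rw [Finset.mem_image] at hv
      obtain ⟨p, hp, rfl⟩ := hv
      obtain ⟨q, hq, hmax⟩ := Finset.exists_max_image (P.filter (fun q => q.1 = p.1))
        (fun q => rk q.2) ⟨p, by simpa using hp⟩
      rw [Finset.mem_filter] at hq
      rw [Finset.mem_image]
      refine ⟨q, ?_, hq.2⟩
      rw [hTV, Finset.mem_filter]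
      refine ⟨hq.1, fun r hr hr' => hmax r ?_⟩
      rw [Finset.mem_filter]
      exact ⟨hr, hr'.trans hq.2⟩
    exact (Finset.card_le_card this).trans Finset.card_image_le
  have cV' : TV.card ≤ (P.image Prod.fst).card := by
    apply Finset.card_le_card_of_injOn Prod.fst
    · intro p hp
      rw [Finset.mem_coe, hTV, Finset.mem_filter] at hp
      exact Finset.mem_coe.mpr (Finset.mem_image_of_mem _ hp.1)
    · intro p hp q hq hpq
      rw [Finset.mem_coe, hTV, Finset.mem_filter] at hp hq
      refine Prod.ext hpq (hR.inj ?_)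
      exact le_antisymm (hq.2 p hp.1 hpq) (hp.2 q hq.1 hpq.symm)
  have cE : TE.card ≤ (P.image (stepE f x)).card := by
    apply Finset.card_le_card_of_injOn (stepE f x)
    · intro p hp
      rw [Finset.mem_coe, hTE, Finset.mem_filter] at hp
      exact Finset.mem_coe.mpr (Finset.mem_image_of_mem _ hp.1)
    · intro p hp q hq hpq
      rw [Finset.mem_coe, hTE, Finset.mem_filter] at hp hq
      exact tailRk_inj hR hred hpq (le_antisymm (hq.2 p hp.1 hpq) (hp.2 q hq.1 hpq.symm))
  -- a top position starts a top traversal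
  have clA : TV ⊆ TE := by
    intro p hp
    rw [hTV, Finset.mem_filter] at hp
    rw [hTE, Finset.mem_filter]
    refine ⟨hp.1, fun q hq hqp => ?_⟩
    rcases stepE_eq hqp with ⟨h1, h3⟩ | ⟨h1, h3⟩
    · have h4 := hp.2 q hq h3
      unfold tailRk
      rw [h1]
      split_ifs
      · exact h4
      · exact (rk_same_le hR h1).mp h4
    · have h5 := opp_fst h1 h3
      have h4 := hp.2 _ (hP q hq) h5
      rw [walkT_snd] at h4
      unfold tailRk
      rw [h1]
      rcases hxp : x p.2 with ⟨a, b⟩
      cases b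
      · simp only [linv, Bool.not_false, if_true, Bool.false_eq_true, if_false]
        exact (rk_opp_le hR hred h1).mpr h4
      · simp only [linv, Bool.not_true, if_true, Bool.false_eq_true, if_false]
        exact h4
  -- a top position ends a top traversal
  have clB : ∀ p ∈ P, walkT f x p ∈ TV → p ∈ TE := by
    intro p hpP hp
    rw [hTV, Finset.mem_filter] at hp
    rw [hTE, Finset.mem_filter]
    refine ⟨hpP, fun q hq hqp => ?_⟩
    rcases stepE_eq hqp with ⟨h1, h3⟩ | ⟨h1, h3⟩
    · have h4 := hp.2 _ (hP q hq) (by rw [walkT_fst, walkT_fst, h1, h3])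
      rw [walkT_snd, walkT_snd] at h4
      unfold tailRk
      rw [h1]
      split_ifs
      · exact (rk_same_le hR h1).mpr h4
      · exact h4
    · have h4 := hp.2 q hq h3
      rw [walkT_snd] at h4
      unfold tailRk
      rw [h1]
      rcases hxp : x p.2 with ⟨a, b⟩
      cases b
      · simp only [linv, Bool.not_false, if_true, Bool.false_eq_true, if_false]
        exact h4
      · simp only [linv, Bool.not_true, if_true, Bool.false_eq_true, if_false]
        exact (rk_opp_le hR hred h1).mp h4
  -- minimal positions are not top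
  have clC : ∀ p ∈ P, p.2 = i₀ → p ∉ TV := by
    intro p hp hpi hcon
    rw [hTV, Finset.mem_filter] at hcon
    obtain ⟨q, hq, hne, hqp⟩ := h2 p hp
    rcases stepE_eq hqp with ⟨h1, h3⟩ | ⟨h1, h3⟩
    · have h4 := hcon.2 q hq h3
      have h5 := hi₀ q.2
      rw [← hpi] at h5
      exact hne (Prod.ext h3 (hR.inj (le_antisymm h4 h5)))
    · have h5 := opp_fst h1 h3
      have h4 := hcon.2 _ (hP q hq) h5
      rw [walkT_snd] at h4
      have h6 := hi₀ (q.2 + 1)
      rw [← hpi] at h6
      have h7 := hR.inj (le_antisymm h4 h6)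
      apply hred q.2
      rw [h7, h1]; simp
  -- top positions occur on every turn
  obtain ⟨i₁, -, hi₁⟩ := Finset.exists_max_image (univ : Finset (ZMod ℓ)) rk ⟨0, mem_univ _⟩
  have clD : ∀ p ∈ P, p.2 = i₀ → ∃ k : ℕ, k < ℓ ∧ (walkT f x ^ k) p ∈ TV := by
    intro p hp hpi
    refine ⟨(i₁ - i₀).val, ZMod.val_lt _, ?_⟩
    rw [hTV, Finset.mem_filter]
    refine ⟨hPk _ _ hp, fun q _ _ => ?_⟩
    rw [walkT_pow_snd, hpi]
    have : i₀ + (((i₁ - i₀).val : ℕ) : ZMod ℓ) = i₁ := by simp
    rw [this]
    exact hi₁ _ (mem_univ _)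
  set W := P.filter (fun p => walkT f x p ∈ TV ∧ p ∉ TV) with hW
  have cW : (P.filter (fun p => p.2 = i₀)).card ≤ W.card := by
    have key : ∀ p ∈ P.filter (fun p => p.2 = i₀), ∃ k : ℕ, k + 1 < ℓ ∧
        (walkT f x ^ k) p ∈ W := by
      intro p hp
      rw [Finset.mem_filter] at hp
      have hex := clD p hp.1 hp.2
      have hex' : ∃ k : ℕ, (walkT f x ^ k) p ∈ TV := ⟨hex.choose, hex.choose_spec.2⟩
      have hk := Nat.find_spec hex'
      have hmin := fun m => Nat.find_min hex' (m := m)
      have hle := Nat.find_min' hex' hex.choose_spec.2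
      have hlt := hex.choose_spec.1
      have hpos : Nat.find hex' ≠ 0 := by
        intro h0
        rw [h0] at hk
        exact clC p hp.1 hp.2 (by simpa using hk)
      obtain ⟨k, hk'⟩ := Nat.exists_eq_succ_of_ne_zero hpos
      refine ⟨k, by omega, ?_⟩
      rw [hW, Finset.mem_filter]
      refine ⟨hPk _ _ hp.1, ?_, hmin k (by omega)⟩
      rw [hk', Nat.succ_eq_add_one, pow_succ', Equiv.Perm.mul_apply] at hk
      exact hk
    choose! g hg1 hg2 using key
    apply Finset.card_le_card_of_injOn (fun p => (walkT f x ^ (g p)) p)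
    · intro p hp
      exact Finset.mem_coe.mpr (hg2 p hp)
    · intro p hp q hq hpq
      have hp' := Finset.mem_filter.mp (Finset.mem_coe.mp hp)
      have hq' := Finset.mem_filter.mp (Finset.mem_coe.mp hq)
      have hgp := hg1 p hp
      have hgq := hg1 q hq
      simp only at hpq
      have h3 := congrArg Prod.snd hpq
      rw [walkT_pow_snd, walkT_pow_snd, hp'.2, hq'.2, add_right_inj] at h3
      have h4 := congrArg ZMod.val h3
      rw [ZMod.val_natCast_of_lt (by omega), ZMod.val_natCast_of_lt (by omega)] at h4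
      rw [h4] at hpq
      exact (walkT f x ^ g q).injective hpq
  have hWsub : W ⊆ TE \ TV := by
    intro p hp
    rw [hW, Finset.mem_filter] at hp
    rw [Finset.mem_sdiff]
    exact ⟨clB p hp.1 hp.2.1, hp.2.2⟩
  have h3 := Finset.card_le_card hWsub
  rw [Finset.card_sdiff_of_subset clA] at h3
  have h4 := Finset.card_le_card clA
  omega

end Count

end Pool.Agent.H44R2
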