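import Mathlib
import Pool.Agent.H44R2.WCycle

/-!
# Group-valued one-cochains on Schreier graphs
-/

namespace Pool.Agent.H44R2

open Finset

section Coch

variable {α Ω : Type} {ℓ : ℕ}

/-- The value picked up when reading the letter `p` from `v`. -/
def gval {K : Type} [Group K] (f : α → Equiv.Perm Ω) (c : α × Ω → K) (p : α × Bool) (v : Ω) : K :=
  if p.2 then c (edgeAt f p v) else (c (edgeAt f p v))⁻¹

/-- The value picked up on the first `m` steps of the walk from `p`. -/
def pathVal {K : Type} [Group K] (f : α → Equiv.Perm Ω) (x : ZMod ℓ → α × Bool)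
    (c : α × Ω → K) : ℕ → Ω × ZMod ℓ → K
  | 0, _ => 1
  | m + 1, p => pathVal f x c m (walkT f x p) * gval f c (x p.2) p.1

/-- `c` is a coboundary on the edges in `E`. -/
def IsCob {K : Type} [Group K] (f : α → Equiv.Perm Ω) (E : Finset (α × Ω)) (c : α × Ω → K) :
    Prop :=
  ∃ φ : Ω → K, ∀ e ∈ E, c e = φ (f e.1 e.2) * (φ e.2)⁻¹

/-- `c` has trivial value on the closed paths of length `N` starting at the positions in `P`. -/
def IsCoc {K : Type} [Group K] (f : α → Equiv.Perm Ω) (x : ZMod ℓ → α × Bool)
    (P : Finset (Ω × ZMod ℓ)) (N : ℕ) (c : α × Ω → K) : Prop :=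
  ∀ p ∈ P, pathVal f x c N p = 1

variable {f : α → Equiv.Perm Ω} {x : ZMod ℓ → α × Bool} {K : Type} [Group K]

lemma pathVal_add (c : α × Ω → K) (a b : ℕ) (p : Ω × ZMod ℓ) :
    pathVal f x c (a + b) p = pathVal f x c a ((walkT f x ^ b) p) * pathVal f x c b p := by
  induction b generalizing p with
  | zero => simp [pathVal]
  | succ b ih =>
    rw [← add_assoc, pathVal, ih, pathVal, pow_succ, Equiv.Perm.mul_apply, mul_assoc]

lemma pathVal_one_step (c : α × Ω → K) (p : Ω × ZMod ℓ) :
    pathVal f x c 1 p = gval f c (x p.2) p.1 := by
  simp [pathVal]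

lemma pathVal_congr {c c' : α × Ω → K} (m : ℕ) (p : Ω × ZMod ℓ)
    (h : ∀ j < m, c (stepE f x ((walkT f x ^ j) p)) = c' (stepE f x ((walkT f x ^ j) p))) :
    pathVal f x c m p = pathVal f x c' m p := by
  induction m generalizing p with
  | zero => rfl
  | succ m ih =>
    rw [pathVal, pathVal, ih]
    · have := h 0 (Nat.succ_pos m)
      simp only [pow_zero, Equiv.Perm.coe_one, id_eq, stepE] at this
      simp only [gval, this]
    · intro j hj
      have := h (j + 1) (by omega)
      rw [pow_succ, Equiv.Perm.mul_apply] at this
      exact this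

lemma pathVal_one (m : ℕ) (p : Ω × ZMod ℓ) :
    pathVal f x (fun _ => (1 : K)) m p = 1 := by
  induction m generalizing p with
  | zero => rfl
  | succ m ih => rw [pathVal, ih]; simp [gval]

lemma gval_cob {c : α × Ω → K} {φ : Ω → K} {p : α × Bool} {v : Ω}
    (h : c (edgeAt f p v) = φ (f (edgeAt f p v).1 (edgeAt f p v).2) * (φ (edgeAt f p v).2)⁻¹) :
    gval f c p v = φ (act f p v) * (φ v)⁻¹ := by
  obtain ⟨a, b⟩ := p
  cases b
  · simp only [gval, Bool.false_eq_true, if_false]
    rw [h]
    simp [edgeAt, act]
  · simp only [gval, if_true]
    rw [h]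
    simp [edgeAt, act]

lemma cob_of_gval {c : α × Ω → K} {φ : Ω → K} {p : α × Bool} {v : Ω}
    (h : gval f c p v = φ (act f p v) * (φ v)⁻¹) :
    c (edgeAt f p v) = φ (f (edgeAt f p v).1 (edgeAt f p v).2) * (φ (edgeAt f p v).2)⁻¹ := by
  obtain ⟨a, b⟩ := p
  cases b
  · simp only [gval, Bool.false_eq_true, if_false] at h
    rw [inv_eq_iff_eq_inv] at h
    rw [h]
    simp [edgeAt, act]
  · simp only [gval, if_true] at h
    rw [h]
    simp [edgeAt, act]

lemma pathVal_cob {c : α × Ω → K} {φ : Ω → K} (m : ℕ) (p : Ω × ZMod ℓ)
    (h : ∀ j < m, c (stepE f x ((walkT f x ^ j) p)) =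
      φ (f (stepE f x ((walkT f x ^ j) p)).1 (stepE f x ((walkT f x ^ j) p)).2) *
        (φ (stepE f x ((walkT f x ^ j) p)).2)⁻¹) :
    pathVal f x c m p = φ ((walkT f x ^ m) p).1 * (φ p.1)⁻¹ := by
  induction m generalizing p with
  | zero => simp [pathVal]
  | succ m ih =>
    rw [pathVal, ih]
    · have := h 0 (Nat.succ_pos m)
      simp only [pow_zero, Equiv.Perm.coe_one, id_eq, stepE] at this
      rw [gval_cob this, pow_succ, Equiv.Perm.mul_apply, walkT_fst]
      group
    · intro j hj
      have := h (j + 1) (by omega)
      rw [pow_succ, Equiv.Perm.mul_apply] at this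
      exact this

lemma pathVal_rot (c : α × Ω → K) {N : ℕ} {p : Ω × ZMod ℓ} (h : (walkT f x ^ N) p = p) :
    pathVal f x c N (walkT f x p) =
      gval f c (x p.2) p.1 * pathVal f x c N p * (gval f c (x p.2) p.1)⁻¹ := by
  have h1 := pathVal_add (f := f) (x := x) c N 1 p
  have h2 := pathVal_add (f := f) (x := x) c 1 N p
  rw [add_comm 1 N, h1, h, pow_one, pathVal_one_step] at h2
  rw [← h2]; group

lemma pow_walk {N : ℕ} {p : Ω × ZMod ℓ} (h : (walkT f x ^ N) p = p) (k : ℕ) :
    (walkT f x ^ N) ((walkT f x ^ k) p) = (walkT f x ^ k) p := by
  rw [← Equiv.Perm.mul_apply, ← pow_add, add_comm, pow_add, Equiv.Perm.mul_apply, h]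

lemma pathVal_rot_pow (c : α × Ω → K) {N : ℕ} {p : Ω × ZMod ℓ} (h : (walkT f x ^ N) p = p)
    (hp : pathVal f x c N p = 1) (k : ℕ) : pathVal f x c N ((walkT f x ^ k) p) = 1 := by
  induction k with
  | zero => simpa using hp
  | succ k ih =>
    rw [pow_succ', Equiv.Perm.mul_apply, pathVal_rot c (pow_walk h k), ih]
    group

lemma pathVal_mul (c : α × Ω → K) {D : ℕ} {p : Ω × ZMod ℓ} (h : (walkT f x ^ D) p = p)
    (m : ℕ) : pathVal f x c (m * D) p = (pathVal f x c D p) ^ m := by
  induction m with
  | zero => simp [pathVal]
  | succ m ih => rw [add_mul, one_mul, pathVal_add, h, ih, pow_succ]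

end Coch

section Lin

variable {α Ω : Type} {ℓ : ℕ} {k : Type} [Field k]

/-- Additive version of `gval`. -/
def aval (f : α → Equiv.Perm Ω) (c : α × Ω → k) (p : α × Bool) (v : Ω) : k :=
  if p.2 then c (edgeAt f p v) else - c (edgeAt f p v)

/-- Additive version of `pathVal`. -/
def apath (f : α → Equiv.Perm Ω) (x : ZMod ℓ → α × Bool) (c : α × Ω → k) :
    ℕ → Ω × ZMod ℓ → k
  | 0, _ => 0
  | m + 1, p => apath f x c m (walkT f x p) + aval f c (x p.2) p.1

variable {f : α → Equiv.Perm Ω} {x : ZMod ℓ → α × Bool}

lemma pathVal_ofAdd (c : α × Ω → k) (m : ℕ) (p : Ω × ZMod ℓ) :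
    pathVal f x (fun e => Multiplicative.ofAdd (c e)) m p =
      Multiplicative.ofAdd (apath f x c m p) := by
  induction m generalizing p with
  | zero => rfl
  | succ m ih =>
    have h : gval f (fun e => Multiplicative.ofAdd (c e)) (x p.2) p.1 =
        Multiplicative.ofAdd (aval f c (x p.2) p.1) := by
      unfold gval aval
      split_ifs
      · rfl
      · rfl
    rw [pathVal, apath, ih, ofAdd_add, h]

lemma apath_add (c d : α × Ω → k) (m : ℕ) (p : Ω × ZMod ℓ) :
    apath f x (c + d) m p = apath f x c m p + apath f x d m p := by
  induction m generalizing p with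
  | zero => simp [apath]
  | succ m ih =>
    rw [apath, apath, apath, ih]
    unfold aval
    split_ifs <;> simp only [Pi.add_apply] <;> ring

lemma apath_smul (t : k) (c : α × Ω → k) (m : ℕ) (p : Ω × ZMod ℓ) :
    apath f x (t • c) m p = t * apath f x c m p := by
  induction m generalizing p with
  | zero => simp [apath]
  | succ m ih =>
    rw [apath, apath, ih]
    unfold aval
    split_ifs <;> simp only [Pi.smul_apply, smul_eq_mul] <;> ring

/-- The path values at finitely many positions, as a linear map. -/
def apathL (f : α → Equiv.Perm Ω) (x : ZMod ℓ → α × Bool) (N : ℕ) {ι : Type}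
    (q : ι → Ω × ZMod ℓ) : (α × Ω → k) →ₗ[k] (ι → k) where
  toFun c := fun i => apath f x c N (q i)
  map_add' c d := by funext i; exact apath_add c d N (q i)
  map_smul' t c := by funext i; exact apath_smul t c N (q i)

end Lin

section Main

variable {α Ω : Type} {ℓ : ℕ} [NeZero ℓ] {f : α → Equiv.Perm Ω} {x : ZMod ℓ → α × Bool}

/-- **Main induction.**  Let `E` be a finite set of edges and let `P` be a finite set of positions
on closed `x`-cycles inside `E`.  If all rational cocycles and all cocycles with values in the
integers modulo the divisors of `n` are coboundaries, then so are the cocycles with values in any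
group. -/
theorem coboundary_of_abelian (hred : CycRed x) (hprim : Primitive x) (n : ℕ) (hn : 0 < n)
    (s : ℕ) : ∀ (E : Finset (α × Ω)) (P : Finset (Ω × ZMod ℓ)), E.card ≤ s →
    (∀ p ∈ P, walkT f x p ∈ P) → (∀ p ∈ P, (walkT f x ^ (n * ℓ)) p = p) →
    (∀ p ∈ P, stepE f x p ∈ E) →
    (∀ c : α × Ω → Multiplicative ℚ, IsCoc f x P (n * ℓ) c → IsCob f E c) →
    (∀ m : ℕ, m ∣ n → ∀ c : α × Ω → Multiplicative (ZMod m), IsCoc f x P (n * ℓ) c →
      IsCob f E c) →
    ∀ (K : Type) [Group K] (c : α × Ω → K), IsCoc f x P (n * ℓ) c → IsCob f E c := by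
  classical
  induction s with
  | zero =>
    intro E P hE _ _ _ _ _ K _ c _
    have : E = ∅ := Finset.card_eq_zero.mp (by omega)
    subst this
    exact ⟨fun _ => 1, by simp⟩
  | succ s ih =>
    intro E P hE hPT hPN hPE HQ HZ K _ κ hκ
    have hℓ : 0 < ℓ := Nat.pos_of_ne_zero (NeZero.ne ℓ)
    have hN : 0 < n * ℓ := Nat.mul_pos hn hℓ
    by_cases hunc : ∃ e ∈ E, ∀ p ∈ P, stepE f x p ≠ e
    · -- an uncovered edge
      obtain ⟨e, heE, heP⟩ := hunc
      have hPE' : ∀ p ∈ P, stepE f x p ∈ E.erase e := fun p hp =>
        Finset.mem_erase.mpr ⟨heP p hp, hPE p hp⟩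
      have hcard : (E.erase e).card ≤ s := by
        rw [Finset.card_erase_of_mem heE]; omega
      have hPk : ∀ (k : ℕ) (p), p ∈ P → (walkT f x ^ k) p ∈ P := by
        intro k
        induction k with
        | zero => intro p hp; simpa using hp
        | succ k ihk =>
          intro p hp
          rw [pow_succ', Equiv.Perm.mul_apply]
          exact hPT _ (ihk p hp)
      obtain ⟨φ, hφ⟩ := ih (E.erase e) P hcard hPT hPN hPE'
        (fun c hc => by
          obtain ⟨φ, hφ⟩ := HQ c hc
          exact ⟨φ, fun e' he' => hφ e' (Finset.mem_of_mem_erase he')⟩)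
        (fun m hm c hc => by
          obtain ⟨φ, hφ⟩ := HZ m hm c hc
          exact ⟨φ, fun e' he' => hφ e' (Finset.mem_of_mem_erase he')⟩) K κ hκ
      obtain ⟨ψ, hψ⟩ := HQ (fun e' => if e' = e then Multiplicative.ofAdd (1 : ℚ) else 1) (by
        intro p hp
        refine (pathVal_congr _ _ ?_).trans
          (pathVal_one (f := f) (x := x) (K := Multiplicative ℚ) (n * ℓ) p)
        intro j _
        rw [if_neg (heP _ (hPk j p hp))])
      have hψe := hψ e heE
      simp only [if_true] at hψe
      have hψne : ψ (f e.1 e.2) ≠ ψ e.2 := by
        intro h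
        rw [h, mul_inv_cancel] at hψe
        have : (1 : ℚ) = 0 := Multiplicative.ofAdd.injective hψe
        exact one_ne_zero this
      refine ⟨fun ω => if ψ ω = ψ (f e.1 e.2) then
        φ ω * ((φ (f e.1 e.2))⁻¹ * κ e * φ e.2) else φ ω, fun e' he' => ?_⟩
      by_cases hee : e' = e
      · subst hee
        simp only [if_true]
        rw [if_neg (fun h => hψne h.symm)]
        group
      · have h1 := hψ e' he'
        simp only [if_neg hee] at h1
        have h2 : ψ (f e'.1 e'.2) = ψ e'.2 := by
          rw [eq_comm, mul_inv_eq_one] at h1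
          exact h1
        have h3 := hφ e' (Finset.mem_erase.mpr ⟨hee, he'⟩)
        simp only [h2]
        split_ifs
        · rw [h3]; group
        · exact h3
    · push Not at hunc
      by_cases honce : ∃ p ∈ P, ∀ q ∈ P, stepE f x q = stepE f x p → q = p
      · -- an edge covered exactly once
        obtain ⟨p, hp, honce⟩ := honce
        set e := stepE f x p with he
        have heE : e ∈ E := hPE p hp
        have hPk : ∀ (k : ℕ) (q), q ∈ P → (walkT f x ^ k) q ∈ P := by
          intro k
          induction k with
          | zero => intro q hq; simpa using hq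
          | succ k ihk =>
            intro q hq
            rw [pow_succ', Equiv.Perm.mul_apply]
            exact hPT _ (ihk q hq)
        -- the minimal period
        set D := Function.minimalPeriod (walkT f x) p with hD
        have hper : Function.IsPeriodicPt (walkT f x) (n * ℓ) p := by
          have := hPN p hp
          rw [Function.IsPeriodicPt, Function.IsFixedPt]
          rw [← Equiv.Perm.iterate_eq_pow] at this
          exact this
        have hDN : D ∣ n * ℓ := hper.minimalPeriod_dvd
        have hDpos : 0 < D := Nat.pos_of_dvd_of_pos hDN hN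
        have hDp : (walkT f x ^ D) p = p := by
          rw [← Equiv.Perm.iterate_eq_pow]
          exact Function.iterate_minimalPeriod
        have hDmin : ∀ j, 0 < j → j < D → (walkT f x ^ j) p ≠ p := by
          intro j hj hjD hcon
          have : Function.IsPeriodicPt (walkT f x) j p := by
            rw [Function.IsPeriodicPt, Function.IsFixedPt, Equiv.Perm.iterate_eq_pow]
            exact hcon
          have h2 := this.minimalPeriod_le hj
          omega
        have hℓD : ℓ ∣ D := by
          have h1 := congrArg Prod.snd hDp
          rw [walkT_pow_snd] at h1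
          have h2 : (D : ZMod ℓ) = 0 := by
            have := congrArg (fun t => t - p.2) h1
            simpa using this
          exact (ZMod.natCast_eq_zero_iff D ℓ).mp h2
        obtain ⟨d, hd⟩ := hℓD
        have hdn : d ∣ n := by
          rw [hd, mul_comm n ℓ] at hDN
          exact Nat.dvd_of_mul_dvd_mul_left hℓ hDN
        obtain ⟨m, hm⟩ := hdn
        have hmn : m ∣ n := ⟨d, by rw [hm]; ring⟩
        have hND : n * ℓ = m * D := by rw [hd, hm]; ring
        have hstep : ∀ j, 0 < j → j < D → stepE f x ((walkT f x ^ j) p) ≠ e := by
          intro j hj hjD hcon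
          exact hDmin j hj hjD (honce _ (hPk j p hp) hcon)
        -- multiplicity one
        have hm1 : m = 1 := by
          have hcoc : IsCoc f x P (n * ℓ)
              (fun e' => if e' = e then Multiplicative.ofAdd (1 : ZMod m) else 1) := by
            intro q hq
            by_cases hqo : ∃ k : ℕ, q = (walkT f x ^ k) p
            · obtain ⟨k, rfl⟩ := hqo
              apply pathVal_rot_pow _ (hPN p hp)
              rw [hND, pathVal_mul _ hDp]
              generalize pathVal f x (fun e' => if e' = e then
                Multiplicative.ofAdd (1 : ZMod m) else 1) D p = y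
              have : Multiplicative.toAdd (y ^ m) = 0 := by
                rw [toAdd_pow, nsmul_eq_mul, ZMod.natCast_self, zero_mul]
              exact this
            · refine (pathVal_congr _ _ ?_).trans
                (pathVal_one (f := f) (x := x) (K := Multiplicative (ZMod m)) (n * ℓ) q)
              intro j hj
              rw [if_neg]
              intro hcon
              have h1 := honce _ (hPk j q hq) hcon
              apply hqo
              refine ⟨n * ℓ - j, ?_⟩
              rw [← h1, ← Equiv.Perm.mul_apply, ← pow_add]
              rw [show n * ℓ - j + j = n * ℓ by omega]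
              exact (hPN q hq).symm
          obtain ⟨ψ, hψ⟩ := HZ m hmn _ hcoc
          have h1 := pathVal_cob (f := f) (x := x) (φ := ψ)
            (c := fun e' => if e' = e then Multiplicative.ofAdd (1 : ZMod m) else 1) D p
            (fun j _ => hψ _ (hPE _ (hPk j p hp)))
          rw [hDp, mul_inv_cancel] at h1
          obtain ⟨D', hD'⟩ : ∃ D', D = D' + 1 := ⟨D - 1, by omega⟩
          rw [hD', pathVal] at h1
          have h2 : pathVal f x (fun e' => if e' = e then Multiplicative.ofAdd (1 : ZMod m)
              else 1) D' (walkT f x p) = 1 := by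
            refine (pathVal_congr _ _ ?_).trans
              (pathVal_one (f := f) (x := x) (K := Multiplicative (ZMod m)) D' (walkT f x p))
            intro j hj
            rw [if_neg]
            have := hstep (j + 1) (by omega) (by omega)
            rw [pow_succ, Equiv.Perm.mul_apply] at this
            exact this
          rw [h2, one_mul] at h1
          have h3 : (1 : ZMod m) = 0 := by
            unfold gval at h1
            have he' : edgeAt f (x p.2) p.1 = e := rfl
            rw [he'] at h1
            simp only [if_true] at h1
            split_ifs at h1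
            · exact Multiplicative.ofAdd.injective h1
            · rw [inv_eq_one] at h1
              exact Multiplicative.ofAdd.injective h1
          have h4 : m ∣ 1 := by
            have : ((1 : ℕ) : ZMod m) = 0 := by simpa using h3
            exact (ZMod.natCast_eq_zero_iff 1 m).mp this
          exact Nat.dvd_one.mp h4
        rw [hm1, one_mul] at hND
        -- remove the cycle and the edge
        set P' := P.filter (fun q => ¬ ∃ k : ℕ, q = (walkT f x ^ k) p) with hP'
        have hP'P : ∀ q ∈ P', q ∈ P := fun q hq => (Finset.mem_filter.mp hq).1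
        have hP'T : ∀ q ∈ P', walkT f x q ∈ P' := by
          intro q hq
          rw [hP', Finset.mem_filter] at hq ⊢
          refine ⟨hPT q hq.1, ?_⟩
          rintro ⟨k, hk⟩
          apply hq.2
          refine ⟨n * ℓ - 1 + k, ?_⟩
          rw [pow_add, Equiv.Perm.mul_apply, ← hk]
          have h1 := hPN q hq.1
          have h2 : n * ℓ = (n * ℓ - 1) + 1 := by omega
          rw [h2, pow_succ, Equiv.Perm.mul_apply] at h1
          exact h1.symm
        have hP'k : ∀ (k : ℕ) (q), q ∈ P' → (walkT f x ^ k) q ∈ P' := by
          intro k
          induction k with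
          | zero => intro q hq; simpa using hq
          | succ k ihk =>
            intro q hq
            rw [pow_succ', Equiv.Perm.mul_apply]
            exact hP'T _ (ihk q hq)
        have hP'e : ∀ q ∈ P', stepE f x q ≠ e := by
          intro q hq hcon
          have h1 := honce q (hP'P q hq) hcon
          rw [hP', Finset.mem_filter] at hq
          exact hq.2 ⟨0, by simpa using h1⟩
        have hP'E : ∀ q ∈ P', stepE f x q ∈ E.erase e := fun q hq =>
          Finset.mem_erase.mpr ⟨hP'e q hq, hPE q (hP'P q hq)⟩
        have hcard : (E.erase e).card ≤ s := by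
          rw [Finset.card_erase_of_mem heE]; omega
        obtain ⟨N', hN'⟩ : ∃ N', n * ℓ = N' + 1 := ⟨n * ℓ - 1, by omega⟩
        have hstep' : ∀ j < N', stepE f x ((walkT f x ^ j) (walkT f x p)) ≠ e := by
          intro j hj
          have := hstep (j + 1) (by omega) (by omega)
          rw [pow_succ, Equiv.Perm.mul_apply] at this
          exact this
        -- extension of cocycles
        have hext : ∀ (A : Type) [Group A] (c : α × Ω → A), IsCoc f x P' (n * ℓ) c →
            ∃ c' : α × Ω → A, (∀ e', e' ≠ e → c' e' = c e') ∧ IsCoc f x P (n * ℓ) c' := by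
          intro A _ c hc
          let u : A := pathVal f x c N' (walkT f x p)
          refine ⟨Function.update c e (if (x p.2).2 then u⁻¹ else u), fun e' he' => by
            rw [Function.update_of_ne he'], ?_⟩
          intro q hq
          by_cases hqo : ∃ k : ℕ, q = (walkT f x ^ k) p
          · obtain ⟨k, rfl⟩ := hqo
            apply pathVal_rot_pow _ (hPN p hp)
            rw [hN', pathVal]
            have h1 : pathVal f x (Function.update c e (if (x p.2).2 then u⁻¹ else u)) N'
                (walkT f x p) = u := by
              apply pathVal_congr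
              intro j hj
              rw [Function.update_of_ne (hstep' j hj)]
            rw [h1]
            unfold gval
            have he' : edgeAt f (x p.2) p.1 = e := rfl
            rw [he', Function.update_self]
            split_ifs <;> simp
          · have hq' : q ∈ P' := by
              rw [hP', Finset.mem_filter]; exact ⟨hq, hqo⟩
            rw [← hc q hq']
            apply pathVal_congr
            intro j _
            rw [Function.update_of_ne (hP'e _ (hP'k j q hq'))]
        obtain ⟨φ, hφ⟩ := ih (E.erase e) P' hcard hP'T (fun q hq => hPN q (hP'P q hq)) hP'E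
          (fun c hc => by
            obtain ⟨c', h1, h2⟩ := hext _ c hc
            obtain ⟨φ, hφ⟩ := HQ c' h2
            refine ⟨φ, fun e' he' => ?_⟩
            rw [← h1 e' (Finset.ne_of_mem_erase he')]
            exact hφ e' (Finset.mem_of_mem_erase he'))
          (fun m hm c hc => by
            obtain ⟨c', h1, h2⟩ := hext _ c hc
            obtain ⟨φ, hφ⟩ := HZ m hm c' h2
            refine ⟨φ, fun e' he' => ?_⟩
            rw [← h1 e' (Finset.ne_of_mem_erase he')]
            exact hφ e' (Finset.mem_of_mem_erase he'))
          K κ (fun q hq => hκ q (hP'P q hq))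
        refine ⟨φ, fun e' he' => ?_⟩
        by_cases hee : e' = e
        · have h1 := hκ p hp
          rw [hN', pathVal] at h1
          rw [pathVal_cob (φ := φ) N' (walkT f x p) (by
            intro j hj
            apply hφ
            exact Finset.mem_erase.mpr ⟨hstep' j hj, by
              have := hPE _ (hPk (j + 1) p hp)
              rw [pow_succ, Equiv.Perm.mul_apply] at this
              exact this⟩)] at h1
          have h2 := hPN p hp
          rw [hN', pow_succ, Equiv.Perm.mul_apply] at h2
          rw [h2, walkT_fst] at h1
          have h3 : gval f κ (x p.2) p.1 = φ (act f (x p.2) p.1) * (φ p.1)⁻¹ := by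
            have h4 := congrArg (fun t => (φ p.1 * (φ (act f (x p.2) p.1))⁻¹)⁻¹ * t) h1
            simpa [mul_assoc] using h4
          have h4 := cob_of_gval h3
          rw [hee]
          exact h4
        · exact hφ e' (Finset.mem_erase.mpr ⟨hee, he'⟩)
      · -- every edge is covered at least twice
        push Not at honce
        have hEP : E = P.image (stepE f x) := by
          ext e
          rw [Finset.mem_image]
          constructor
          · intro he
            obtain ⟨p, hp, hpe⟩ := hunc e he
            exact ⟨p, hp, hpe⟩
          · rintro ⟨p, hp, rfl⟩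
            exact hPE p hp
        rcases P.eq_empty_or_nonempty with hPe | ⟨p₀, hp₀⟩
        · rw [hPe, Finset.image_empty] at hEP
          subst hEP
          exact ⟨fun _ => 1, by simp⟩
        exfalso
        obtain ⟨rk, hrk⟩ := exists_rankStacking hred hprim
        obtain ⟨i₀, -, hi₀⟩ := Finset.exists_min_image (univ : Finset (ZMod ℓ)) rk
          ⟨0, mem_univ _⟩
        have hcount := card_add_card_le hrk hred P hPT (by
          intro p hp
          obtain ⟨q, hq, hqp, hne⟩ := honce p hp
          exact ⟨q, hq, hne, hqp⟩) i₀ (fun j => hi₀ j (mem_univ _))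
        have hPk : ∀ (k : ℕ) (q), q ∈ P → (walkT f x ^ k) q ∈ P := by
          intro k
          induction k with
          | zero => intro q hq; simpa using hq
          | succ k ihk =>
            intro q hq
            rw [pow_succ', Equiv.Perm.mul_apply]
            exact hPT _ (ihk q hq)
        obtain ⟨c, -, hc0, hc⟩ := exists_not_coboundary (k := ℚ) f (P.image (stepE f x))
          (P.image Prod.fst) (by
            intro e he
            rw [Finset.mem_image] at he
            obtain ⟨p, hp, rfl⟩ := he
            have h1 : p.1 ∈ P.image Prod.fst := Finset.mem_image_of_mem _ hp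
            have h2 : act f (x p.2) p.1 ∈ P.image Prod.fst := by
              have := Finset.mem_image_of_mem Prod.fst (hPT p hp)
              rwa [walkT_fst] at this
            rcases hx : x p.2 with ⟨a, b⟩
            rw [hx] at h2
            simp only [stepE, edgeAt, hx]
            cases b
            · simp only [Bool.false_eq_true, if_false]
              refine ⟨h2, ?_⟩
              simpa [act] using h1
            · simp only [if_true]
              refine ⟨h1, ?_⟩
              simpa [act] using h2)
          (apathL f x (n * ℓ) (fun q : (P.filter (fun p => p.2 = i₀)) => q.1))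
          ⟨p₀.1, Finset.mem_image_of_mem _ hp₀⟩ (by
            rw [Fintype.card_coe]; exact hcount)
        have hcoc : IsCoc f x P (n * ℓ) (fun e => Multiplicative.ofAdd (c e)) := by
          intro p hp
          -- rotate to a position of index `i₀`
          have h1 : (walkT f x ^ ((p.2 - i₀).val)) ((walkT f x ^ (n * ℓ * (p.2 - i₀).val -
              (p.2 - i₀).val)) p) = p := by
            rw [← Equiv.Perm.mul_apply, ← pow_add]
            have h2 : (p.2 - i₀).val + (n * ℓ * (p.2 - i₀).val - (p.2 - i₀).val) =
                n * ℓ * (p.2 - i₀).val := by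
              have : (p.2 - i₀).val ≤ n * ℓ * (p.2 - i₀).val := Nat.le_mul_of_pos_left _ hN
              omega
            rw [h2, pow_mul]
            have h3 : ∀ k : ℕ, ((walkT f x ^ (n * ℓ)) ^ k) p = p := by
              intro k
              induction k with
              | zero => simp
              | succ k ihk => rw [pow_succ, Equiv.Perm.mul_apply, hPN p hp, ihk]
            exact h3 _
          set q := (walkT f x ^ (n * ℓ * (p.2 - i₀).val - (p.2 - i₀).val)) p with hq
          have hqP : q ∈ P := hPk _ _ hp
          have hq2 : q.2 = i₀ := by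
            have h2 := congrArg Prod.snd h1
            rw [walkT_pow_snd] at h2
            have h3 : (((p.2 - i₀).val : ℕ) : ZMod ℓ) = p.2 - i₀ := by simp
            rw [h3] at h2
            linear_combination h2
          rw [← h1]
          apply pathVal_rot_pow _ (hPN q hqP)
          rw [pathVal_ofAdd]
          have h2 : apath f x c (n * ℓ) q = 0 :=
            congrFun hc0 ⟨q, Finset.mem_filter.mpr ⟨hqP, hq2⟩⟩
          rw [h2]; rfl
        obtain ⟨φ, hφ⟩ := HQ _ hcoc
        obtain ⟨e, he, hne⟩ := hc (fun ω => Multiplicative.toAdd (φ ω))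
        apply hne
        rw [← hEP] at he
        have := congrArg Multiplicative.toAdd (hφ e he)
        simp only [toAdd_ofAdd, toAdd_mul, toAdd_inv] at this
        rw [this]; ring

end Main

end Pool.Agent.H44R2
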