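import Mathlib
import Pool.Agent.H44R2.Coch

/-!
# Words, roots and cocycles of free group actions
-/

namespace Pool.Agent.H44R2

open Finset

section Letter

variable {α : Type}

/-- The element of the free group given by a letter. -/
def letter (p : α × Bool) : FreeGroup α :=
  if p.2 then FreeGroup.of p.1 else (FreeGroup.of p.1)⁻¹

lemma letter_linv (p : α × Bool) : letter (linv p) = (letter p)⁻¹ := by
  obtain ⟨a, b⟩ := p
  cases b <;> simp [letter, linv]

lemma mk_cons_letter (p : α × Bool) (L : List (α × Bool)) :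
    (FreeGroup.mk (p :: L) : FreeGroup α) = letter p * FreeGroup.mk L := by
  obtain ⟨a, b⟩ := p
  have h : (FreeGroup.mk ((a, b) :: L) : FreeGroup α) = FreeGroup.mk [(a, b)] * FreeGroup.mk L := by
    rw [FreeGroup.mul_mk]; rfl
  rw [h]
  cases b <;> rfl

/-- The product `y (m-1) ⋯ y 1 y 0` of the first `m` letters. -/
def wn (y : ℕ → α × Bool) : ℕ → FreeGroup α
  | 0 => 1
  | m + 1 => letter (y m) * wn y m

lemma wn_congr {y y' : ℕ → α × Bool} (m : ℕ) (h : ∀ j < m, y j = y' j) : wn y m = wn y' m := by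
  induction m with
  | zero => rfl
  | succ m ih =>
    rw [wn, wn, ih (fun j hj => h j (by omega)), h m (by omega)]

lemma wn_add (y : ℕ → α × Bool) (a b : ℕ) :
    wn y (a + b) = wn (fun j => y (j + b)) a * wn y b := by
  induction a with
  | zero => simp [wn]
  | succ a ih =>
    rw [show a + 1 + b = (a + b) + 1 by ring, wn, wn, ih, mul_assoc]

lemma wn_succ' (y : ℕ → α × Bool) (m : ℕ) :
    wn y (m + 1) = wn (fun j => y (j + 1)) m * letter (y 0) := by
  rw [wn_add]; simp [wn]

lemma exists_wn (g : FreeGroup α) [Nonempty α] : ∃ y m, wn y m = g := by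
  obtain ⟨L, rfl⟩ : ∃ L, (FreeGroup.mk L : FreeGroup α) = g := Quot.exists_rep g
  refine ⟨?_, L.length, ?_⟩
  · exact fun j => (L.reverse[j]?).getD (Classical.arbitrary α, true)
  · induction L with
    | nil => rfl
    | cons p L ih =>
      rw [List.length_cons, wn, mk_cons_letter]
      congr 1
      · congr 1
        simp
      · rw [← ih]
        apply wn_congr
        intro j hj
        simp only [List.reverse_cons]
        rw [List.getElem?_append_left (by simpa using hj)]

variable {ℓ : ℕ}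

/-- The word read by `m` letters from position `i`. -/
def wd (x : ZMod ℓ → α × Bool) (m : ℕ) (i : ZMod ℓ) : FreeGroup α := wn (fun j => x (i + j)) m

lemma wd_zero (x : ZMod ℓ → α × Bool) (i : ZMod ℓ) : wd x 0 i = 1 := rfl

lemma wd_succ (x : ZMod ℓ → α × Bool) (m : ℕ) (i : ZMod ℓ) :
    wd x (m + 1) i = letter (x (i + m)) * wd x m i := rfl

lemma wd_succ' (x : ZMod ℓ → α × Bool) (m : ℕ) (i : ZMod ℓ) :
    wd x (m + 1) i = wd x m (i + 1) * letter (x i) := by
  unfold wd
  rw [wn_succ']
  congr 2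
  · funext j; push_cast; congr 1; ring
  · congr 1; simp

lemma wd_add (x : ZMod ℓ → α × Bool) (a b : ℕ) (i : ZMod ℓ) :
    wd x (a + b) i = wd x a (i + b) * wd x b i := by
  unfold wd
  rw [wn_add]
  congr 2
  funext j; push_cast; congr 1; ring

lemma wd_rot (x : ZMod ℓ → α × Bool) (i : ZMod ℓ) :
    wd x ℓ (i + 1) = letter (x i) * wd x ℓ i * (letter (x i))⁻¹ := by
  have h1 := wd_succ x ℓ i
  rw [wd_succ'] at h1
  have h2 : x (i + (ℓ : ℕ)) = x i := by simp
  rw [h2] at h1
  rw [← h1]; group

lemma wd_conj [NeZero ℓ] (x : ZMod ℓ → α × Bool) (i : ZMod ℓ) :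
    IsConj (wd x ℓ 0) (wd x ℓ i) := by
  have key : ∀ k : ℕ, IsConj (wd x ℓ 0) (wd x ℓ (k : ZMod ℓ)) := by
    intro k
    induction k with
    | zero => rw [Nat.cast_zero]
    | succ k ih =>
      refine ih.trans ?_
      push_cast
      rw [wd_rot]
      exact isConj_iff.mpr ⟨_, rfl⟩
  have := key i.val
  simpa using this

lemma wd_pow (x : ZMod ℓ → α × Bool) (n : ℕ) : wd x (n * ℓ) 0 = (wd x ℓ 0) ^ n := by
  induction n with
  | zero => simp [wd_zero]
  | succ n ih =>
    rw [add_mul, one_mul, wd_add, pow_succ, ← ih]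
    simp

/-- Every nontrivial element of a free group is conjugate to a power of a cyclically reduced
word which is not a proper power. -/
theorem exists_root (r : FreeGroup α) (hr : r ≠ 1) :
    ∃ (ℓ : ℕ) (_ : NeZero ℓ) (x : ZMod ℓ → α × Bool) (n : ℕ), 0 < n ∧ CycRed x ∧ Primitive x ∧
      IsConj r ((wd x ℓ 0) ^ n) := by
  classical
  have hne : Nonempty α := by
    by_contra h
    rw [not_nonempty_iff] at h
    exact hr (Subsingleton.elim _ _)
  have hex : ∃ ℓ : ℕ, ∃ (y : ℕ → α × Bool) (n : ℕ), 0 < n ∧ IsConj r ((wn y ℓ) ^ n) := by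
    obtain ⟨y, m, rfl⟩ := exists_wn r
    exact ⟨m, y, 1, one_pos, by rw [pow_one]⟩
  obtain ⟨y, n, hn, hconj⟩ := Nat.find_spec hex
  have hmin : ∀ m, m < Nat.find hex → ∀ (y : ℕ → α × Bool) (n : ℕ), 0 < n →
      ¬ IsConj r ((wn y m) ^ n) := by
    intro m hm y n hn hc
    exact Nat.find_min hex hm ⟨y, n, hn, hc⟩
  generalize Nat.find hex = ℓ at hconj hmin
  have hℓ : ℓ ≠ 0 := by
    rintro rfl
    simp only [wn, one_pow] at hconj
    rw [isConj_comm, isConj_one_right] at hconj
    exact hr hconj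
  have : NeZero ℓ := ⟨hℓ⟩
  let x : ZMod ℓ → α × Bool := fun i => y i.val
  have hx : wd x ℓ 0 = wn y ℓ := by
    apply wn_congr
    intro j hj
    simp only [x, zero_add]
    rw [ZMod.val_natCast_of_lt hj]
  rw [← hx] at hconj
  refine ⟨ℓ, inferInstance, x, n, hn, ?_, ?_, hconj⟩
  · -- cyclically reduced
    intro i hi
    have hℓ2 : 2 ≤ ℓ := by
      by_contra hlt
      have : ℓ = 1 := by omega
      subst this
      have : i + 1 = i := Subsingleton.elim _ _
      rw [this] at hi
      exact linv_ne_self _ hi.symm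
    obtain ⟨m, rfl⟩ : ∃ m, ℓ = m + 2 := ⟨ℓ - 2, by omega⟩
    have h1 : wd x (m + 2) i = wd x m (i + 1 + 1) := by
      rw [wd_succ', wd_succ', hi, letter_linv]
      group
    have h2 : IsConj ((wd x (m + 2) 0) ^ n) ((wd x m (i + 1 + 1)) ^ n) := by
      rw [← h1]
      obtain ⟨c, hc⟩ := isConj_iff.mp (wd_conj x i)
      rw [isConj_iff]
      exact ⟨c, by rw [← hc, conj_pow]⟩
    exact hmin m (by omega) _ n hn (hconj.trans h2)
  · -- primitive
    intro d hd
    by_contra hd0
    let per : AddSubgroup (ZMod ℓ) :=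
      { carrier := {e | ∀ i, x (i + e) = x i}
        zero_mem' := by intro i; simp
        add_mem' := by
          intro a b ha hb i
          rw [← add_assoc, hb, ha]
        neg_mem' := by
          intro a ha i
          have := ha (i + -a)
          rw [neg_add_cancel_right] at this
          exact this.symm }
    have hdper : d ∈ per := hd
    set g := Nat.gcd d.val ℓ with hg
    have hgpos : 0 < g := Nat.gcd_pos_of_pos_right _ (Nat.pos_of_ne_zero hℓ)
    have hglt : g < ℓ := by
      have h1 : g ≤ d.val := Nat.gcd_le_left _ (by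
        rw [Nat.pos_iff_ne_zero]
        intro h0
        exact hd0 ((ZMod.val_eq_zero d).mp h0))
      exact lt_of_le_of_lt h1 (ZMod.val_lt d)
    have hgper : ((g : ℕ) : ZMod ℓ) ∈ per := by
      have h1 := Nat.gcd_eq_gcd_ab d.val ℓ
      have h2 : ((g : ℕ) : ZMod ℓ) = (Nat.gcdA d.val ℓ : ℤ) • d := by
        have h3 := congrArg (fun t : ℤ => (t : ZMod ℓ)) h1
        simp only [Int.cast_natCast, Int.cast_add, Int.cast_mul, ZMod.natCast_zmod_val,
          CharP.cast_eq_zero, zero_mul, add_zero] at h3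
        rw [hg, h3, zsmul_eq_mul]; ring
      rw [h2]
      exact per.zsmul_mem hdper _
    obtain ⟨t, ht⟩ : g ∣ ℓ := Nat.gcd_dvd_right _ _
    have hpow : ∀ k : ℕ, wd x (k * g) 0 = (wd x g 0) ^ k := by
      intro k
      induction k with
      | zero => simp [wd_zero]
      | succ k ih =>
        rw [add_mul, one_mul, wd_add, pow_succ, ← ih]
        congr 1
        apply wn_congr
        intro j _
        rw [zero_add, zero_add, add_comm]
        exact hgper _
    have htpos : 0 < t := by
      rw [Nat.pos_iff_ne_zero]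
      rintro rfl
      rw [mul_zero] at ht
      exact hℓ ht
    have h1 : wd x ℓ 0 = (wd x g 0) ^ t := by
      rw [← hpow]
      congr 1
      rw [mul_comm]; exact ht
    rw [h1, ← pow_mul] at hconj
    exact hmin g hglt _ (t * n) (Nat.mul_pos htpos hn) hconj

end Letter

section Ext

variable {α Ω : Type} {K : Type} [Group K]

/-- The skew product action on `Ω × K`. -/
def skewGen (e : Equiv.Perm Ω) (c : Ω → K) : Equiv.Perm (Ω × K) where
  toFun q := (e q.1, c q.1 * q.2)
  invFun q := (e⁻¹ q.1, (c (e⁻¹ q.1))⁻¹ * q.2)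
  left_inv q := by ext <;> simp
  right_inv q := by ext <;> simp

/-- The skew product action of the free group. -/
def skewK (f : α → Equiv.Perm Ω) (c : α × Ω → K) : FreeGroup α →* Equiv.Perm (Ω × K) :=
  FreeGroup.lift (fun a => skewGen (f a) (fun ω => c (a, ω)))

/-- The extension of a cochain to a cocycle of the action. -/
def cc (f : α → Equiv.Perm Ω) (c : α × Ω → K) (g : FreeGroup α) (ω : Ω) : K :=
  (skewK f c g (ω, 1)).2

lemma skewK_apply (f : α → Equiv.Perm Ω) (c : α × Ω → K) (g : FreeGroup α) (ω : Ω) (k : K) :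
    skewK f c g (ω, k) = (FreeGroup.lift f g ω, cc f c g ω * k) := by
  induction g using FreeGroup.induction_on generalizing ω k with
  | C1 => simp [cc]
  | of a => simp [cc, skewK, skewGen]
  | inv_of a ih =>
    have h1 : ∀ (ω : Ω) (k : K), skewK f c (FreeGroup.of a)⁻¹ (ω, k) =
        ((f a)⁻¹ ω, (c (a, (f a)⁻¹ ω))⁻¹ * k) := by
      intro ω k
      rw [map_inv, Equiv.Perm.inv_eq_iff_eq]
      simp [skewK, skewGen]
    rw [h1, cc, h1]
    simp
  | mul g h ihg ihh =>
    have h1 : ∀ (ω : Ω) (k : K), skewK f c (g * h) (ω, k) =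
        (FreeGroup.lift f g (FreeGroup.lift f h ω),
          cc f c g (FreeGroup.lift f h ω) * (cc f c h ω * k)) := by
      intro ω k
      rw [map_mul, Equiv.Perm.mul_apply, ihh, ihg]
    have h2 : cc f c (g * h) ω = cc f c g (FreeGroup.lift f h ω) * cc f c h ω := by
      have h3 : (skewK f c (g * h) (ω, 1)).2 =
          cc f c g (FreeGroup.lift f h ω) * (cc f c h ω * 1) := congrArg Prod.snd (h1 ω 1)
      rw [mul_one] at h3
      exact h3
    rw [h1, h2]
    simp [mul_assoc]

variable (f : α → Equiv.Perm Ω) (c : α × Ω → K)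

lemma cc_one (ω : Ω) : cc f c 1 ω = 1 := by simp [cc]

lemma cc_mul (g h : FreeGroup α) (ω : Ω) :
    cc f c (g * h) ω = cc f c g (FreeGroup.lift f h ω) * cc f c h ω := by
  have h1 := skewK_apply f c (g * h) ω 1
  rw [map_mul, Equiv.Perm.mul_apply, skewK_apply, skewK_apply] at h1
  have h2 := congrArg Prod.snd h1
  simpa using h2.symm

lemma cc_of (a : α) (ω : Ω) : cc f c (FreeGroup.of a) ω = c (a, ω) := by
  simp [cc, skewK, skewGen]

lemma cc_inv (g : FreeGroup α) (ω : Ω) :
    cc f c g⁻¹ ω = (cc f c g (FreeGroup.lift f g⁻¹ ω))⁻¹ := by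
  have h1 := cc_mul f c g g⁻¹ ω
  rw [mul_inv_cancel, cc_one] at h1
  exact (inv_eq_of_mul_eq_one_right h1.symm).symm

lemma cc_letter (p : α × Bool) (ω : Ω) : cc f c (letter p) ω = gval f c p ω := by
  obtain ⟨a, b⟩ := p
  cases b
  · simp only [letter, Bool.false_eq_true, if_false, gval, edgeAt]
    rw [cc_inv, cc_of]
    simp [act]
  · simp only [letter, if_true, gval, edgeAt]
    rw [cc_of]

lemma lift_letter (p : α × Bool) : FreeGroup.lift f (letter p) = act f p := by
  obtain ⟨a, b⟩ := p
  cases b <;> simp [letter, act]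

variable {ℓ : ℕ} (x : ZMod ℓ → α × Bool)

lemma walkT_pow (m : ℕ) (v : Ω) (i : ZMod ℓ) :
    (walkT f x ^ m) (v, i) = (FreeGroup.lift f (wd x m i) v, i + m) := by
  induction m with
  | zero => simp [wd_zero]
  | succ m ih =>
    rw [pow_succ', Equiv.Perm.mul_apply, ih, wd_succ, map_mul, Equiv.Perm.mul_apply, lift_letter]
    apply Prod.ext
    · simp
    · simp only [walkT_snd]; push_cast; ring

lemma pathVal_eq_cc (m : ℕ) (v : Ω) (i : ZMod ℓ) :
    pathVal f x c m (v, i) = cc f c (wd x m i) v := by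
  induction m generalizing v i with
  | zero => simp [wd_zero, cc_one, pathVal]
  | succ m ih =>
    rw [pathVal, wd_succ', cc_mul, cc_letter, lift_letter]
    have : walkT f x (v, i) = (act f (x i) v, i + 1) := rfl
    rw [this, ih]

/-- A cocycle value is determined by finitely many edges. -/
lemma exists_support [DecidableEq α] [DecidableEq Ω] (g : FreeGroup α) (ω : Ω) :
    ∃ E : Finset (α × Ω), ∀ (K : Type) [Group K] (c : α × Ω → K) (φ : Ω → K),
      (∀ e ∈ E, c e = φ (f e.1 e.2) * (φ e.2)⁻¹) →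
        cc f c g ω = φ (FreeGroup.lift f g ω) * (φ ω)⁻¹ := by
  induction g using FreeGroup.induction_on generalizing ω with
  | C1 => exact ⟨∅, fun K _ c φ _ => by simp [cc_one]⟩
  | of a =>
    refine ⟨{(a, ω)}, fun K _ c φ h => ?_⟩
    rw [cc_of, h (a, ω) (Finset.mem_singleton_self _)]
    simp
  | inv_of a _ =>
    refine ⟨{(a, (f a)⁻¹ ω)}, fun K _ c φ h => ?_⟩
    have h1 := h _ (Finset.mem_singleton_self _)
    rw [cc_inv, cc_of]
    simp only [map_inv, FreeGroup.lift_apply_of]
    rw [h1]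
    simp
  | mul g h ihg ihh =>
    obtain ⟨E1, hE1⟩ := ihh ω
    obtain ⟨E2, hE2⟩ := ihg (FreeGroup.lift f h ω)
    refine ⟨E1 ∪ E2, fun K _ c φ hc => ?_⟩
    rw [cc_mul, hE1 K c φ (fun e he => hc e (Finset.mem_union_left _ he)),
      hE2 K c φ (fun e he => hc e (Finset.mem_union_right _ he)), map_mul,
      Equiv.Perm.mul_apply]
    group

end Ext

end Pool.Agent.H44R2
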