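import Mathlib
import Pool.Agent.H44R2.Words

/-!
# The key criterion for subgroups of one-relator groups
-/

namespace Pool.Agent.H44R2

open Finset

variable {α : Type} {ℓ : ℕ} [NeZero ℓ]

/-- Left multiplication by the generators on the cosets of `L`. -/
def cosetPerm (L : Subgroup (FreeGroup α)) (a : α) : Equiv.Perm (FreeGroup α ⧸ L) :=
  MulAction.toPerm (FreeGroup.of a)

lemma lift_cosetPerm (L : Subgroup (FreeGroup α)) (g : FreeGroup α) (ω : FreeGroup α ⧸ L) :
    FreeGroup.lift (cosetPerm L) g ω = g • ω := by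
  have h : FreeGroup.lift (cosetPerm L) = MulAction.toPermHom (FreeGroup α) (FreeGroup α ⧸ L) := by
    ext a ω
    simp [cosetPerm]
  rw [h]; rfl

/-- Key criterion.  `N` is a normal subgroup of the free group, `T` a finite set of elements and
`z` a power of a cyclically reduced word.  If the homomorphisms to the rationals and to the
integers modulo divisors of `n` from the subgroup generated by `T` and finitely many conjugates
of `z` vanish as soon as they vanish on these conjugates, then `T` lies in `N`. -/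
theorem key {x : ZMod ℓ → α × Bool} (hred : CycRed x) (hprim : Primitive x) {n : ℕ}
    (hn : 0 < n) (N : Subgroup (FreeGroup α)) [N.Normal] (T S : Finset (FreeGroup α))
    (hS : ∀ g ∈ S, g * (wd x ℓ 0) ^ n * g⁻¹ ∈ N)
    (L : Subgroup (FreeGroup α))
    (hL : L = Subgroup.closure ((T : Set (FreeGroup α)) ∪
      {y | ∃ g ∈ S, y = g * (wd x ℓ 0) ^ n * g⁻¹}))
    (HQ : ∀ lam : L →* Multiplicative ℚ,
      (∀ y : L, (∃ g ∈ S, (y : FreeGroup α) = g * (wd x ℓ 0) ^ n * g⁻¹) → lam y = 1) →
      ∀ y : L, (y : FreeGroup α) ∈ T → lam y = 1)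
    (HZ : ∀ m : ℕ, m ∣ n → ∀ lam : L →* Multiplicative (ZMod m),
      (∀ y : L, (∃ g ∈ S, (y : FreeGroup α) = g * (wd x ℓ 0) ^ n * g⁻¹) → lam y = 1) →
      ∀ y : L, (y : FreeGroup α) ∈ T → lam y = 1) :
    ∀ h ∈ T, h ∈ N := by
  classical
  have hℓ : 0 < ℓ := Nat.pos_of_ne_zero (NeZero.ne ℓ)
  have hN : 0 < n * ℓ := Nat.mul_pos hn hℓ
  set z := (wd x ℓ 0) ^ n with hz
  have hzw : wd x (n * ℓ) 0 = z := wd_pow x n
  have hTL : ∀ h ∈ T, h ∈ L := by
    intro h hh; rw [hL]; exact Subgroup.subset_closure (Or.inl hh)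
  have hSL : ∀ g ∈ S, g * z * g⁻¹ ∈ L := by
    intro g hg; rw [hL]; exact Subgroup.subset_closure (Or.inr ⟨g, hg, rfl⟩)
  let Ω := FreeGroup α ⧸ L
  let f : α → Equiv.Perm Ω := cosetPerm L
  let o : Ω := ((1 : FreeGroup α) : FreeGroup α ⧸ L)
  have hf : ∀ (g : FreeGroup α) (ω : Ω), FreeGroup.lift f g ω = g • ω := lift_cosetPerm L
  have ho : ∀ g : FreeGroup α, g ∈ L → g • o = o := by
    intro g hg
    change ((g * 1 : FreeGroup α) : FreeGroup α ⧸ L) = ((1 : FreeGroup α) : FreeGroup α ⧸ L)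
    rw [mul_one, eq_comm, QuotientGroup.eq]
    simpa using hg
  have hfix : ∀ g ∈ S, z • (g⁻¹ • o) = g⁻¹ • o := by
    intro g hg
    have h1 := ho _ (hSL g hg)
    have h2 := congrArg (fun t => g⁻¹ • t) h1
    simpa [mul_smul] using h2
  -- the positions
  let q : FreeGroup α → Ω × ZMod ℓ := fun g => (g⁻¹ • o, 0)
  have hq : ∀ g ∈ S, (walkT f x ^ (n * ℓ)) (q g) = q g := by
    intro g hg
    simp only [q]
    rw [walkT_pow, hzw, hf, hfix g hg]
    simp
  let P : Finset (Ω × ZMod ℓ) :=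
    (Finset.range (n * ℓ) ×ˢ S).image (fun kg => (walkT f x ^ kg.1) (q kg.2))
  have hPmem : ∀ p ∈ P, ∃ g ∈ S, ∃ k : ℕ, k < n * ℓ ∧ p = (walkT f x ^ k) (q g) := by
    intro p hp
    simp only [P, Finset.mem_image, Finset.mem_product, Finset.mem_range] at hp
    obtain ⟨⟨k, g⟩, ⟨hk, hg⟩, rfl⟩ := hp
    exact ⟨g, hg, k, hk, rfl⟩
  have hPmem' : ∀ g ∈ S, ∀ k, k < n * ℓ → (walkT f x ^ k) (q g) ∈ P := by
    intro g hg k hk
    simp only [P, Finset.mem_image, Finset.mem_product, Finset.mem_range]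
    exact ⟨⟨k, g⟩, ⟨hk, hg⟩, rfl⟩
  have hPT : ∀ p ∈ P, walkT f x p ∈ P := by
    intro p hp
    obtain ⟨g, hg, k, hk, rfl⟩ := hPmem p hp
    rw [← Equiv.Perm.mul_apply, ← pow_succ']
    rcases Nat.lt_or_ge (k + 1) (n * ℓ) with h | h
    · exact hPmem' g hg _ h
    · have : k + 1 = n * ℓ := by omega
      rw [this, hq g hg]
      have := hPmem' g hg 0 hN
      simpa using this
  have hPN : ∀ p ∈ P, (walkT f x ^ (n * ℓ)) p = p := by
    intro p hp
    obtain ⟨g, hg, k, hk, rfl⟩ := hPmem p hp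
    exact pow_walk (hq g hg) k
  -- the edges
  have hsup : ∀ (g : FreeGroup α) (ω : Ω), ∃ E : Finset (α × Ω), ∀ (K : Type) [Group K]
      (c : α × Ω → K) (φ : Ω → K), (∀ e ∈ E, c e = φ (f e.1 e.2) * (φ e.2)⁻¹) →
        cc f c g ω = φ (FreeGroup.lift f g ω) * (φ ω)⁻¹ := fun g ω => exists_support f g ω
  choose sup hsup using hsup
  let E : Finset (α × Ω) := (T.biUnion (fun h => sup h o)) ∪ P.image (stepE f x)
  have hPE : ∀ p ∈ P, stepE f x p ∈ E := fun p hp =>
    Finset.mem_union_right _ (Finset.mem_image_of_mem _ hp)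
  -- abelian cocycles are coboundaries
  have habel : ∀ (A : Type) [Group A] (c : α × Ω → A), IsCoc f x P (n * ℓ) c →
      (∀ lam : L →* A,
        (∀ y : L, (∃ g ∈ S, (y : FreeGroup α) = g * z * g⁻¹) → lam y = 1) →
        ∀ y : L, (y : FreeGroup α) ∈ T → lam y = 1) → IsCob f E c := by
    intro A _ c hc hlam
    let lam : L →* A :=
      { toFun := fun y => cc f c (y : FreeGroup α) o
        map_one' := by
          change cc f c (1 : FreeGroup α) o = 1
          exact cc_one f c o
        map_mul' := by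
          intro y y'
          change cc f c ((y : FreeGroup α) * (y' : FreeGroup α)) o = _
          rw [cc_mul, hf, ho _ y'.2] }
    have hlam_apply : ∀ y : L, lam y = cc f c (y : FreeGroup α) o := fun y => rfl
    have h1 : ∀ y : L, (∃ g ∈ S, (y : FreeGroup α) = g * z * g⁻¹) → lam y = 1 := by
      rintro y ⟨g, hg, hy⟩
      rw [hlam_apply, hy, cc_mul, cc_mul, hf, hf, hfix g hg]
      have h2 := hc (q g) (by simpa using hPmem' g hg 0 hN)
      simp only [q] at h2
      rw [pathVal_eq_cc, hzw] at h2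
      rw [h2, mul_one]
      have h3 := cc_mul f c g g⁻¹ o
      rw [mul_inv_cancel, cc_one, hf] at h3
      exact h3.symm
    have h2 := hlam lam h1
    have h3 : ∀ y : L, lam y = 1 := by
      rintro ⟨y, hy⟩
      have hy' : y ∈ Subgroup.closure ((T : Set (FreeGroup α)) ∪
          {y | ∃ g ∈ S, y = g * z * g⁻¹}) := by rw [← hL]; exact hy
      have h4 : ∀ (y : FreeGroup α) (hy : y ∈ Subgroup.closure ((T : Set (FreeGroup α)) ∪
          {y | ∃ g ∈ S, y = g * z * g⁻¹})), cc f c y o = 1 := by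
        intro y hy
        induction hy using Subgroup.closure_induction with
        | mem y hy =>
          rcases hy with hy | hy
          · exact h2 ⟨y, hTL y hy⟩ hy
          · obtain ⟨g, hg, rfl⟩ := hy
            exact h1 ⟨_, hSL g hg⟩ ⟨g, hg, rfl⟩
        | one => exact cc_one f c o
        | mul a b ha hb iha ihb =>
          rw [cc_mul, hf, ho b (by rw [hL]; exact hb), iha, ihb, mul_one]
        | inv a ha iha =>
          rw [cc_inv, hf, ho a⁻¹ (by rw [hL]; exact Subgroup.inv_mem _ ha), iha, inv_one]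
      exact h4 y hy'
    refine ⟨fun ω => cc f c (Quotient.out ω : FreeGroup α) o, fun e _ => ?_⟩
    have h4 : ∀ g : FreeGroup α,
        cc f c (Quotient.out ((g : FreeGroup α ⧸ L)) : FreeGroup α) o = cc f c g o := by
      intro g
      obtain ⟨y, hy⟩ := QuotientGroup.mk_out_eq_mul L g
      have h5 : (Quotient.out ((g : FreeGroup α ⧸ L)) : FreeGroup α) = g * y := hy
      rw [h5, cc_mul, hf, ho _ y.2]
      have := h3 y
      rw [hlam_apply] at this
      rw [this, mul_one]
    obtain ⟨a, ω⟩ := e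
    obtain ⟨g, rfl⟩ := QuotientGroup.mk_surjective ω
    have h5 : f a ((g : FreeGroup α) : FreeGroup α ⧸ L) =
        ((FreeGroup.of a * g : FreeGroup α) : FreeGroup α ⧸ L) := rfl
    simp only [h5, h4]
    rw [cc_mul, cc_of, hf]
    have h6 : g • o = ((g : FreeGroup α) : FreeGroup α ⧸ L) := by
      change ((g * 1 : FreeGroup α) : FreeGroup α ⧸ L) = _
      rw [mul_one]
    rw [h6]; group
  -- apply the main induction
  obtain ⟨φ, hφ⟩ := coboundary_of_abelian hred hprim n hn E.card E P le_rfl hPT hPN hPE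
    (fun c hc => habel _ c hc HQ) (fun m hm c hc => habel _ c hc (HZ m hm))
    (FreeGroup α ⧸ N) (fun e => ((FreeGroup.of e.1 : FreeGroup α) : FreeGroup α ⧸ N)) (by
      intro p hp
      obtain ⟨g, hg, k, hk, rfl⟩ := hPmem p hp
      apply pathVal_rot_pow _ (hq g hg)
      simp only [q]
      rw [pathVal_eq_cc, hzw]
      have h1 : ∀ (w : FreeGroup α) (ω : Ω),
          cc f (fun e => ((FreeGroup.of e.1 : FreeGroup α) : FreeGroup α ⧸ N)) w ω =
            ((w : FreeGroup α) : FreeGroup α ⧸ N) := by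
        intro w
        induction w using FreeGroup.induction_on with
        | C1 => intro ω; rw [cc_one]; rfl
        | of a => intro ω; rw [cc_of]
        | inv_of a ih => intro ω; rw [cc_inv, cc_of]; rfl
        | mul u v ihu ihv => intro ω; rw [cc_mul, ihu, ihv]; rfl
      rw [h1, QuotientGroup.eq_one_iff]
      have h2 := (inferInstance : N.Normal).conj_mem _ (hS g hg) g⁻¹
      have h3 : g⁻¹ * (g * z * g⁻¹) * g⁻¹⁻¹ = z := by group
      rw [h3] at h2
      exact h2)
  intro h hh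
  have h1 := hsup h o (FreeGroup α ⧸ N)
    (fun e => ((FreeGroup.of e.1 : FreeGroup α) : FreeGroup α ⧸ N)) φ
    (fun e he => hφ e (Finset.mem_union_left _ (Finset.mem_biUnion.mpr ⟨h, hh, he⟩)))
  rw [hf, ho h (hTL h hh), mul_inv_cancel] at h1
  have h2 : ∀ (w : FreeGroup α) (ω : Ω),
      cc f (fun e => ((FreeGroup.of e.1 : FreeGroup α) : FreeGroup α ⧸ N)) w ω =
        ((w : FreeGroup α) : FreeGroup α ⧸ N) := by
    intro w
    induction w using FreeGroup.induction_on with
    | C1 => intro ω; rw [cc_one]; rfl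
    | of a => intro ω; rw [cc_of]
    | inv_of a ih => intro ω; rw [cc_inv, cc_of]; rfl
    | mul u v ihu ihv => intro ω; rw [cc_mul, ihu, ihv]; rfl
  rw [h2, QuotientGroup.eq_one_iff] at h1
  exact h1

end Pool.Agent.H44R2
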