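import Mathlib
import Pool.Agent.H44R2.Key

/-!
# Finitely generated perfect subgroups and torsion of one-relator groups
-/

namespace Pool.Agent.H44R2

open Finset
open scoped commutatorElement

variable {α : Type}

/-- Elements of a normal closure are products of finitely many conjugates. -/
lemma mem_closure_conj (z : FreeGroup α) (v : FreeGroup α)
    (hv : v ∈ Subgroup.normalClosure ({z} : Set (FreeGroup α))) :
    ∃ S : Finset (FreeGroup α),
      v ∈ Subgroup.closure {y : FreeGroup α | ∃ g ∈ S, y = g * z * g⁻¹} := by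
  classical
  unfold Subgroup.normalClosure at hv
  induction hv using Subgroup.closure_induction with
  | mem v hv =>
    rw [Group.mem_conjugatesOfSet_iff] at hv
    obtain ⟨a, ha, hc⟩ := hv
    rw [Set.mem_singleton_iff] at ha
    subst ha
    obtain ⟨g, hg⟩ := isConj_iff.mp hc
    exact ⟨{g}, Subgroup.subset_closure ⟨g, Finset.mem_singleton_self _, hg.symm⟩⟩
  | one => exact ⟨∅, Subgroup.one_mem _⟩
  | mul a b _ _ iha ihb =>
    obtain ⟨S1, h1⟩ := iha
    obtain ⟨S2, h2⟩ := ihb
    refine ⟨S1 ∪ S2, Subgroup.mul_mem _ (Subgroup.closure_mono ?_ h1)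
      (Subgroup.closure_mono ?_ h2)⟩
    · rintro y ⟨g, hg, rfl⟩
      exact ⟨g, Finset.mem_union_left _ hg, rfl⟩
    · rintro y ⟨g, hg, rfl⟩
      exact ⟨g, Finset.mem_union_right _ hg, rfl⟩
  | inv a _ iha =>
    obtain ⟨S1, h1⟩ := iha
    exact ⟨S1, Subgroup.inv_mem _ h1⟩

/-- The relator as a power of a cyclically reduced word, including the trivial relator. -/
lemma exists_presentation [Nonempty α] (r : FreeGroup α) :
    ∃ (ℓ : ℕ) (_ : NeZero ℓ) (x : ZMod ℓ → α × Bool) (n : ℕ), 0 < n ∧ CycRed x ∧ Primitive x ∧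
      (r ≠ 1 → IsConj r ((wd x ℓ 0) ^ n)) ∧
      ∀ v ∈ Subgroup.normalClosure ({r} : Set (FreeGroup α)), ∃ S : Finset (FreeGroup α),
        (∀ g ∈ S, g * (wd x ℓ 0) ^ n * g⁻¹ ∈ Subgroup.normalClosure ({r} : Set (FreeGroup α))) ∧
        v ∈ Subgroup.closure {y : FreeGroup α | ∃ g ∈ S, y = g * (wd x ℓ 0) ^ n * g⁻¹} := by
  classical
  by_cases hr : r = 1
  · subst hr
    refine ⟨1, inferInstance, fun _ => (Classical.arbitrary α, true), 1, one_pos, ?_, ?_, ?_, ?_⟩
    · intro i h
      have := congrArg Prod.snd h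
      simp [linv] at this
    · intro d _; exact Subsingleton.elim _ _
    · intro h; exact absurd rfl h
    · intro v hv
      have h1 : Subgroup.normalClosure ({1} : Set (FreeGroup α)) ≤ ⊥ :=
        Subgroup.normalClosure_le_normal (by simp)
      have h2 : v = 1 := Subgroup.mem_bot.mp (h1 hv)
      subst h2
      exact ⟨∅, by simp, Subgroup.one_mem _⟩
  · obtain ⟨ℓ, hℓ, x, n, hn, hred, hprim, hconj⟩ := exists_root r hr
    refine ⟨ℓ, hℓ, x, n, hn, hred, hprim, fun _ => hconj, ?_⟩
    have h1 : Subgroup.normalClosure ({r} : Set (FreeGroup α)) =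
        Subgroup.normalClosure ({(wd x ℓ 0) ^ n} : Set (FreeGroup α)) := by
      apply le_antisymm
      · apply Subgroup.normalClosure_le_normal
        rw [Set.singleton_subset_iff]
        obtain ⟨c, hc⟩ := isConj_iff.mp hconj.symm
        rw [← hc]
        exact Subgroup.normalClosure_normal.conj_mem _ (Subgroup.subset_normalClosure (Set.mem_singleton _)) _
      · apply Subgroup.normalClosure_le_normal
        rw [Set.singleton_subset_iff]
        obtain ⟨c, hc⟩ := isConj_iff.mp hconj
        rw [← hc]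
        exact Subgroup.normalClosure_normal.conj_mem _ (Subgroup.subset_normalClosure (Set.mem_singleton _)) _
    intro v hv
    rw [h1] at hv
    obtain ⟨S, hS⟩ := mem_closure_conj _ _ hv
    refine ⟨S, fun g _ => ?_, hS⟩
    rw [h1]
    exact Subgroup.normalClosure_normal.conj_mem _ (Subgroup.subset_normalClosure (Set.mem_singleton _)) _

/-- A finitely generated subgroup of the free group whose image in the one-relator group is
perfect has trivial image. -/
theorem perfect_le (r : FreeGroup α) (T : Finset (FreeGroup α))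
    (hT : ∀ h ∈ T, ∃ u ∈ ⁅Subgroup.closure (T : Set (FreeGroup α)),
      Subgroup.closure (T : Set (FreeGroup α))⁆,
      u⁻¹ * h ∈ Subgroup.normalClosure ({r} : Set (FreeGroup α))) :
    ∀ h ∈ T, h ∈ Subgroup.normalClosure ({r} : Set (FreeGroup α)) := by
  classical
  rcases isEmpty_or_nonempty α with hα | hα
  · intro h _
    have : h = 1 := Subsingleton.elim _ _
    rw [this]; exact Subgroup.one_mem _
  obtain ⟨ℓ, hℓ, x, n, hn, hred, hprim, -, hfin⟩ := exists_presentation r
  choose! u hu1 hu2 using hT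
  choose! S hS1 hS2 using hfin
  let SS : Finset (FreeGroup α) := T.biUnion (fun h => S ((u h)⁻¹ * h))
  have hSS : ∀ g ∈ SS, g * (wd x ℓ 0) ^ n * g⁻¹ ∈
      Subgroup.normalClosure ({r} : Set (FreeGroup α)) := by
    intro g hg
    obtain ⟨h, hh, hg⟩ := Finset.mem_biUnion.mp hg
    exact hS1 _ (hu2 h hh) g hg
  set L := Subgroup.closure ((T : Set (FreeGroup α)) ∪
      {y | ∃ g ∈ SS, y = g * (wd x ℓ 0) ^ n * g⁻¹}) with hL
  have habel : ∀ (A : Type) [CommGroup A] (lam : L →* A),
      (∀ y : L, (∃ g ∈ SS, (y : FreeGroup α) = g * (wd x ℓ 0) ^ n * g⁻¹) → lam y = 1) →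
      ∀ y : L, (y : FreeGroup α) ∈ T → lam y = 1 := by
    intro A _ lam hlam y hy
    have h0 : Subgroup.closure (T : Set (FreeGroup α)) ≤ L :=
      Subgroup.closure_mono Set.subset_union_left
    have h1 : ⁅Subgroup.closure (T : Set (FreeGroup α)),
        Subgroup.closure (T : Set (FreeGroup α))⁆ ≤ Subgroup.map L.subtype lam.ker := by
      rw [Subgroup.commutator_le]
      intro a ha b hb
      refine ⟨⁅(⟨a, h0 ha⟩ : L), (⟨b, h0 hb⟩ : L)⁆, ?_, rfl⟩
      change lam _ = 1
      rw [map_commutatorElement, commutatorElement_eq_one_iff_mul_comm, mul_comm]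
    have h2 : ((u y)⁻¹ * (y : FreeGroup α)) ∈ Subgroup.map L.subtype lam.ker := by
      have h3 := hS2 _ (hu2 _ hy)
      refine (Subgroup.closure_le _).mpr ?_ h3
      rintro _ ⟨g, hg, rfl⟩
      have hg' : g ∈ SS := Finset.mem_biUnion.mpr ⟨_, hy, hg⟩
      have hgL : g * (wd x ℓ 0) ^ n * g⁻¹ ∈ L :=
        Subgroup.subset_closure (Or.inr ⟨g, hg', rfl⟩)
      exact ⟨⟨_, hgL⟩, hlam ⟨_, hgL⟩ ⟨g, hg', rfl⟩, rfl⟩
    have h3 : (y : FreeGroup α) ∈ Subgroup.map L.subtype lam.ker := by
      have := Subgroup.mul_mem _ (h1 (hu1 _ hy)) h2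
      simpa using this
    obtain ⟨y', hy', hyy⟩ := h3
    have : y' = y := Subtype.ext hyy
    rw [← this]; exact hy'
  exact key hred hprim hn _ T SS hSS L hL (fun lam => habel _ lam) (fun m _ lam => habel _ lam)

/-- One-relator groups have no nontrivial finitely generated perfect subgroup. -/
theorem no_perfect (r : FreeGroup α) (H : Subgroup (PresentedGroup ({r} : Set (FreeGroup α))))
    (hfg : H.FG) (hH : ⁅H, H⁆ = H) : H = ⊥ := by
  classical
  obtain ⟨S, hS⟩ := hfg
  have hsurj := PresentedGroup.mk_surjective ({r} : Set (FreeGroup α))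
  choose lift hlift using hsurj
  let T : Finset (FreeGroup α) := S.image lift
  have hmap : Subgroup.map (PresentedGroup.mk ({r} : Set (FreeGroup α)))
      (Subgroup.closure (T : Set (FreeGroup α))) = H := by
    rw [MonoidHom.map_closure, ← hS]
    congr 1
    ext y
    simp only [T, Finset.coe_image, Set.mem_image, Finset.mem_coe]
    constructor
    · rintro ⟨_, ⟨y', hy', rfl⟩, rfl⟩
      rw [hlift]; exact hy'
    · intro hy
      exact ⟨lift y, ⟨y, hy, rfl⟩, hlift y⟩
  have hker : ∀ w : FreeGroup α, PresentedGroup.mk ({r} : Set (FreeGroup α)) w = 1 ↔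
      w ∈ Subgroup.normalClosure ({r} : Set (FreeGroup α)) := by
    intro w
    exact QuotientGroup.eq_one_iff w
  have hT := perfect_le r T (by
    intro h hh
    have h1 : PresentedGroup.mk ({r} : Set (FreeGroup α)) h ∈ ⁅H, H⁆ := by
      rw [hH, ← hmap]
      exact Subgroup.mem_map_of_mem _ (Subgroup.subset_closure hh)
    rw [← hmap, ← Subgroup.map_commutator] at h1
    obtain ⟨u, hu, hu2⟩ := h1
    refine ⟨u, hu, ?_⟩
    rw [← hker, map_mul, map_inv, hu2]
    group)
  rw [eq_bot_iff, ← hmap, Subgroup.map_le_iff_le_comap, Subgroup.closure_le]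
  intro h hh
  change PresentedGroup.mk ({r} : Set (FreeGroup α)) h ∈ (⊥ : Subgroup _)
  rw [Subgroup.mem_bot, hker]
  exact hT h hh

end Pool.Agent.H44R2
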