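import Mathlib
import Pool.Agent.H44R2.Perfect

/-!
# Paths inside a set of edges, loop groups and their relations
-/

namespace Pool.Agent.H44R2

open scoped commutatorElement

section Paths

variable {α Ω : Type}

/-- `Pth f E v g`: some word representing `g` can be read from `v` inside the set of edges `E`. -/
inductive Pth (f : α → Equiv.Perm Ω) (E : Set (α × Ω)) (v : Ω) : FreeGroup α → Prop
  | one : Pth f E v 1
  | step (p : α × Bool) (g : FreeGroup α) (hg : Pth f E v g)
      (he : edgeAt f p (FreeGroup.lift f g v) ∈ E) : Pth f E v (letter p * g)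

variable {f : α → Equiv.Perm Ω} {E E' : Set (α × Ω)}

lemma Pth.mono (h : E ⊆ E') {v : Ω} {g : FreeGroup α} (hg : Pth f E v g) : Pth f E' v g := by
  induction hg with
  | one => exact Pth.one
  | step p g _ he ih => exact Pth.step p g ih (h he)

lemma Pth.trans {v : Ω} {g h : FreeGroup α} (hg : Pth f E v g)
    (hh : Pth f E (FreeGroup.lift f g v) h) : Pth f E v (h * g) := by
  induction hh with
  | one => simpa using hg
  | step p h _ he ih =>
    rw [mul_assoc]
    refine Pth.step p _ ih ?_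
    rw [map_mul, Equiv.Perm.mul_apply]
    exact he

lemma Pth.trans' {v w : Ω} {g h : FreeGroup α} (hg : Pth f E v g)
    (hw : FreeGroup.lift f g v = w) (hh : Pth f E w h) : Pth f E v (h * g) := by
  subst hw; exact hg.trans hh

lemma Pth.single {p : α × Bool} {v : Ω} (he : edgeAt f p v ∈ E) : Pth f E v (letter p) := by
  have := Pth.step (f := f) (E := E) (v := v) p 1 Pth.one (by simpa using he)
  simpa using this

lemma Pth.of {a : α} {v : Ω} (he : (a, v) ∈ E) : Pth f E v (FreeGroup.of a) := by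
  have := Pth.single (f := f) (E := E) (p := (a, true)) (v := v) (by simpa [edgeAt] using he)
  simpa [letter] using this

lemma Pth.inv {v : Ω} {g : FreeGroup α} (hg : Pth f E v g) :
    Pth f E (FreeGroup.lift f g v) g⁻¹ := by
  induction hg with
  | one => simpa using Pth.one
  | step p g _ he ih =>
    have h1 : Pth f E (FreeGroup.lift f (letter p * g) v) (letter (linv p)) := by
      apply Pth.single
      rw [map_mul, Equiv.Perm.mul_apply, lift_letter, edgeAt_linv]
      exact he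
    have h2 : FreeGroup.lift f (letter (linv p)) (FreeGroup.lift f (letter p * g) v) =
        FreeGroup.lift f g v := by
      rw [letter_linv, map_mul, map_inv, Equiv.Perm.mul_apply]; simp
    have h3 := h1.trans' h2 ih
    rw [letter_linv] at h3
    rw [mul_inv_rev]
    exact h3

lemma Pth.inv' {v w : Ω} {g : FreeGroup α} (hg : Pth f E v g) (hw : FreeGroup.lift f g v = w) :
    Pth f E w g⁻¹ := by
  subst hw; exact hg.inv

/-- The group of loops at `o` inside `E`. -/
def PiE (f : α → Equiv.Perm Ω) (E : Set (α × Ω)) (o : Ω) : Subgroup (FreeGroup α) where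
  carrier := {g | Pth f E o g ∧ FreeGroup.lift f g o = o}
  one_mem' := ⟨Pth.one, by simp⟩
  mul_mem' := by
    rintro a b ⟨ha, ha'⟩ ⟨hb, hb'⟩
    exact ⟨hb.trans' hb' ha, by rw [map_mul, Equiv.Perm.mul_apply, hb', ha']⟩
  inv_mem' := by
    rintro a ⟨ha, ha'⟩
    refine ⟨ha.inv' ha', ?_⟩
    rw [map_inv, Equiv.Perm.inv_eq_iff_eq]; exact ha'.symm

lemma mem_PiE {o : Ω} {g : FreeGroup α} :
    g ∈ PiE f E o ↔ Pth f E o g ∧ FreeGroup.lift f g o = o := Iff.rfl

lemma PiE_mono (h : E ⊆ E') (o : Ω) : PiE f E o ≤ PiE f E' o := fun _ hg => ⟨hg.1.mono h, hg.2⟩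

/-- Conjugating a loop by a path. -/
lemma conj_mem_PiE {o : Ω} {q g : FreeGroup α} (hq : Pth f E o q)
    (hg : g ∈ PiE f E (FreeGroup.lift f q o)) : q⁻¹ * g * q ∈ PiE f E o := by
  obtain ⟨h1, h2⟩ := hg
  refine ⟨?_, ?_⟩
  · have h3 := hq.trans h1
    have h4 : FreeGroup.lift f (g * q) o = FreeGroup.lift f q o := by
      rw [map_mul, Equiv.Perm.mul_apply, h2]
    have h5 := h3.trans' h4 hq.inv
    rwa [← mul_assoc] at h5
  · rw [map_mul, map_mul, Equiv.Perm.mul_apply, Equiv.Perm.mul_apply, h2, map_inv]; simp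

lemma conj_mem_PiE' {o : Ω} {q g : FreeGroup α} (hq : Pth f E o q)
    (hg : g ∈ PiE f E o) : q * g * q⁻¹ ∈ PiE f E (FreeGroup.lift f q o) := by
  have h1 : Pth f E (FreeGroup.lift f q o) q⁻¹ := hq.inv
  have h2 : FreeGroup.lift f q⁻¹ (FreeGroup.lift f q o) = o := by rw [map_inv]; simp
  have h3 := conj_mem_PiE (f := f) (E := E) (o := FreeGroup.lift f q o) (q := q⁻¹) (g := g) h1
    (by rw [h2]; exact hg)
  simpa using h3

end Paths

section Positions

variable {α Ω : Type} {ℓ : ℕ}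

/-- The positions on closed cycles of length `N` inside `E`. -/
def Pos (f : α → Equiv.Perm Ω) (x : ZMod ℓ → α × Bool) (N : ℕ) (E : Set (α × Ω)) :
    Set (Ω × ZMod ℓ) :=
  {p | (walkT f x ^ N) p = p ∧ ∀ k : ℕ, stepE f x ((walkT f x ^ k) p) ∈ E}

variable {f : α → Equiv.Perm Ω} {x : ZMod ℓ → α × Bool} {N : ℕ} {E E' : Set (α × Ω)}

lemma Pos_mono (h : E ⊆ E') : Pos f x N E ⊆ Pos f x N E' := fun _ hp => ⟨hp.1, fun k => h (hp.2 k)⟩

lemma Pos_walk {p : Ω × ZMod ℓ} (hp : p ∈ Pos f x N E) (k : ℕ) :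
    (walkT f x ^ k) p ∈ Pos f x N E := by
  refine ⟨pow_walk hp.1 k, fun j => ?_⟩
  rw [← Equiv.Perm.mul_apply, ← pow_add]
  exact hp.2 _

lemma Pos_walk_one {p : Ω × ZMod ℓ} (hp : p ∈ Pos f x N E) : walkT f x p ∈ Pos f x N E := by
  simpa using Pos_walk hp 1

lemma Pth_wd {v : Ω} {i : ZMod ℓ} (m : ℕ)
    (h : ∀ k < m, stepE f x ((walkT f x ^ k) (v, i)) ∈ E) : Pth f E v (wd x m i) := by
  induction m with
  | zero => rw [wd_zero]; exact Pth.one
  | succ m ih =>
    rw [wd_succ]
    refine Pth.step _ _ (ih (fun k hk => h k (by omega))) ?_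
    have h1 := h m (by omega)
    rw [walkT_pow] at h1
    exact h1

lemma lift_wd_of_period {v : Ω} {i : ZMod ℓ} {m : ℕ} (h : (walkT f x ^ m) (v, i) = (v, i)) :
    FreeGroup.lift f (wd x m i) v = v := by
  rw [walkT_pow] at h
  exact congrArg Prod.fst h

/-- The subgroup generated by the based closed `x`-cycles of length `N` inside `E`. -/
def NnE (f : α → Equiv.Perm Ω) (x : ZMod ℓ → α × Bool) (N : ℕ) (E : Set (α × Ω)) (o : Ω) :
    Subgroup (FreeGroup α) :=
  Subgroup.closure {y | ∃ g, Pth f E o g ∧ (FreeGroup.lift f g o, (0 : ZMod ℓ)) ∈ Pos f x N E ∧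
    y = g⁻¹ * wd x N 0 * g}

lemma NnE_le_PiE (o : Ω) : NnE f x N E o ≤ PiE f E o := by
  unfold NnE
  rw [Subgroup.closure_le]
  rintro y ⟨g, hg, hp, rfl⟩
  apply conj_mem_PiE hg
  exact ⟨Pth_wd N (fun k _ => hp.2 k), lift_wd_of_period hp.1⟩

lemma NnE_mono (h : E ⊆ E') (o : Ω) : NnE f x N E o ≤ NnE f x N E' o := by
  apply Subgroup.closure_mono
  rintro y ⟨g, hg, hp, rfl⟩
  exact ⟨g, hg.mono h, Pos_mono h hp, rfl⟩

/-- Conjugation by a path between base points. -/
lemma conj_mem_NnE {o : Ω} {q y : FreeGroup α} (hq : Pth f E o q)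
    (hy : y ∈ NnE f x N E (FreeGroup.lift f q o)) : q⁻¹ * y * q ∈ NnE f x N E o := by
  unfold NnE at hy
  induction hy using Subgroup.closure_induction with
  | mem y hy =>
    obtain ⟨g, hg, hp, rfl⟩ := hy
    apply Subgroup.subset_closure
    refine ⟨g * q, hq.trans hg, ?_, ?_⟩
    · rw [map_mul, Equiv.Perm.mul_apply]; exact hp
    · group
  | one => simpa using Subgroup.one_mem _
  | mul a b _ _ iha ihb =>
    have := Subgroup.mul_mem _ iha ihb
    have h : q⁻¹ * a * q * (q⁻¹ * b * q) = q⁻¹ * (a * b) * q := by group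
    rwa [h] at this
  | inv a _ iha =>
    have := Subgroup.inv_mem _ iha
    have h : (q⁻¹ * a * q)⁻¹ = q⁻¹ * a⁻¹ * q := by group
    rwa [h] at this

lemma conj_mem_NnE' {o : Ω} {q y : FreeGroup α} (hq : Pth f E o q)
    (hy : y ∈ NnE f x N E o) : q * y * q⁻¹ ∈ NnE f x N E (FreeGroup.lift f q o) := by
  have h2 : FreeGroup.lift f q⁻¹ (FreeGroup.lift f q o) = o := by rw [map_inv]; simp
  have h3 := conj_mem_NnE (f := f) (x := x) (N := N) (E := E) (o := FreeGroup.lift f q o)
    (q := q⁻¹) (y := y) hq.inv (by rw [h2]; exact hy)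
  simpa using h3

lemma conj_loop_mem_NnE {o : Ω} {q y : FreeGroup α} (hq : q ∈ PiE f E o)
    (hy : y ∈ NnE f x N E o) : q * y * q⁻¹ ∈ NnE f x N E o := by
  have := conj_mem_NnE' hq.1 hy
  rwa [hq.2] at this

instance NnE_normal (o : Ω) : ((NnE f x N E o).subgroupOf (PiE f E o)).Normal := by
  constructor
  rintro ⟨y, hy⟩ hy' ⟨g, hg⟩
  rw [Subgroup.mem_subgroupOf] at hy' ⊢
  exact conj_loop_mem_NnE hg hy'

/-- The relation given by a position with arbitrary index. -/
lemma pos_mem_NnE [NeZero ℓ] (hN : (N : ZMod ℓ) = 0) {o : Ω} {g : FreeGroup α} {i : ZMod ℓ}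
    (hg : Pth f E o g) (hp : (FreeGroup.lift f g o, i) ∈ Pos f x N E) :
    g⁻¹ * wd x N i * g ∈ NnE f x N E o := by
  set j : ℕ := (-i).val with hj
  have hj' : (j : ZMod ℓ) = -i := by simp [hj]
  have h1 : wd x N i = (wd x j i)⁻¹ * wd x N 0 * wd x j i := by
    have h2 := wd_add x N j i
    have h3 := wd_add x j N i
    rw [hj', add_neg_cancel] at h2
    rw [hN, add_zero, add_comm j N, h2] at h3
    rw [mul_assoc, h3]; group
  rw [h1]
  apply Subgroup.subset_closure
  refine ⟨wd x j i * g, hg.trans (Pth_wd j (fun k _ => hp.2 k)), ?_, by group⟩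
  have h2 := Pos_walk hp j
  rw [walkT_pow, hj', add_neg_cancel] at h2
  rw [map_mul, Equiv.Perm.mul_apply]
  exact h2

variable {K : Type} [Group K]

/-- A cocycle on the positions kills the relations. -/
lemma cc_NnE {c : α × Ω → K} (hc : ∀ p ∈ Pos f x N E, pathVal f x c N p = 1) {o : Ω}
    {y : FreeGroup α} (hy : y ∈ NnE f x N E o) : cc f c y o = 1 := by
  have hfix : ∀ y ∈ NnE f x N E o, FreeGroup.lift f y o = o := fun y hy => (NnE_le_PiE o hy).2
  unfold NnE at hy
  induction hy using Subgroup.closure_induction with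
  | mem y hy =>
    obtain ⟨g, hg, hp, rfl⟩ := hy
    have h1 := hc _ hp
    rw [pathVal_eq_cc] at h1
    have h2 : FreeGroup.lift f (wd x N 0) (FreeGroup.lift f g o) = FreeGroup.lift f g o :=
      lift_wd_of_period hp.1
    rw [cc_mul, cc_mul, h1, h2, mul_one]
    have h3 := cc_mul f c g⁻¹ g o
    rw [inv_mul_cancel, cc_one] at h3
    exact h3.symm
  | one => exact cc_one f c o
  | mul a b ha hb iha ihb => rw [cc_mul, hfix b hb, iha, ihb, mul_one]
  | inv a ha iha =>
    have h1 : FreeGroup.lift f a⁻¹ o = o := hfix _ (Subgroup.inv_mem _ ha)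
    rw [cc_inv, h1, iha, inv_one]

lemma cc_mul_loop (c : α × Ω → K) {o : Ω} {g h : FreeGroup α} (hh : FreeGroup.lift f h o = o) :
    cc f c (g * h) o = cc f c g o * cc f c h o := by
  rw [cc_mul, hh]

end Positions

end Pool.Agent.H44R2
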