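import Mathlib
import Pool.Agent.H44R2.Pi

/-!
# Marked complexes and removal of edges
-/

namespace Pool.Agent.H44R2

section Tot

variable {F G : Type} [Group F] [Group G] {S : Subgroup F}

open Classical in
/-- Extension of a homomorphism on a subgroup by `1`. -/
noncomputable def tot (χ : S →* G) (g : F) : G := if h : g ∈ S then χ ⟨g, h⟩ else 1

lemma tot_of_mem (χ : S →* G) {g : F} (h : g ∈ S) : tot χ g = χ ⟨g, h⟩ := by
  simp [tot, h]

lemma tot_coe (χ : S →* G) (g : S) : tot χ (g : F) = χ g := by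
  rw [tot_of_mem χ g.2]

lemma tot_one (χ : S →* G) : tot χ 1 = 1 := by
  rw [tot_of_mem χ S.one_mem]
  exact map_one χ

lemma tot_mul (χ : S →* G) {g h : F} (hg : g ∈ S) (hh : h ∈ S) :
    tot χ (g * h) = tot χ g * tot χ h := by
  rw [tot_of_mem χ hg, tot_of_mem χ hh, tot_of_mem χ (S.mul_mem hg hh), ← map_mul]
  rfl

lemma tot_inv (χ : S →* G) {g : F} (hg : g ∈ S) : tot χ g⁻¹ = (tot χ g)⁻¹ := by
  rw [tot_of_mem χ hg, tot_of_mem χ (S.inv_mem hg), ← map_inv]
  rfl

end Tot

section Recog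

open Monoid

variable {G : Type} [Group G]

/-- Recognition of internal free products. -/
lemma coprod_of_retraction (A B : Subgroup G) (Φ : G →* Coprod A B)
    (hA : ∀ a : A, Φ a = Coprod.inl a) (hB : ∀ b : B, Φ b = Coprod.inr b)
    (hgen : A ⊔ B = ⊤) : Nonempty (G ≃* Coprod A B) := by
  let Ψ : Coprod A B →* G := Coprod.lift A.subtype B.subtype
  have h1 : Φ.comp Ψ = MonoidHom.id _ := by
    apply Coprod.hom_ext
    · ext a; simp [Ψ, hA]
    · ext b; simp [Ψ, hB]
  have hinj : Function.Injective Ψ := by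
    intro u v huv
    have h2 := DFunLike.congr_fun h1 u
    have h3 := DFunLike.congr_fun h1 v
    simp only [MonoidHom.comp_apply, MonoidHom.id_apply] at h2 h3
    rw [← h2, ← h3, huv]
  have hsurj : Function.Surjective Ψ := by
    rw [← MonoidHom.range_eq_top, eq_top_iff, ← hgen, sup_le_iff]
    constructor
    · intro a ha
      exact ⟨Coprod.inl ⟨a, ha⟩, by simp [Ψ]⟩
    · intro b hb
      exact ⟨Coprod.inr ⟨b, hb⟩, by simp [Ψ]⟩
  exact ⟨(MulEquiv.ofBijective Ψ ⟨hinj, hsurj⟩).symm⟩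

end Recog

section Trans

variable {α Ω : Type} {ℓ : ℕ}

/-- The component of `o`. -/
def Comp (f : α → Equiv.Perm Ω) (E : Set (α × Ω)) (o : Ω) : Set Ω :=
  {v | ∃ g, Pth f E o g ∧ FreeGroup.lift f g o = v}

variable {f : α → Equiv.Perm Ω} {x : ZMod ℓ → α × Bool} {N : ℕ} {E E' : Set (α × Ω)}

lemma self_mem_Comp (o : Ω) : o ∈ Comp f E o := ⟨1, Pth.one, by simp⟩

lemma Comp_edge {o : Ω} {b : α} {v : Ω} (he : (b, v) ∈ E) :
    v ∈ Comp f E o ↔ f b v ∈ Comp f E o := by
  constructor
  · rintro ⟨g, hg, hgv⟩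
    refine ⟨FreeGroup.of b * g, hg.trans' hgv (Pth.of he), ?_⟩
    rw [map_mul, Equiv.Perm.mul_apply, hgv]; simp
  · rintro ⟨g, hg, hgv⟩
    have h1 : Pth f E (f b v) (FreeGroup.of b)⁻¹ := (Pth.of he).inv' (by simp)
    refine ⟨(FreeGroup.of b)⁻¹ * g, hg.trans' hgv h1, ?_⟩
    rw [map_mul, Equiv.Perm.mul_apply, hgv]; simp

lemma Comp_path {o v : Ω} {g : FreeGroup α} (hg : Pth f E v g) :
    v ∈ Comp f E o ↔ FreeGroup.lift f g v ∈ Comp f E o := by
  constructor
  · rintro ⟨h, hh, hhv⟩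
    refine ⟨g * h, hh.trans' hhv hg, ?_⟩
    rw [map_mul, Equiv.Perm.mul_apply, hhv]
  · rintro ⟨h, hh, hhv⟩
    refine ⟨g⁻¹ * h, hh.trans' hhv hg.inv, ?_⟩
    rw [map_mul, Equiv.Perm.mul_apply, hhv, map_inv]; simp

open Classical in
/-- A transversal of paths. -/
noncomputable def trv (f : α → Equiv.Perm Ω) (E : Set (α × Ω)) (o v : Ω) : FreeGroup α :=
  if v = o then 1 else if h : v ∈ Comp f E o then h.choose else 1

lemma trv_self (o : Ω) : trv f E o o = 1 := by simp [trv]

lemma trv_spec {o v : Ω} (hv : v ∈ Comp f E o) :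
    Pth f E o (trv f E o v) ∧ FreeGroup.lift f (trv f E o v) o = v := by
  unfold trv
  split_ifs with h
  · subst h; exact ⟨Pth.one, by simp⟩
  · exact hv.choose_spec

/-- The loop attached to an edge or path by the transversal. -/
lemma trv_loop {o v : Ω} (hv : v ∈ Comp f E o) {g : FreeGroup α} (hg : Pth f E v g) :
    (trv f E o (FreeGroup.lift f g v))⁻¹ * g * trv f E o v ∈ PiE f E o := by
  obtain ⟨h1, h2⟩ := trv_spec hv
  obtain ⟨h3, h4⟩ := trv_spec ((Comp_path hg).mp hv)
  have h5 : Pth f E o (g * trv f E o v) := h1.trans' h2 hg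
  have h6 : FreeGroup.lift f (g * trv f E o v) o = FreeGroup.lift f g v := by
    rw [map_mul, Equiv.Perm.mul_apply, h2]
  refine ⟨?_, ?_⟩
  · rw [mul_assoc]
    exact h5.trans' h6 (h3.inv' h4)
  · rw [mul_assoc, map_mul, Equiv.Perm.mul_apply, h6, map_inv, Equiv.Perm.inv_eq_iff_eq]
    exact h4.symm

variable {K : Type} [Group K]

/-- A tautological cochain on a component computes a homomorphism on loops. -/
lemma taut_path {o : Ω} (Fb : PiE f E o →* K) (c : α × Ω → K)
    (hc : ∀ b v, (b, v) ∈ E → v ∈ Comp f E o →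
      c (b, v) = tot Fb ((trv f E o (f b v))⁻¹ * FreeGroup.of b * trv f E o v))
    {v : Ω} (hv : v ∈ Comp f E o) {g : FreeGroup α} (hg : Pth f E v g) :
    cc f c g v = tot Fb ((trv f E o (FreeGroup.lift f g v))⁻¹ * g * trv f E o v) := by
  induction hg with
  | one =>
    rw [cc_one]
    simp only [map_one, Equiv.Perm.coe_one, id_eq, mul_one, inv_mul_cancel]
    rw [tot_one]
  | step p g hg he ih =>
    set w := FreeGroup.lift f g v with hw
    have hwc : w ∈ Comp f E o := (Comp_path hg).mp hv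
    have h1 : cc f c (letter p) w =
        tot Fb ((trv f E o (FreeGroup.lift f (letter p) w))⁻¹ * letter p * trv f E o w) := by
      rw [cc_letter, lift_letter]
      obtain ⟨a, b⟩ := p
      cases b
      · simp only [edgeAt, Bool.false_eq_true, if_false, act_false] at he
        have hwc' : (f a)⁻¹ w ∈ Comp f E o := by
          rw [Comp_edge he]; simpa using hwc
        have h2 := hc a _ he hwc'
        simp only [gval, Bool.false_eq_true, if_false, edgeAt, act_false, letter]
        rw [h2]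
        have h3 := trv_loop hwc' (Pth.of he)
        simp only [FreeGroup.lift_apply_of] at h3
        rw [← tot_inv _ h3]
        congr 1
        have h4 : f a ((f a)⁻¹ w) = w := by simp
        rw [h4]; group
      · simp only [edgeAt, if_true] at he
        have h2 := hc a _ he hwc
        simp only [gval, if_true, edgeAt, act_true, letter]
        rw [h2]
    rw [cc_mul, ih, ← hw, h1, ← tot_mul]
    · congr 1
      rw [map_mul, Equiv.Perm.mul_apply, ← hw]; group
    · exact trv_loop hwc (Pth.single he)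
    · exact trv_loop hv hg

lemma taut_loop {o : Ω} (Fb : PiE f E o →* K) (c : α × Ω → K)
    (hc : ∀ b v, (b, v) ∈ E → v ∈ Comp f E o →
      c (b, v) = tot Fb ((trv f E o (f b v))⁻¹ * FreeGroup.of b * trv f E o v))
    {g : FreeGroup α} (hg : g ∈ PiE f E o) : cc f c g o = tot Fb g := by
  have h1 := taut_path Fb c hc (self_mem_Comp o) hg.1
  rw [hg.2, trv_self] at h1
  simpa using h1

/-- A tautological cochain which kills the relations is a cocycle on the positions of the
component. -/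
lemma taut_pos [NeZero ℓ] (hN : (N : ZMod ℓ) = 0) {o : Ω} (Fb : PiE f E o →* K)
    (c : α × Ω → K)
    (hc : ∀ b v, (b, v) ∈ E → v ∈ Comp f E o →
      c (b, v) = tot Fb ((trv f E o (f b v))⁻¹ * FreeGroup.of b * trv f E o v))
    (hF : ∀ y ∈ NnE f x N E o, tot Fb y = 1)
    {p : Ω × ZMod ℓ} (hp : p ∈ Pos f x N E) (hpc : p.1 ∈ Comp f E o) :
    pathVal f x c N p = 1 := by
  obtain ⟨v, i⟩ := p
  have h1 : Pth f E v (wd x N i) := Pth_wd N (fun k _ => hp.2 k)
  have h2 : FreeGroup.lift f (wd x N i) v = v := lift_wd_of_period hp.1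
  rw [pathVal_eq_cc, taut_path Fb c hc hpc h1, h2]
  apply hF
  obtain ⟨h3, h4⟩ := trv_spec hpc
  apply pos_mem_NnE hN h3
  rw [h4]; exact hp

/-- A path outside the component of `o`, where the cochain is trivial. -/
lemma pathVal_off {o : Ω} (c : α × Ω → K)
    (hc : ∀ b v, (b, v) ∈ E → v ∉ Comp f E o → c (b, v) = 1)
    {p : Ω × ZMod ℓ} (hp : p ∈ Pos f x N E) (hpc : p.1 ∉ Comp f E o) :
    pathVal f x c N p = 1 := by
  refine (pathVal_congr N p ?_).trans (pathVal_one (f := f) (x := x) (K := K) N p)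
  intro j _
  have h1 : Pth f E p.1 (wd x j p.2) := Pth_wd j (fun k _ => hp.2 k)
  have h2 : FreeGroup.lift f (wd x j p.2) p.1 ∉ Comp f E o := by
    rw [← Comp_path h1]; exact hpc
  have h3 := hp.2 j
  have h4 : (walkT f x ^ j) p = (FreeGroup.lift f (wd x j p.2) p.1, p.2 + j) :=
    walkT_pow f x j p.1 p.2
  rw [h4] at h3 ⊢
  obtain ⟨a, b⟩ : ∃ a, ∃ b, x (p.2 + j) = (a, b) := ⟨_, _, rfl⟩
  obtain ⟨b, hab⟩ := b
  simp only [stepE, edgeAt, hab] at h3 ⊢
  apply hc _ _ h3
  cases b
  · simp only [Bool.false_eq_true, if_false, act_false] at h3 ⊢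
    rw [Comp_edge h3]
    simpa using h2
  · simpa using h2

end Trans

end Pool.Agent.H44R2
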