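import Mathlib
import Pool.Agent.H44R2.Mark

/-!
# Splitting a marked complex along an edge
-/

namespace Pool.Agent.H44R2

open Monoid

variable {α Ω G : Type} [Group G] {ℓ : ℕ}

/-- A marking of the complex `(Ω, f, E)` at `o` by the group `G`: a surjection from the loops
whose kernel is generated by the cycles. -/
structure Mk (f : α → Equiv.Perm Ω) (x : ZMod ℓ → α × Bool) (N : ℕ) (E : Set (α × Ω)) (o : Ω)
    (χ : PiE f E o →* G) : Prop where
  surj : Function.Surjective χ
  ker : ∀ g : PiE f E o, χ g = 1 ↔ (g : FreeGroup α) ∈ NnE f x N E o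

variable {f : α → Equiv.Perm Ω} {x : ZMod ℓ → α × Bool} {N : ℕ} {E E' : Set (α × Ω)}

/-- The homomorphism on loops given by conjugation with a path. -/
def conjHom (f : α → Equiv.Perm Ω) {E E' : Set (α × Ω)} (h : E' ⊆ E) {o o' : Ω}
    {q : FreeGroup α} (hq : Pth f E o q) (hqo : FreeGroup.lift f q o = o') :
    PiE f E' o' →* PiE f E o where
  toFun g := ⟨q⁻¹ * g * q, conj_mem_PiE hq (by rw [hqo]; exact PiE_mono h _ g.2)⟩
  map_one' := by ext; simp
  map_mul' a b := by
    apply Subtype.ext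
    change q⁻¹ * ((a : FreeGroup α) * b) * q = (q⁻¹ * a * q) * (q⁻¹ * b * q)
    group

lemma conjHom_coe (h : E' ⊆ E) {o o' : Ω} {q : FreeGroup α} (hq : Pth f E o q)
    (hqo : FreeGroup.lift f q o = o') (g : PiE f E' o') :
    (conjHom f h hq hqo g : FreeGroup α) = q⁻¹ * g * q := rfl

/-- A homomorphism on loops killing the relations factors through a marking. -/
lemma Mk.factor {o : Ω} {χ : PiE f E o →* G} (hχ : Mk f x N E o χ) {K : Type} [Group K]
    (Φ : PiE f E o →* K) (hΦ : ∀ g : PiE f E o, (g : FreeGroup α) ∈ NnE f x N E o → Φ g = 1) :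
    ∃ Ψ : G →* K, ∀ g, Ψ (χ g) = Φ g := by
  have hle : χ.ker ≤ Φ.ker := fun g hg => hΦ g ((hχ.ker g).mp hg)
  refine ⟨(QuotientGroup.lift χ.ker Φ hle).comp
    (QuotientGroup.quotientKerEquivOfSurjective χ hχ.surj).symm.toMonoidHom, fun g => ?_⟩
  have h1 : (QuotientGroup.quotientKerEquivOfSurjective χ hχ.surj).symm (χ g) =
      (QuotientGroup.mk g : PiE f E o ⧸ χ.ker) := by
    rw [MulEquiv.symm_apply_eq]; rfl
  simp only [MonoidHom.comp_apply, MulEquiv.toMonoidHom_eq_coe, MonoidHom.coe_coe, h1]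
  rfl

/-- The homomorphism given by a cochain. -/
def ccHom (f : α → Equiv.Perm Ω) (E : Set (α × Ω)) (o : Ω) {K : Type} [Group K]
    (c : α × Ω → K) : PiE f E o →* K where
  toFun g := cc f c g o
  map_one' := cc_one f c o
  map_mul' a b := by
    change cc f c ((a : FreeGroup α) * b) o = _
    rw [cc_mul_loop c b.2.2]

lemma Mk.factor_cc {o : Ω} {χ : PiE f E o →* G} (hχ : Mk f x N E o χ) {K : Type} [Group K]
    (c : α × Ω → K) (hc : ∀ p ∈ Pos f x N E, pathVal f x c N p = 1) :
    ∃ Ψ : G →* K, ∀ g : PiE f E o, Ψ (χ g) = cc f c g o :=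
  hχ.factor (ccHom f E o c) (fun _ hg => cc_NnE hc hg)

/-- The quotient of the loops by the relations. -/
abbrev SQ (f : α → Equiv.Perm Ω) (x : ZMod ℓ → α × Bool) (N : ℕ) (E : Set (α × Ω)) (o : Ω) :
    Type :=
  (PiE f E o) ⧸ ((NnE f x N E o).subgroupOf (PiE f E o))

/-- The quotient map. -/
def sqMk (f : α → Equiv.Perm Ω) (x : ZMod ℓ → α × Bool) (N : ℕ) (E : Set (α × Ω)) (o : Ω) :
    PiE f E o →* SQ f x N E o := QuotientGroup.mk' _

lemma tot_sqMk {o : Ω} {g : FreeGroup α} (hg : g ∈ PiE f E o) :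
    tot (sqMk f x N E o) g = 1 ↔ g ∈ NnE f x N E o := by
  rw [tot_of_mem _ hg, sqMk, QuotientGroup.mk'_apply, QuotientGroup.eq_one_iff,
    Subgroup.mem_subgroupOf]

/-- Retraction: if the tautological cochain of a sub-complex extends to a cocycle then no new
relations appear. -/
lemma no_new_relations (h : E' ⊆ E) {o : Ω} (c : α × Ω → SQ f x N E' o)
    (hc : ∀ b v, (b, v) ∈ E' → v ∈ Comp f E' o →
      c (b, v) = tot (sqMk f x N E' o) ((trv f E' o (f b v))⁻¹ * FreeGroup.of b * trv f E' o v))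
    (hcoc : ∀ p ∈ Pos f x N E, pathVal f x c N p = 1) {g : FreeGroup α}
    (hg : g ∈ PiE f E' o) (hgN : g ∈ NnE f x N E o) : g ∈ NnE f x N E' o := by
  rw [← tot_sqMk hg, ← taut_loop _ c hc hg]
  exact cc_NnE hcoc hgN

section Loop

/-- Data for an edge `(a, v)` whose end points are connected by a path `δ` in the rest `E'`, such
that the relations crossing the edge amount to `(δ a)^m = 1`. -/
structure LoopEdge (f : α → Equiv.Perm Ω) (x : ZMod ℓ → α × Bool) (N : ℕ) (E E' : Set (α × Ω))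
    (a : α) (v : Ω) (δ : FreeGroup α) (m : ℕ) : Prop where
  edge : (a, v) ∈ E
  sub : E' ⊆ E
  rest : ∀ e ∈ E, e ≠ (a, v) → e ∈ E'
  notmem : (a, v) ∉ E'
  path : Pth f E' (f a v) δ
  fin : FreeGroup.lift f δ (f a v) = v
  rel : (δ * FreeGroup.of a) ^ m ∈ NnE f x N E v
  pos : ∀ (K : Type) [Group K] (c : α × Ω → K), (∀ p ∈ Pos f x N E', pathVal f x c N p = 1) →
    (cc f c (δ * FreeGroup.of a) v) ^ m = 1 → ∀ p ∈ Pos f x N E, pathVal f x c N p = 1

variable {a : α} {v : Ω} {δ : FreeGroup α} {m : ℕ}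

lemma LoopEdge.t_mem (h : LoopEdge f x N E E' a v δ m) : δ * FreeGroup.of a ∈ PiE f E v := by
  refine ⟨(Pth.of h.edge).trans' (by simp) (h.path.mono h.sub), ?_⟩
  rw [map_mul, Equiv.Perm.mul_apply]
  simpa using h.fin

lemma LoopEdge.head_mem (h : LoopEdge f x N E E' a v δ m) : f a v ∈ Comp f E' v := by
  refine ⟨δ⁻¹, h.path.inv' h.fin, ?_⟩
  rw [map_inv, Equiv.Perm.inv_eq_iff_eq]; exact h.fin.symm

lemma LoopEdge.comp (h : LoopEdge f x N E E' a v δ m) {b : α} {w : Ω} (he : (b, w) ∈ E) :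
    w ∈ Comp f E' v ↔ f b w ∈ Comp f E' v := by
  by_cases hb : (b, w) = (a, v)
  · obtain ⟨rfl, rfl⟩ := Prod.mk.injEq _ _ _ _ ▸ hb
    exact ⟨fun _ => h.head_mem, fun _ => self_mem_Comp _⟩
  · exact Comp_edge (h.rest _ he hb)

/-- The cochain extending a homomorphism on the loops of `E'`, with a prescribed value on `t`. -/
noncomputable def loopCoch (f : α → Equiv.Perm Ω) (E' : Set (α × Ω)) (a : α) (v : Ω)
    (δ : FreeGroup α) {K : Type} [Group K] (Fb : PiE f E' v →* K) (τ : K) : α × Ω → K := by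
  classical
  exact fun e => if e = (a, v) then (tot Fb (δ * trv f E' v (f a v)))⁻¹ * τ else
    if e.2 ∈ Comp f E' v then
      tot Fb ((trv f E' v (f e.1 e.2))⁻¹ * FreeGroup.of e.1 * trv f E' v e.2) else 1

lemma LoopEdge.coch_taut (h : LoopEdge f x N E E' a v δ m) {K : Type} [Group K]
    (Fb : PiE f E' v →* K) (τ : K) (b : α) (w : Ω) (he : (b, w) ∈ E') (hw : w ∈ Comp f E' v) :
    loopCoch f E' a v δ Fb τ (b, w) =
      tot Fb ((trv f E' v (f b w))⁻¹ * FreeGroup.of b * trv f E' v w) := by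
  unfold loopCoch
  rw [if_neg, if_pos hw]
  rintro heq
  exact h.notmem (heq ▸ he)

lemma LoopEdge.coch_t (h : LoopEdge f x N E E' a v δ m) {K : Type} [Group K]
    (Fb : PiE f E' v →* K) (τ : K) :
    cc f (loopCoch f E' a v δ Fb τ) (δ * FreeGroup.of a) v = τ := by
  rw [cc_mul, cc_of]
  have h1 := taut_path Fb _ (h.coch_taut Fb τ) h.head_mem h.path
  rw [h.fin, trv_self] at h1
  simp only [FreeGroup.lift_apply_of, inv_one, one_mul] at h1 ⊢
  rw [h1]
  unfold loopCoch
  rw [if_pos rfl]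
  group

lemma LoopEdge.coch_pos [NeZero ℓ] (hN : (N : ZMod ℓ) = 0) (h : LoopEdge f x N E E' a v δ m)
    {K : Type} [Group K]
    (Fb : PiE f E' v →* K) (hF : ∀ y ∈ NnE f x N E' v, tot Fb y = 1) (τ : K) (hτ : τ ^ m = 1) :
    ∀ p ∈ Pos f x N E, pathVal f x (loopCoch f E' a v δ Fb τ) N p = 1 := by
  apply h.pos
  · intro p hp
    by_cases hpc : p.1 ∈ Comp f E' v
    · exact taut_pos hN Fb _ (h.coch_taut Fb τ) hF hp hpc
    · apply pathVal_off _ _ hp hpc
      intro b w he hw
      unfold loopCoch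
      rw [if_neg, if_neg hw]
      intro heq
      exact h.notmem (heq ▸ he)
  · rw [h.coch_t]; exact hτ

/-- No new relations. -/
lemma LoopEdge.inj [NeZero ℓ] (hN : (N : ZMod ℓ) = 0) (h : LoopEdge f x N E E' a v δ m)
    {g : FreeGroup α} (hg : g ∈ PiE f E' v) (hgN : g ∈ NnE f x N E v) :
    g ∈ NnE f x N E' v := by
  refine no_new_relations h.sub (loopCoch f E' a v δ (sqMk f x N E' v) 1)
    (h.coch_taut _ _) (h.coch_pos hN _ ?_ 1 (one_pow m)) hg hgN
  intro y hy
  exact (tot_sqMk (NnE_le_PiE v hy)).mpr hy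

/-- Generation. -/
lemma LoopEdge.gen (h : LoopEdge f x N E E' a v δ m) (S : Subgroup (FreeGroup α))
    (hS : PiE f E' v ≤ S) (hδ : δ * FreeGroup.of a ∈ S) : PiE f E v ≤ S := by
  have hedge : ∀ b w, (b, w) ∈ E → w ∈ Comp f E' v →
      (trv f E' v (f b w))⁻¹ * FreeGroup.of b * trv f E' v w ∈ S := by
    intro b w he hw
    by_cases hb : (b, w) = (a, v)
    · obtain ⟨rfl, rfl⟩ := Prod.mk.injEq _ _ _ _ ▸ hb
      rw [trv_self, mul_one]
      have h1 := trv_loop h.head_mem h.path
      rw [h.fin, trv_self, inv_one, one_mul] at h1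
      have h2 := S.mul_mem (S.inv_mem (hS h1)) hδ
      have h3 : (δ * trv f E' w (f b w))⁻¹ * (δ * FreeGroup.of b) =
          (trv f E' w (f b w))⁻¹ * FreeGroup.of b := by group
      rwa [h3] at h2
    · have h1 := trv_loop hw (Pth.of (h.rest _ he hb))
      simp only [FreeGroup.lift_apply_of] at h1
      exact hS h1
  have hpath : ∀ w ∈ Comp f E' v, ∀ g, Pth f E w g → FreeGroup.lift f g w ∈ Comp f E' v ∧
      (trv f E' v (FreeGroup.lift f g w))⁻¹ * g * trv f E' v w ∈ S := by
    intro w hw g hg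
    induction hg with
    | one => simpa using hw
    | step p g hg he ih =>
      obtain ⟨ih1, ih2⟩ := ih
      set u := FreeGroup.lift f g w with hu
      have hstep : FreeGroup.lift f (letter p) u ∈ Comp f E' v ∧
          (trv f E' v (FreeGroup.lift f (letter p) u))⁻¹ * letter p * trv f E' v u ∈ S := by
        rw [lift_letter]
        obtain ⟨b, s⟩ := p
        cases s
        · simp only [edgeAt, Bool.false_eq_true, if_false, act_false] at he
          have h1 : (f b)⁻¹ u ∈ Comp f E' v := by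
            rw [h.comp he]; simpa using ih1
          have h2 := hedge b _ he h1
          have h3 : f b ((f b)⁻¹ u) = u := by simp
          rw [h3] at h2
          rw [act_false]
          refine ⟨h1, ?_⟩
          have h4 := S.inv_mem h2
          simp only [letter, Bool.false_eq_true, if_false]
          have h5 : ((trv f E' v u)⁻¹ * FreeGroup.of b * trv f E' v ((f b)⁻¹ u))⁻¹ =
              (trv f E' v ((f b)⁻¹ u))⁻¹ * (FreeGroup.of b)⁻¹ * trv f E' v u := by group
          rwa [h5] at h4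
        · simp only [edgeAt, if_true] at he
          rw [act_true]
          exact ⟨(h.comp he).mp ih1, hedge b _ he ih1⟩
      rw [map_mul, Equiv.Perm.mul_apply, ← hu]
      refine ⟨hstep.1, ?_⟩
      have h1 := S.mul_mem hstep.2 ih2
      have h2 : (trv f E' v (FreeGroup.lift f (letter p) u))⁻¹ * letter p * trv f E' v u *
          ((trv f E' v u)⁻¹ * g * trv f E' v w) =
          (trv f E' v (FreeGroup.lift f (letter p) u))⁻¹ * (letter p * g) * trv f E' v w := by
        group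
      rwa [h2] at h1
  intro g hg
  have h1 := (hpath v (self_mem_Comp v) g hg.1).2
  rw [hg.2, trv_self] at h1
  simpa using h1

/-- Removing a loop edge from a marked complex whose group is freely indecomposable and not
cyclic. -/
theorem LoopEdge.remove [NeZero ℓ] (hN : (N : ZMod ℓ) = 0) (h : LoopEdge f x N E E' a v δ m)
    {χ : PiE f E v →* G} (hχ : Mk f x N E v χ) (hcyc : ¬ IsCyclic G)
    (hind : ∀ (A B : Type) [Group A] [Group B], Nontrivial A → Nontrivial B →
      IsEmpty (G ≃* Coprod A B)) :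
    Mk f x N E' v (χ.comp (Subgroup.inclusion (PiE_mono h.sub v))) := by
  classical
  set χA : PiE f E' v →* G := χ.comp (Subgroup.inclusion (PiE_mono h.sub v)) with hχA
  set t : PiE f E v := ⟨δ * FreeGroup.of a, h.t_mem⟩ with ht
  set A := χA.range with hA
  set B := Subgroup.zpowers (χ t) with hB
  have htm : χ t ^ m = 1 := by
    rw [← map_pow, hχ.ker]
    exact h.rel
  have hkill : ∀ y ∈ NnE f x N E' v, tot χA y = 1 := by
    intro y hy
    rw [tot_of_mem _ (NnE_le_PiE v hy)]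
    change χ _ = 1
    rw [hχ.ker]
    exact NnE_mono h.sub v hy
  -- generation
  have hgen : A ⊔ B = ⊤ := by
    rw [eq_top_iff]
    intro y _
    obtain ⟨g, rfl⟩ := hχ.surj y
    have h1 := h.gen (Subgroup.map (PiE f E v).subtype (Subgroup.comap χ (A ⊔ B))) (by
        intro g hg
        refine ⟨⟨g, PiE_mono h.sub v hg⟩, ?_, rfl⟩
        exact Subgroup.mem_sup_left (⟨⟨g, hg⟩, rfl⟩ : _ ∈ χA.range)) (by
        refine ⟨t, ?_, rfl⟩
        exact Subgroup.mem_sup_right (Subgroup.mem_zpowers _))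
    obtain ⟨g', hg', hgg⟩ := h1 g.2
    have h2 : g' = g := Subtype.ext hgg
    rw [← h2]; exact hg'
  -- the splitting
  let Fb : PiE f E' v →* Coprod A B := (Coprod.inl (M := A) (N := B)).comp χA.rangeRestrict
  have hFb : ∀ y ∈ NnE f x N E' v, tot Fb y = 1 := by
    intro y hy
    have h1 := hkill y hy
    rw [tot_of_mem _ (NnE_le_PiE v hy)] at h1 ⊢
    have h2 : χA.rangeRestrict ⟨y, NnE_le_PiE v hy⟩ = 1 := Subtype.ext h1
    change Coprod.inl (χA.rangeRestrict ⟨y, NnE_le_PiE v hy⟩) = 1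
    rw [h2, map_one]
  let τ : Coprod A B := Coprod.inr ⟨χ t, Subgroup.mem_zpowers _⟩
  have hτ : τ ^ m = 1 := by
    change (Coprod.inr (M := A) (N := B) ⟨χ t, _⟩) ^ m = 1
    rw [← map_pow]
    have : (⟨χ t, Subgroup.mem_zpowers _⟩ : B) ^ m = 1 := Subtype.ext htm
    rw [this, map_one]
  obtain ⟨Φ, hΦ⟩ := hχ.factor_cc (loopCoch f E' a v δ Fb τ) (h.coch_pos hN Fb hFb τ hτ)
  have hiso : Nonempty (G ≃* Coprod A B) := by
    apply coprod_of_retraction A B Φ
    · rintro ⟨_, ⟨g, rfl⟩⟩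
      have h1 := hΦ (Subgroup.inclusion (PiE_mono h.sub v) g)
      change Φ (χ _) = _
      rw [h1]
      change cc f _ (g : FreeGroup α) v = _
      rw [taut_loop Fb _ (h.coch_taut Fb τ) g.2, tot_coe]
      rfl
    · rintro ⟨_, ⟨k, rfl⟩⟩
      change Φ (χ t ^ k) = _
      rw [map_zpow, hΦ t]
      change (cc f _ (δ * FreeGroup.of a) v) ^ k = _
      rw [h.coch_t]
      change (Coprod.inr (M := A) (N := B) ⟨χ t, _⟩) ^ k = _
      rw [← map_zpow]
      rfl
    · exact hgen
  have hBtriv : B = ⊥ := by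
    by_contra hB0
    have hB1 : Nontrivial B := (Subgroup.nontrivial_iff_ne_bot B).mpr hB0
    have hA1 : ¬ Nontrivial A := fun hA1 => (hind A B hA1 hB1).elim hiso.some
    have hA2 : A = ⊥ := by
      by_contra hne
      exact hA1 ((Subgroup.nontrivial_iff_ne_bot A).mpr hne)
    rw [hA2, bot_sup_eq] at hgen
    apply hcyc
    exact ⟨⟨χ t, fun y => by
      have : y ∈ B := by rw [hgen]; exact Subgroup.mem_top y
      exact this⟩⟩
  rw [hBtriv, sup_bot_eq] at hgen
  refine ⟨?_, ?_⟩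
  · rw [← MonoidHom.range_eq_top]; exact hgen
  · intro g
    constructor
    · intro hg
      exact h.inj hN g.2 ((hχ.ker _).mp hg)
    · intro hg
      have := hkill _ hg
      rwa [tot_coe] at this

end Loop

end Pool.Agent.H44R2
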