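import Mathlib
import Pool.Agent.H44R2.Split

/-!
# Splitting a marked complex along a separating edge
-/

namespace Pool.Agent.H44R2

open Monoid

variable {α Ω G : Type} [Group G] {ℓ : ℕ}

variable {f : α → Equiv.Perm Ω} {x : ZMod ℓ → α × Bool} {N : ℕ} {E E' : Set (α × Ω)}

lemma closed_path {U : Set Ω} (hU : ∀ b w, (b, w) ∈ E → (w ∈ U ↔ f b w ∈ U)) {v : Ω}
    {g : FreeGroup α} (hg : Pth f E v g) : v ∈ U ↔ FreeGroup.lift f g v ∈ U := by
  induction hg with
  | one => simp
  | step p g hg he ih =>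
    rw [ih, map_mul, Equiv.Perm.mul_apply, lift_letter]
    generalize FreeGroup.lift f g v = u at he
    obtain ⟨b, s⟩ := p
    cases s
    · simp only [edgeAt, Bool.false_eq_true, if_false, act_false] at he ⊢
      rw [hU _ _ he]; simp
    · simp only [edgeAt, if_true] at he
      rw [act_true]
      exact hU _ _ he

lemma pathVal_triv {K : Type} [Group K] {U : Set Ω}
    (hU : ∀ b w, (b, w) ∈ E → (w ∈ U ↔ f b w ∈ U)) (c : α × Ω → K)
    (hc : ∀ b w, (b, w) ∈ E → w ∈ U → c (b, w) = 1)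
    {p : Ω × ZMod ℓ} (hp : p ∈ Pos f x N E) (hpc : p.1 ∈ U) :
    pathVal f x c N p = 1 := by
  refine (pathVal_congr N p ?_).trans (pathVal_one (f := f) (x := x) (K := K) N p)
  intro j _
  have h1 : Pth f E p.1 (wd x j p.2) := Pth_wd j (fun k _ => hp.2 k)
  have h2 : FreeGroup.lift f (wd x j p.2) p.1 ∈ U := by
    rw [← closed_path hU h1]; exact hpc
  have h3 := hp.2 j
  have h4 : (walkT f x ^ j) p = (FreeGroup.lift f (wd x j p.2) p.1, p.2 + j) :=
    walkT_pow f x j p.1 p.2
  rw [h4] at h3 ⊢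
  obtain ⟨a, b, hab⟩ : ∃ a, ∃ b, x (p.2 + j) = (a, b) := ⟨_, _, rfl⟩
  simp only [stepE, edgeAt, hab] at h3 ⊢
  apply hc _ _ h3
  cases b
  · simp only [Bool.false_eq_true, if_false, act_false] at h3 ⊢
    rw [hU _ _ h3]
    simpa using h2
  · simpa using h2

/-- Data for an uncovered edge `(a, v)` whose end points are not connected in the rest `E'`. -/
structure SepEdge (f : α → Equiv.Perm Ω) (x : ZMod ℓ → α × Bool) (N : ℕ) (E E' : Set (α × Ω))
    (a : α) (v : Ω) : Prop where
  edge : (a, v) ∈ E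
  sub : E' ⊆ E
  rest : ∀ e ∈ E, e ≠ (a, v) → e ∈ E'
  notmem : (a, v) ∉ E'
  sep : f a v ∉ Comp f E' v
  pos : Pos f x N E ⊆ Pos f x N E'

variable {a : α} {v : Ω}

lemma SepEdge.disj (h : SepEdge f x N E E' a v) {w : Ω} (h1 : w ∈ Comp f E' (f a v))
    (h2 : w ∈ Comp f E' v) : False := by
  obtain ⟨g, hg, hgw⟩ := h1
  obtain ⟨g', hg', hgw'⟩ := h2
  apply h.sep
  refine ⟨g⁻¹ * g', hg'.trans' hgw' (hg.inv' hgw), ?_⟩
  rw [map_mul, Equiv.Perm.mul_apply, hgw', map_inv, Equiv.Perm.inv_eq_iff_eq]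
  exact hgw.symm

/-- The cochain given by two homomorphisms. -/
noncomputable def sepCoch (f : α → Equiv.Perm Ω) (E' : Set (α × Ω)) (a : α) (v : Ω)
    {K : Type} [Group K] (F0 : PiE f E' v →* K) (F1 : PiE f E' (f a v) →* K) : α × Ω → K := by
  classical
  exact fun e => if e = (a, v) then 1 else
    if e.2 ∈ Comp f E' v then
      tot F0 ((trv f E' v (f e.1 e.2))⁻¹ * FreeGroup.of e.1 * trv f E' v e.2) else
    if e.2 ∈ Comp f E' (f a v) then
      tot F1 ((trv f E' (f a v) (f e.1 e.2))⁻¹ * FreeGroup.of e.1 * trv f E' (f a v) e.2) else 1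

variable {K : Type} [Group K]

lemma SepEdge.coch0 (h : SepEdge f x N E E' a v)
    (F0 : PiE f E' v →* K) (F1 : PiE f E' (f a v) →* K) (b : α) (w : Ω) (he : (b, w) ∈ E')
    (hw : w ∈ Comp f E' v) : sepCoch f E' a v F0 F1 (b, w) =
      tot F0 ((trv f E' v (f b w))⁻¹ * FreeGroup.of b * trv f E' v w) := by
  unfold sepCoch
  rw [if_neg, if_pos hw]
  rintro heq
  exact h.notmem (heq ▸ he)

lemma SepEdge.coch1 (h : SepEdge f x N E E' a v)
    (F0 : PiE f E' v →* K) (F1 : PiE f E' (f a v) →* K) (b : α) (w : Ω) (he : (b, w) ∈ E')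
    (hw : w ∈ Comp f E' (f a v)) : sepCoch f E' a v F0 F1 (b, w) =
      tot F1 ((trv f E' (f a v) (f b w))⁻¹ * FreeGroup.of b * trv f E' (f a v) w) := by
  unfold sepCoch
  rw [if_neg, if_neg, if_pos hw]
  · intro h2; exact h.disj hw h2
  · rintro heq
    exact h.notmem (heq ▸ he)

lemma SepEdge.coch_e (F0 : PiE f E' v →* K) (F1 : PiE f E' (f a v) →* K) :
    sepCoch f E' a v F0 F1 (a, v) = 1 := by
  unfold sepCoch
  rw [if_pos rfl]

lemma SepEdge.coch_pos [NeZero ℓ] (hN : (N : ZMod ℓ) = 0) (h : SepEdge f x N E E' a v)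
    (F0 : PiE f E' v →* K) (F1 : PiE f E' (f a v) →* K)
    (h0 : ∀ y ∈ NnE f x N E' v, tot F0 y = 1)
    (h1 : ∀ y ∈ NnE f x N E' (f a v), tot F1 y = 1) :
    ∀ p ∈ Pos f x N E, pathVal f x (sepCoch f E' a v F0 F1) N p = 1 := by
  intro p hp
  have hp' := h.pos hp
  by_cases hpc : p.1 ∈ Comp f E' v
  · exact taut_pos hN F0 _ (h.coch0 F0 F1) h0 hp' hpc
  by_cases hpc' : p.1 ∈ Comp f E' (f a v)
  · exact taut_pos hN F1 _ (h.coch1 F0 F1) h1 hp' hpc'
  apply pathVal_triv (U := {w | w ∉ Comp f E' v ∧ w ∉ Comp f E' (f a v)}) _ _ _ hp' ⟨hpc, hpc'⟩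
  · intro b w he
    simp only [Set.mem_setOf_eq]
    rw [Comp_edge (o := v) he, Comp_edge (o := f a v) he]
  · rintro b w he ⟨hw, hw'⟩
    unfold sepCoch
    rw [if_neg, if_neg hw, if_neg hw']
    intro heq
    exact h.notmem (heq ▸ he)

lemma SepEdge.inj0 [NeZero ℓ] (hN : (N : ZMod ℓ) = 0) (h : SepEdge f x N E E' a v)
    {g : FreeGroup α} (hg : g ∈ PiE f E' v) (hgN : g ∈ NnE f x N E v) :
    g ∈ NnE f x N E' v := by
  refine no_new_relations h.sub (sepCoch f E' a v (sqMk f x N E' v) 1)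
    (h.coch0 _ _) (h.coch_pos hN _ _ ?_ ?_) hg hgN
  · intro y hy
    exact (tot_sqMk (NnE_le_PiE v hy)).mpr hy
  · intro y hy
    rw [tot_of_mem _ (NnE_le_PiE _ hy)]; rfl

lemma SepEdge.inj1 [NeZero ℓ] (hN : (N : ZMod ℓ) = 0) (h : SepEdge f x N E E' a v)
    {g : FreeGroup α} (hg : g ∈ PiE f E' (f a v)) (hgN : g ∈ NnE f x N E (f a v)) :
    g ∈ NnE f x N E' (f a v) := by
  refine no_new_relations h.sub (sepCoch f E' a v 1 (sqMk f x N E' (f a v)))
    (h.coch1 _ _) (h.coch_pos hN _ _ ?_ ?_) hg hgN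
  · intro y hy
    rw [tot_of_mem _ (NnE_le_PiE _ hy)]; rfl
  · intro y hy
    exact (tot_sqMk (NnE_le_PiE _ hy)).mpr hy

/-- Generation. -/
lemma SepEdge.gen (h : SepEdge f x N E E' a v) (S : Subgroup (FreeGroup α))
    (h0 : PiE f E' v ≤ S)
    (h1 : ∀ g ∈ PiE f E' (f a v), (FreeGroup.of a)⁻¹ * g * FreeGroup.of a ∈ S) :
    PiE f E v ≤ S := by
  classical
  let P : Ω → FreeGroup α := fun w => if w ∈ Comp f E' v then trv f E' v w else
    trv f E' (f a v) w * FreeGroup.of a
  have hP0 : ∀ w, w ∈ Comp f E' v → P w = trv f E' v w := fun w hw => if_pos hw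
  have hP1 : ∀ w, w ∈ Comp f E' (f a v) → P w = trv f E' (f a v) w * FreeGroup.of a :=
    fun w hw => if_neg (fun h2 => h.disj hw h2)
  let U : Set Ω := Comp f E' v ∪ Comp f E' (f a v)
  have hU : ∀ b w, (b, w) ∈ E → (w ∈ U ↔ f b w ∈ U) := by
    intro b w he
    by_cases hb : (b, w) = (a, v)
    · obtain ⟨rfl, rfl⟩ := Prod.mk.injEq _ _ _ _ ▸ hb
      exact ⟨fun _ => Or.inr (self_mem_Comp _), fun _ => Or.inl (self_mem_Comp _)⟩
    · have he' := h.rest _ he hb
      simp only [U, Set.mem_union]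
      rw [Comp_edge (o := v) he', Comp_edge (o := f a v) he']
  have hedge : ∀ b w, (b, w) ∈ E → w ∈ U → (P (f b w))⁻¹ * FreeGroup.of b * P w ∈ S := by
    intro b w he hw
    by_cases hb : (b, w) = (a, v)
    · obtain ⟨rfl, rfl⟩ := Prod.mk.injEq _ _ _ _ ▸ hb
      rw [hP0 w (self_mem_Comp _), hP1 _ (self_mem_Comp _), trv_self, trv_self]
      simpa using S.one_mem
    · have he' := h.rest _ he hb
      rcases hw with hw | hw
      · rw [hP0 w hw, hP0 _ ((Comp_edge he').mp hw)]
        have h2 := trv_loop hw (Pth.of he')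
        simp only [FreeGroup.lift_apply_of] at h2
        exact h0 h2
      · rw [hP1 w hw, hP1 _ ((Comp_edge he').mp hw)]
        have h2 := trv_loop hw (Pth.of he')
        simp only [FreeGroup.lift_apply_of] at h2
        have h3 := h1 _ h2
        have h4 : (trv f E' (f a v) (f b w) * FreeGroup.of a)⁻¹ * FreeGroup.of b *
            (trv f E' (f a v) w * FreeGroup.of a) = (FreeGroup.of a)⁻¹ *
            ((trv f E' (f a v) (f b w))⁻¹ * FreeGroup.of b * trv f E' (f a v) w) *
            FreeGroup.of a := by group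
        rwa [h4]
  have hpath : ∀ w ∈ U, ∀ g, Pth f E w g → FreeGroup.lift f g w ∈ U ∧
      (P (FreeGroup.lift f g w))⁻¹ * g * P w ∈ S := by
    intro w hw g hg
    induction hg with
    | one => simpa using hw
    | step p g hg he ih =>
      obtain ⟨ih1, ih2⟩ := ih
      set u := FreeGroup.lift f g w with hu
      have hstep : FreeGroup.lift f (letter p) u ∈ U ∧
          (P (FreeGroup.lift f (letter p) u))⁻¹ * letter p * P u ∈ S := by
        rw [lift_letter]
        obtain ⟨b, s⟩ := p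
        cases s
        · simp only [edgeAt, Bool.false_eq_true, if_false, act_false] at he
          have h1 : (f b)⁻¹ u ∈ U := by
            rw [hU _ _ he]; simpa using ih1
          have h2 := hedge b _ he h1
          have h3 : f b ((f b)⁻¹ u) = u := by simp
          rw [h3] at h2
          rw [act_false]
          refine ⟨h1, ?_⟩
          have h4 := S.inv_mem h2
          simp only [letter, Bool.false_eq_true, if_false]
          have h5 : ((P u)⁻¹ * FreeGroup.of b * P ((f b)⁻¹ u))⁻¹ =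
              (P ((f b)⁻¹ u))⁻¹ * (FreeGroup.of b)⁻¹ * P u := by group
          rwa [h5] at h4
        · simp only [edgeAt, if_true] at he
          rw [act_true]
          exact ⟨(hU _ _ he).mp ih1, hedge b _ he ih1⟩
      rw [map_mul, Equiv.Perm.mul_apply, ← hu]
      refine ⟨hstep.1, ?_⟩
      have h1 := S.mul_mem hstep.2 ih2
      have h2 : (P (FreeGroup.lift f (letter p) u))⁻¹ * letter p * P u * ((P u)⁻¹ * g * P w) =
          (P (FreeGroup.lift f (letter p) u))⁻¹ * (letter p * g) * P w := by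
        group
      rwa [h2] at h1
  intro g hg
  have h2 := (hpath v (Or.inl (self_mem_Comp v)) g hg.1).2
  rw [hg.2, hP0 v (self_mem_Comp v), trv_self] at h2
  simpa using h2

/-- Removing a separating edge from a marked complex whose group is freely indecomposable. -/
theorem SepEdge.remove [NeZero ℓ] (hN : (N : ZMod ℓ) = 0) (h : SepEdge f x N E E' a v)
    {χ : PiE f E v →* G} (hχ : Mk f x N E v χ)
    (hind : ∀ (A B : Type) [Group A] [Group B], Nontrivial A → Nontrivial B →
      IsEmpty (G ≃* Coprod A B)) :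
    Mk f x N E' v (χ.comp (Subgroup.inclusion (PiE_mono h.sub v))) ∨
    Mk f x N E' (f a v) (χ.comp (conjHom f h.sub (Pth.of h.edge) (by simp))) := by
  classical
  set χA : PiE f E' v →* G := χ.comp (Subgroup.inclusion (PiE_mono h.sub v)) with hχA
  set χB : PiE f E' (f a v) →* G := χ.comp (conjHom f h.sub (Pth.of h.edge) (by simp)) with hχB
  set A := χA.range with hA
  set B := χB.range with hB
  have hkillA : ∀ y ∈ NnE f x N E' v, tot χA y = 1 := by
    intro y hy
    rw [tot_of_mem _ (NnE_le_PiE v hy)]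
    change χ _ = 1
    rw [hχ.ker]
    exact NnE_mono h.sub v hy
  have hkillB : ∀ y ∈ NnE f x N E' (f a v), tot χB y = 1 := by
    intro y hy
    rw [tot_of_mem _ (NnE_le_PiE _ hy)]
    change χ _ = 1
    rw [hχ.ker, conjHom_coe]
    apply conj_mem_NnE (Pth.of h.edge)
    simp only [FreeGroup.lift_apply_of]
    exact NnE_mono h.sub _ hy
  -- generation
  have hgen : A ⊔ B = ⊤ := by
    rw [eq_top_iff]
    intro y _
    obtain ⟨g, rfl⟩ := hχ.surj y
    have h1 := h.gen (Subgroup.map (PiE f E v).subtype (Subgroup.comap χ (A ⊔ B))) (by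
        intro g hg
        refine ⟨⟨g, PiE_mono h.sub v hg⟩, ?_, rfl⟩
        exact Subgroup.mem_sup_left (⟨⟨g, hg⟩, rfl⟩ : _ ∈ χA.range)) (by
        intro g hg
        refine ⟨conjHom f h.sub (Pth.of h.edge) (by simp) ⟨g, hg⟩, ?_, rfl⟩
        exact Subgroup.mem_sup_right (⟨⟨g, hg⟩, rfl⟩ : _ ∈ χB.range))
    obtain ⟨g', hg', hgg⟩ := h1 g.2
    have h2 : g' = g := Subtype.ext hgg
    rw [← h2]; exact hg'
  -- the splitting
  let F0 : PiE f E' v →* Coprod A B := (Coprod.inl (M := A) (N := B)).comp χA.rangeRestrict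
  let F1 : PiE f E' (f a v) →* Coprod A B :=
    (Coprod.inr (M := A) (N := B)).comp χB.rangeRestrict
  have hF0 : ∀ y ∈ NnE f x N E' v, tot F0 y = 1 := by
    intro y hy
    have h1 := hkillA y hy
    rw [tot_of_mem _ (NnE_le_PiE v hy)] at h1 ⊢
    have h2 : χA.rangeRestrict ⟨y, NnE_le_PiE v hy⟩ = 1 := Subtype.ext h1
    change Coprod.inl (χA.rangeRestrict ⟨y, NnE_le_PiE v hy⟩) = 1
    rw [h2, map_one]
  have hF1 : ∀ y ∈ NnE f x N E' (f a v), tot F1 y = 1 := by
    intro y hy
    have h1 := hkillB y hy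
    rw [tot_of_mem _ (NnE_le_PiE _ hy)] at h1 ⊢
    have h2 : χB.rangeRestrict ⟨y, NnE_le_PiE _ hy⟩ = 1 := Subtype.ext h1
    change Coprod.inr (χB.rangeRestrict ⟨y, NnE_le_PiE _ hy⟩) = 1
    rw [h2, map_one]
  obtain ⟨Φ, hΦ⟩ := hχ.factor_cc (sepCoch f E' a v F0 F1) (h.coch_pos hN F0 F1 hF0 hF1)
  have hiso : Nonempty (G ≃* Coprod A B) := by
    apply coprod_of_retraction A B Φ
    · rintro ⟨_, ⟨g, rfl⟩⟩
      have h1 := hΦ (Subgroup.inclusion (PiE_mono h.sub v) g)
      change Φ (χ _) = _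
      rw [h1]
      change cc f _ (g : FreeGroup α) v = _
      rw [taut_loop F0 _ (h.coch0 F0 F1) g.2, tot_coe]
      rfl
    · rintro ⟨_, ⟨g, rfl⟩⟩
      have h1 := hΦ (conjHom f h.sub (Pth.of h.edge) (by simp) g)
      change Φ (χ _) = _
      rw [h1, conjHom_coe]
      have h2 : cc f (sepCoch f E' a v F0 F1) (FreeGroup.of a) v = 1 := by
        rw [cc_of]; exact SepEdge.coch_e F0 F1
      have h3 : cc f (sepCoch f E' a v F0 F1) (FreeGroup.of a)⁻¹ (f a v) = 1 := by
        rw [cc_inv]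
        simp only [map_inv, FreeGroup.lift_apply_of]
        have : (f a)⁻¹ (f a v) = v := by simp
        rw [this, h2, inv_one]
      rw [cc_mul, cc_mul, h2]
      simp only [FreeGroup.lift_apply_of]
      have h4 : FreeGroup.lift f (g : FreeGroup α) (f a v) = f a v := g.2.2
      rw [h4, h3, taut_loop F1 _ (h.coch1 F0 F1) g.2, tot_coe, one_mul, mul_one]
      rfl
    · exact hgen
  by_cases hB0 : B = ⊥
  · left
    rw [hB0, sup_bot_eq] at hgen
    refine ⟨?_, ?_⟩
    · rw [← MonoidHom.range_eq_top]; exact hgen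
    · intro g
      constructor
      · intro hg
        exact h.inj0 hN g.2 ((hχ.ker _).mp hg)
      · intro hg
        have := hkillA _ hg
        rwa [tot_coe] at this
  · right
    have hB1 : Nontrivial B := (Subgroup.nontrivial_iff_ne_bot B).mpr hB0
    have hA1 : ¬ Nontrivial A := fun hA1 => (hind A B hA1 hB1).elim hiso.some
    have hA2 : A = ⊥ := by
      by_contra hne
      exact hA1 ((Subgroup.nontrivial_iff_ne_bot A).mpr hne)
    rw [hA2, bot_sup_eq] at hgen
    refine ⟨?_, ?_⟩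
    · rw [← MonoidHom.range_eq_top]; exact hgen
    · intro g
      constructor
      · intro hg
        apply h.inj1 hN g.2
        have h1 := (hχ.ker _).mp hg
        rw [conjHom_coe] at h1
        have h2 := conj_mem_NnE' (Pth.of h.edge) h1
        simp only [FreeGroup.lift_apply_of] at h2
        have h3 : FreeGroup.of a * ((FreeGroup.of a)⁻¹ * (g : FreeGroup α) * FreeGroup.of a) *
            (FreeGroup.of a)⁻¹ = g := by group
        rwa [h3] at h2
      · intro hg
        have := hkillB _ hg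
        rwa [tot_coe] at this

end Pool.Agent.H44R2
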