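import Mathlib
import Pool.Agent.H44R2.Sep

/-!
# Removing edges crossed at most once
-/

namespace Pool.Agent.H44R2

open Monoid

variable {α Ω G : Type} [Group G] {ℓ : ℕ}

variable {f : α → Equiv.Perm Ω} {x : ZMod ℓ → α × Bool} {N : ℕ} {E E' : Set (α × Ω)}

lemma wd_mul_period (i : ZMod ℓ) {D : ℕ} (hD : (D : ZMod ℓ) = 0) (m : ℕ) :
    wd x (m * D) i = (wd x D i) ^ m := by
  induction m with
  | zero => simp [wd_zero]
  | succ m ih =>
    rw [add_mul, one_mul, wd_add, hD, add_zero, ih, pow_succ]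

/-- An edge covered exactly once is a loop edge. -/
theorem loopEdge_of_once [NeZero ℓ] (hN0 : 0 < N) (hN : (N : ZMod ℓ) = 0) {a : α} {v : Ω}
    {p₀ : Ω × ZMod ℓ} (hp₀ : p₀ ∈ Pos f x N E) (hstep₀ : stepE f x p₀ = (a, v))
    (huniq : ∀ q ∈ Pos f x N E, stepE f x q = (a, v) → q = p₀) :
    ∃ δ m, LoopEdge f x N E (E \ {(a, v)}) a v δ m := by
  classical
  set D := Function.minimalPeriod (walkT f x) p₀ with hD
  have hper : Function.IsPeriodicPt (walkT f x) N p₀ := by
    have := hp₀.1
    rw [Function.IsPeriodicPt, Function.IsFixedPt]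
    rw [← Equiv.Perm.iterate_eq_pow] at this
    exact this
  have hDN : D ∣ N := hper.minimalPeriod_dvd
  have hDpos : 0 < D := Nat.pos_of_dvd_of_pos hDN hN0
  have hDp : (walkT f x ^ D) p₀ = p₀ := by
    rw [← Equiv.Perm.iterate_eq_pow]
    exact Function.iterate_minimalPeriod
  have hDmin : ∀ j, 0 < j → j < D → (walkT f x ^ j) p₀ ≠ p₀ := by
    intro j hj hjD hcon
    have : Function.IsPeriodicPt (walkT f x) j p₀ := by
      rw [Function.IsPeriodicPt, Function.IsFixedPt, Equiv.Perm.iterate_eq_pow]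
      exact hcon
    have h2 := this.minimalPeriod_le hj
    omega
  have hDℓ : (D : ZMod ℓ) = 0 := by
    have h1 := congrArg Prod.snd hDp
    rw [walkT_pow_snd] at h1
    have := congrArg (fun t => t - p₀.2) h1
    simpa using this
  obtain ⟨m, hm⟩ := hDN
  have hND : N = m * D := by rw [hm]; ring
  have hstep : ∀ j, 0 < j → j < D → stepE f x ((walkT f x ^ j) p₀) ≠ (a, v) := by
    intro j hj hjD hcon
    exact hDmin j hj hjD (huniq _ (Pos_walk hp₀ j) hcon)
  obtain ⟨D', hD'⟩ : ∃ D', D = D' + 1 := ⟨D - 1, by omega⟩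
  obtain ⟨v₀, i₀⟩ := p₀
  set η := wd x D' (i₀ + 1) with hη
  have hw₀ : wd x D i₀ = η * letter (x i₀) := by rw [hD', wd_succ']
  have hηpath : Pth f (E \ {(a, v)}) (act f (x i₀) v₀) η := by
    apply Pth_wd
    intro k hk
    have h1 : (walkT f x ^ k) (act f (x i₀) v₀, i₀ + 1) = (walkT f x ^ (k + 1)) (v₀, i₀) := by
      rw [pow_succ, Equiv.Perm.mul_apply]; rfl
    rw [h1]
    exact ⟨hp₀.2 _, hstep _ (by omega) (by omega)⟩
  have hηfin : FreeGroup.lift f η (act f (x i₀) v₀) = v₀ := by
    have h1 : FreeGroup.lift f (wd x D i₀) v₀ = v₀ := lift_wd_of_period hDp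
    rw [hw₀, map_mul, Equiv.Perm.mul_apply, lift_letter] at h1
    exact h1
  have hedge : (a, v) ∈ E := by
    rw [← hstep₀]; exact hp₀.2 0
  have hpathN : ∀ (K : Type) [Group K] (c : α × Ω → K),
      pathVal f x c N (v₀, i₀) = (cc f c (wd x D i₀) v₀) ^ m := by
    intro K _ c
    rw [hND, pathVal_mul c hDp, pathVal_eq_cc]
  have hwN : wd x N i₀ = (wd x D i₀) ^ m := by rw [hND, wd_mul_period i₀ hDℓ]
  -- cocycles
  have hposgen : ∀ (K : Type) [Group K] (c : α × Ω → K),
      (∀ p ∈ Pos f x N (E \ {(a, v)}), pathVal f x c N p = 1) →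
      (cc f c (wd x D i₀) v₀) ^ m = 1 → ∀ p ∈ Pos f x N E, pathVal f x c N p = 1 := by
    intro K _ c hc hcm p hp
    by_cases hpo : ∃ k : ℕ, p = (walkT f x ^ k) (v₀, i₀)
    · obtain ⟨k, rfl⟩ := hpo
      apply pathVal_rot_pow _ hp₀.1
      rw [hpathN]; exact hcm
    · apply hc
      refine ⟨hp.1, fun j => ⟨hp.2 j, ?_⟩⟩
      intro hcon
      have h1 := huniq _ (Pos_walk hp j) hcon
      apply hpo
      refine ⟨N * (j + 1) - j, ?_⟩
      have hle : j ≤ N * (j + 1) := by nlinarith
      rw [← h1, ← Equiv.Perm.mul_apply, ← pow_add,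
        show N * (j + 1) - j + j = N * (j + 1) by omega, pow_mul]
      have h3 : ∀ k : ℕ, ((walkT f x ^ N) ^ k) p = p := by
        intro k
        induction k with
        | zero => simp
        | succ k ihk => rw [pow_succ, Equiv.Perm.mul_apply, hp.1, ihk]
      exact (h3 _).symm
  rcases hx : x i₀ with ⟨a', s⟩
  rw [hx] at hηpath hηfin hw₀
  simp only [stepE, hx, edgeAt, Prod.mk.injEq] at hstep₀
  obtain ⟨rfl, hv⟩ := hstep₀
  cases s
  · -- negative crossing
    simp only [Bool.false_eq_true, if_false] at hv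
    rw [act_false] at hηpath hηfin hv
    have hv₀ : v₀ = f a' v := by rw [← hv]; simp
    rw [hv] at hηpath hηfin
    simp only [letter, Bool.false_eq_true, if_false] at hw₀
    refine ⟨η⁻¹, m, ?_⟩
    refine ⟨hedge, Set.sdiff_subset, fun e he hne => ⟨he, hne⟩, fun h => h.2 rfl, ?_, ?_, ?_, ?_⟩
    · rw [← hv₀]; exact hηpath.inv' hηfin
    · rw [map_inv, Equiv.Perm.inv_eq_iff_eq, ← hv₀]; exact hηfin.symm
    · have h1 := pos_mem_NnE hN (Pth.of hedge) (i := i₀) (x := x) (by
        simp only [FreeGroup.lift_apply_of]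
        rw [← hv₀]; exact hp₀)
      rw [hwN, hw₀] at h1
      have h2 := Subgroup.inv_mem _ h1
      have h3 : ((FreeGroup.of a')⁻¹ * (η * (FreeGroup.of a')⁻¹) ^ m * FreeGroup.of a')⁻¹ =
          (η⁻¹ * FreeGroup.of a') ^ m := by
        have h4 : (η * (FreeGroup.of a')⁻¹) = FreeGroup.of a' * (η⁻¹ * FreeGroup.of a')⁻¹ *
            (FreeGroup.of a')⁻¹ := by group
        rw [h4, conj_pow, inv_pow]; group
      rwa [h3] at h2
    · intro K _ c hc hcm
      apply hposgen K c hc
      rw [hw₀, cc_mul, cc_inv, cc_of]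
      rw [cc_mul, cc_inv, cc_of] at hcm
      simp only [map_inv, FreeGroup.lift_apply_of] at hcm ⊢
      have h1 : (FreeGroup.lift f η)⁻¹ (f a' v) = v := by
        rw [Equiv.Perm.inv_eq_iff_eq, ← hv₀]; exact hηfin.symm
      rw [h1] at hcm
      rw [hv]
      generalize cc f c η v = X at hcm ⊢
      generalize c (a', v) = Y at hcm ⊢
      have h4 : X * Y⁻¹ = X * (X⁻¹ * Y)⁻¹ * X⁻¹ := by group
      rw [h4, conj_pow, inv_pow, hcm]; group
  · -- positive crossing
    simp only [if_true] at hv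
    rw [act_true] at hηpath hηfin
    subst hv
    simp only [letter, if_true] at hw₀
    refine ⟨η, m, ?_⟩
    refine ⟨hedge, Set.sdiff_subset, fun e he hne => ⟨he, hne⟩, fun h => h.2 rfl, hηpath, hηfin,
      ?_, ?_⟩
    · have h1 := pos_mem_NnE hN (o := v₀) (g := 1) (Pth.one) (i := i₀) (x := x) (by
        simpa using hp₀)
      rw [hwN, hw₀] at h1
      simpa using h1
    · intro K _ c hc hcm
      apply hposgen K c hc
      rw [hw₀]; exact hcm

/-- An uncovered edge whose end points are connected in the rest is a loop edge. -/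
theorem loopEdge_of_uncovered {a : α} {v : Ω} (he : (a, v) ∈ E)
    (hunc : ∀ q ∈ Pos f x N E, stepE f x q ≠ (a, v))
    (hconn : f a v ∈ Comp f (E \ {(a, v)}) v) :
    ∃ δ m, LoopEdge f x N E (E \ {(a, v)}) a v δ m := by
  obtain ⟨g, hg, hgv⟩ := hconn
  refine ⟨g⁻¹, 0, he, Set.sdiff_subset, fun e he hne => ⟨he, hne⟩, fun h => h.2 rfl,
    hg.inv' hgv, ?_, ?_, ?_⟩
  · rw [map_inv, Equiv.Perm.inv_eq_iff_eq]; exact hgv.symm
  · rw [pow_zero]; exact Subgroup.one_mem _
  · intro K _ c hc _ p hp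
    apply hc
    exact ⟨hp.1, fun k => ⟨hp.2 k, hunc _ (Pos_walk hp k)⟩⟩

/-- Base change of a marking. -/
theorem Mk.base {o : Ω} {χ : PiE f E o →* G} (hχ : Mk f x N E o χ) {o' : Ω}
    {q : FreeGroup α} (hq : Pth f E o q) (hqo : FreeGroup.lift f q o = o') :
    Mk f x N E o' (χ.comp (conjHom f subset_rfl hq hqo)) := by
  subst hqo
  refine ⟨?_, ?_⟩
  · intro y
    obtain ⟨g, rfl⟩ := hχ.surj y
    refine ⟨⟨q * g * q⁻¹, conj_mem_PiE' hq g.2⟩, ?_⟩
    change χ _ = χ g
    congr 1
    apply Subtype.ext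
    rw [conjHom_coe]
    group
  · intro g
    change χ _ = 1 ↔ _
    rw [hχ.ker, conjHom_coe]
    constructor
    · intro h
      have h1 := conj_mem_NnE' hq h
      have h2 : q * (q⁻¹ * (g : FreeGroup α) * q) * q⁻¹ = g := by group
      rwa [h2] at h1
    · intro h
      exact conj_mem_NnE hq h

lemma Pth_off {o : Ω} {a : α} {v : Ω} (hv : v ∉ Comp f E o) {g : FreeGroup α}
    (hg : Pth f E o g) : Pth f (E \ {(a, v)}) o g := by
  induction hg with
  | one => exact Pth.one
  | step p g hg he ih =>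
    refine Pth.step p g ih ⟨he, ?_⟩
    intro heq
    apply hv
    have h1 : FreeGroup.lift f g o ∈ Comp f E o := ⟨g, hg, rfl⟩
    obtain ⟨b, s⟩ := p
    simp only [edgeAt, Set.mem_singleton_iff, Prod.mk.injEq] at heq
    cases s
    · simp only [edgeAt, Bool.false_eq_true, if_false] at heq he
      rw [← heq.2]
      rw [Comp_edge he, act_false]
      simpa using h1
    · simp only [if_true] at heq
      rw [← heq.2]; exact h1

/-- Removing an edge outside the component of the base point. -/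
theorem Mk.off {o : Ω} {χ : PiE f E o →* G} (hχ : Mk f x N E o χ) {a : α} {v : Ω}
    (hv : v ∉ Comp f E o) :
    Mk f x N (E \ {(a, v)}) o
      (χ.comp (conjHom f Set.sdiff_subset (q := 1) Pth.one (by simp))) := by
  refine ⟨?_, ?_⟩
  · intro y
    obtain ⟨g, rfl⟩ := hχ.surj y
    refine ⟨⟨g, Pth_off hv g.2.1, g.2.2⟩, ?_⟩
    change χ _ = χ g
    congr 1
    apply Subtype.ext
    rw [conjHom_coe]
    group
  · intro g
    change χ _ = 1 ↔ _
    rw [hχ.ker, conjHom_coe]
    have h0 : (1 : FreeGroup α)⁻¹ * (g : FreeGroup α) * 1 = g := by group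
    rw [h0]
    constructor
    · intro h
      refine (Subgroup.closure_le _).mpr ?_ h
      rintro y ⟨u, hu, hp, rfl⟩
      apply Subgroup.subset_closure
      refine ⟨u, Pth_off hv hu, ⟨hp.1, fun k => ⟨hp.2 k, ?_⟩⟩, rfl⟩
      intro heq
      apply hv
      have h1 : Pth f E (FreeGroup.lift f u o) (wd x k 0) := Pth_wd k (fun j _ => hp.2 j)
      have h2 : FreeGroup.lift f (wd x k 0) (FreeGroup.lift f u o) ∈ Comp f E o := by
        rw [← Comp_path h1]; exact ⟨u, hu, rfl⟩
      have h3 := hp.2 k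
      rw [walkT_pow] at h3 heq
      obtain ⟨b, s, hab⟩ : ∃ b, ∃ s, x (0 + (k : ZMod ℓ)) = (b, s) := ⟨_, _, rfl⟩
      simp only [stepE, edgeAt, hab, Set.mem_singleton_iff, Prod.mk.injEq] at h3 heq
      cases s
      · simp only [Bool.false_eq_true, if_false] at heq h3
        rw [← heq.2, Comp_edge h3, act_false]
        simpa using h2
      · simp only [if_true] at heq
        rw [← heq.2]; exact h2
    · intro h
      exact NnE_mono Set.sdiff_subset o h

/-- **Reduction step.**  If some edge is crossed by at most one position, then it can be removed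
(up to a change of base point) from a complex marked by a freely indecomposable group which is
not cyclic. -/
theorem Mk.reduce [NeZero ℓ] (hN0 : 0 < N) (hN : (N : ZMod ℓ) = 0) {o : Ω}
    {χ : PiE f E o →* G} (hχ : Mk f x N E o χ) (hcyc : ¬ IsCyclic G)
    (hind : ∀ (A B : Type) [Group A] [Group B], Nontrivial A → Nontrivial B →
      IsEmpty (G ≃* Coprod A B))
    {e : α × Ω} (he : e ∈ E)
    (h1 : ∀ p ∈ Pos f x N E, ∀ q ∈ Pos f x N E, stepE f x p = e → stepE f x q = e → p = q) :
    ∃ (o' : Ω) (q : FreeGroup α) (hq : Pth f E o q) (hqo : FreeGroup.lift f q o = o'),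
      Mk f x N (E \ {e}) o' (χ.comp (conjHom f Set.sdiff_subset hq hqo)) := by
  obtain ⟨a, v⟩ := e
  by_cases hv : v ∈ Comp f E o
  · obtain ⟨q, hq, hqv⟩ := hv
    have hbase := hχ.base hq hqv
    have key : ∀ (o' : Ω) (q' : FreeGroup α) (hq' : Pth f E v q')
        (hqo' : FreeGroup.lift f q' v = o'),
        Mk f x N (E \ {(a, v)}) o'
          ((χ.comp (conjHom f subset_rfl hq hqv)).comp
            (conjHom f Set.sdiff_subset hq' hqo')) →
        ∃ (o' : Ω) (q : FreeGroup α) (hq : Pth f E o q) (hqo : FreeGroup.lift f q o = o'),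
          Mk f x N (E \ {(a, v)}) o' (χ.comp (conjHom f Set.sdiff_subset hq hqo)) := by
      intro o' q' hq' hqo' hM
      refine ⟨o', q' * q, hq.trans' hqv hq', by
        rw [map_mul, Equiv.Perm.mul_apply, hqv, hqo'], ?_⟩
      convert hM using 1
      ext g
      change χ _ = χ _
      congr 1
      apply Subtype.ext
      simp only [conjHom_coe]
      group
    have hinc : ∀ (hsub : E \ {(a, v)} ⊆ E),
        (χ.comp (conjHom f subset_rfl hq hqv)).comp
          (Subgroup.inclusion (PiE_mono hsub v)) =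
        (χ.comp (conjHom f subset_rfl hq hqv)).comp
            (conjHom f Set.sdiff_subset (q := 1) Pth.one (by simp)) := by
      intro hsub
      ext g
      change χ _ = χ _
      congr 1
      apply Subtype.ext
      simp only [conjHom_coe, Subgroup.coe_inclusion]
      group
    by_cases hcov : ∃ p ∈ Pos f x N E, stepE f x p = (a, v)
    · obtain ⟨p, hp, hpe⟩ := hcov
      obtain ⟨δ, m, hL⟩ := loopEdge_of_once hN0 hN hp hpe
        (fun q hq hqe => h1 q hq p hp hqe hpe)
      have hM := hL.remove hN hbase hcyc hind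
      rw [hinc Set.sdiff_subset] at hM
      exact key v 1 Pth.one (by simp) hM
    · push Not at hcov
      by_cases hconn : f a v ∈ Comp f (E \ {(a, v)}) v
      · obtain ⟨δ, m, hL⟩ := loopEdge_of_uncovered he hcov hconn
        have hM := hL.remove hN hbase hcyc hind
        rw [hinc Set.sdiff_subset] at hM
        exact key v 1 Pth.one (by simp) hM
      · have hS : SepEdge f x N E (E \ {(a, v)}) a v :=
          ⟨he, Set.sdiff_subset, fun e he hne => ⟨he, hne⟩, fun h => h.2 rfl, hconn,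
            fun p hp => ⟨hp.1, fun k => ⟨hp.2 k, hcov _ (Pos_walk hp k)⟩⟩⟩
        rcases hS.remove hN hbase hind with hM | hM
        · rw [hinc Set.sdiff_subset] at hM
          exact key v 1 Pth.one (by simp) hM
        · exact key (f a v) (FreeGroup.of a) (Pth.of he) (by simp) hM
  · exact ⟨o, 1, Pth.one, by simp, hχ.off hv⟩

end Pool.Agent.H44R2
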