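import Mathlib
import Pool.Agent.H44R2.Remove

/-!
# The size of irreducible marked complexes
-/

namespace Pool.Agent.H44R2

open Finset

variable {α Ω G : Type} [Group G] {ℓ : ℕ}

variable {f : α → Equiv.Perm Ω} {x : ZMod ℓ → α × Bool} {N : ℕ} {E E' : Set (α × Ω)}

/-- Irreducible: connected and every edge is crossed by at least two positions. -/
structure Irr (f : α → Equiv.Perm Ω) (x : ZMod ℓ → α × Bool) (N : ℕ) (E : Set (α × Ω)) (o : Ω) :
    Prop where
  cov : ∀ e ∈ E, ∃ p ∈ Pos f x N E, ∃ q ∈ Pos f x N E, stepE f x p = e ∧ stepE f x q = e ∧ p ≠ q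
  conn : ∀ e ∈ E, e.2 ∈ Comp f E o

lemma stepE_inj_index {p q : Ω × ZMod ℓ} (h : stepE f x p = stepE f x q) (h2 : p.2 = q.2) :
    p = q := by
  rcases stepE_eq h with ⟨_, h3⟩ | ⟨h3, _⟩
  · exact Prod.ext h3 h2
  · rw [h2] at h3
    exact absurd h3.symm (linv_ne_self _)

lemma Pos_finite [NeZero ℓ] (hE : E.Finite) : (Pos f x N E).Finite := by
  have h1 : ((Set.univ : Set (ZMod ℓ)) ×ˢ E).Finite := (Set.toFinite _).prod hE
  apply Set.Finite.of_finite_image (f := fun p : Ω × ZMod ℓ => (p.2, stepE f x p))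
  · apply h1.subset
    rintro _ ⟨p, hp, rfl⟩
    exact ⟨Set.mem_univ _, hp.2 0⟩
  · intro p _ q _ h
    simp only [Prod.mk.injEq] at h
    exact stepE_inj_index h.2 h.1

section Acc

variable {k : Type} [Field k]

/-- Additive version of `cc`. -/
def acc (f : α → Equiv.Perm Ω) (c : α × Ω → k) (g : FreeGroup α) (v : Ω) : k :=
  Multiplicative.toAdd (cc f (fun e => Multiplicative.ofAdd (c e)) g v)

lemma acc_add (c d : α × Ω → k) (g : FreeGroup α) (v : Ω) :
    acc f (c + d) g v = acc f c g v + acc f d g v := by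
  unfold acc
  induction g using FreeGroup.induction_on generalizing v with
  | C1 => simp [cc_one]
  | of a => simp [cc_of]
  | inv_of a _ => simp only [cc_inv, cc_of, toAdd_inv, toAdd_ofAdd, Pi.add_apply]; ring
  | mul g h ihg ihh => rw [cc_mul, cc_mul, cc_mul, toAdd_mul, toAdd_mul, toAdd_mul, ihg, ihh]; ring

lemma acc_smul (t : k) (c : α × Ω → k) (g : FreeGroup α) (v : Ω) :
    acc f (t • c) g v = t * acc f c g v := by
  unfold acc
  induction g using FreeGroup.induction_on generalizing v with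
  | C1 => simp [cc_one]
  | of a => simp [cc_of]
  | inv_of a _ =>
    simp only [cc_inv, cc_of, toAdd_inv, toAdd_ofAdd, Pi.smul_apply, smul_eq_mul]; ring
  | mul g h ihg ihh => rw [cc_mul, cc_mul, toAdd_mul, toAdd_mul, ihg, ihh]; ring

/-- The constraints: path values at finitely many positions and values on finitely many loops. -/
def constr (f : α → Equiv.Perm Ω) (x : ZMod ℓ → α × Bool) (N : ℕ) {ι κ : Type}
    (q : ι → Ω × ZMod ℓ) (g : κ → FreeGroup α) (o : Ω) :
    (α × Ω → k) →ₗ[k] (ι ⊕ κ → k) where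
  toFun c := Sum.elim (fun i => apath f x c N (q i)) (fun j => acc f c (g j) o)
  map_add' c d := by
    funext i
    rcases i with i | j
    · exact apath_add c d N (q i)
    · exact acc_add c d (g j) o
  map_smul' t c := by
    funext i
    rcases i with i | j
    · exact apath_smul t c N (q i)
    · exact acc_smul t c (g j) o

end Acc

/-- A cochain on a connected set of edges with trivial values on loops is a coboundary. -/
lemma cob_of_loops {K : Type} [Group K] {o : Ω} (hconn : ∀ e ∈ E, e.2 ∈ Comp f E o)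
    (c : α × Ω → K) (hc : ∀ g ∈ PiE f E o, cc f c g o = 1) :
    ∃ φ : Ω → K, ∀ e ∈ E, c e = φ (f e.1 e.2) * (φ e.2)⁻¹ := by
  refine ⟨fun v => cc f c (trv f E o v) o, fun e he => ?_⟩
  obtain ⟨b, w⟩ := e
  have hw : w ∈ Comp f E o := hconn _ he
  have h1 := trv_loop hw (Pth.of he)
  have h2 := hc _ h1
  obtain ⟨h3, h4⟩ := trv_spec hw
  obtain ⟨h5, h6⟩ := trv_spec ((Comp_edge he).mp hw)
  simp only [FreeGroup.lift_apply_of] at h2
  rw [mul_assoc, cc_mul, cc_mul, cc_of, h4, map_mul, Equiv.Perm.mul_apply, h4, cc_inv] at h2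
  simp only [FreeGroup.lift_apply_of] at h2
  have h7 : FreeGroup.lift f (trv f E o (f b w))⁻¹ (f b w) = o := by
    rw [map_inv, Equiv.Perm.inv_eq_iff_eq]; exact h6.symm
  rw [h7] at h2
  simp only
  generalize cc f c (trv f E o (f b w)) o = X at h2 ⊢
  generalize cc f c (trv f E o w) o = Y at h2 ⊢
  have h8 : c (b, w) = X * (X⁻¹ * (c (b, w) * Y)) * Y⁻¹ := by group
  rw [h8, h2, mul_one]

/-- The size bound. -/
theorem Irr.bound [NeZero ℓ] (hred : CycRed x) (hprim : Primitive x) {n pr : ℕ} (hn : 0 < n)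
    (hpr : pr.Prime) (hprn : pr ∣ n) {o : Ω} {χ : PiE f E o →* G}
    (hχ : Mk f x (n * ℓ) E o χ) (hE : E.Finite) (hirr : Irr f x (n * ℓ) E o) (hne : E.Nonempty)
    {k : ℕ} (gens : Fin k → G) (hgens : Subgroup.closure (Set.range gens) = ⊤) :
    E.ncard ≤ ℓ * k := by
  classical
  have : Fact pr.Prime := ⟨hpr⟩
  have hℓ : 0 < ℓ := Nat.pos_of_ne_zero (NeZero.ne ℓ)
  have hN : 0 < n * ℓ := Nat.mul_pos hn hℓ
  have hPf : (Pos f x (n * ℓ) E).Finite := Pos_finite hE
  set P := hPf.toFinset with hP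
  have hPmem : ∀ p, p ∈ P ↔ p ∈ Pos f x (n * ℓ) E := fun p => hPf.mem_toFinset
  have hPT : ∀ p ∈ P, walkT f x p ∈ P := by
    intro p hp
    rw [hPmem] at hp ⊢
    exact Pos_walk_one hp
  have hPk : ∀ (j : ℕ) (p), p ∈ P → (walkT f x ^ j) p ∈ P := by
    intro j p hp
    rw [hPmem] at hp ⊢
    exact Pos_walk hp j
  obtain ⟨rk, hrk⟩ := exists_rankStacking hred hprim
  obtain ⟨i₀, -, hi₀⟩ := Finset.exists_min_image (univ : Finset (ZMod ℓ)) rk ⟨0, mem_univ _⟩
  have hcount := card_add_card_le hrk hred P hPT (by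
    intro p hp
    rw [hPmem] at hp
    obtain ⟨p1, hp1, p2, hp2, e1, e2, hne⟩ := hirr.cov _ (hp.2 0)
    by_cases h : p1 = p
    · refine ⟨p2, (hPmem _).mpr hp2, fun h2 => hne (h.trans h2.symm), e2⟩
    · exact ⟨p1, (hPmem _).mpr hp1, h, e1⟩) i₀ (fun j => hi₀ j (mem_univ _))
  have hEim : (P.image (stepE f x)) = hE.toFinset := by
    ext e
    rw [Finset.mem_image, hE.mem_toFinset]
    constructor
    · rintro ⟨p, hp, rfl⟩
      rw [hPmem] at hp
      exact hp.2 0
    · intro he
      obtain ⟨p1, hp1, _, _, e1, _, _⟩ := hirr.cov e he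
      exact ⟨p1, (hPmem _).mpr hp1, e1⟩
  set C := P.filter (fun p => p.2 = i₀) with hC
  -- rotation to index `i₀`
  have hrot : ∀ p ∈ P, ∃ q ∈ C, ∃ j : ℕ, p = (walkT f x ^ j) q := by
    intro p hp
    have hp' := (hPmem p).mp hp
    set j := (p.2 - i₀).val with hj
    have hjc : (j : ZMod ℓ) = p.2 - i₀ := by simp [hj]
    refine ⟨(walkT f x ^ (n * ℓ * j - j)) p, ?_, j, ?_⟩
    · rw [hC, Finset.mem_filter]
      refine ⟨hPk _ _ hp, ?_⟩
      rw [walkT_pow_snd]
      have hle : j ≤ n * ℓ * j := Nat.le_mul_of_pos_left _ hN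
      rw [Nat.cast_sub hle, hjc]
      push_cast
      rw [ZMod.natCast_self]
      ring
    · rw [← Equiv.Perm.mul_apply, ← pow_add]
      have h2 : j + (n * ℓ * j - j) = n * ℓ * j := by
        have : j ≤ n * ℓ * j := Nat.le_mul_of_pos_left _ hN
        omega
      rw [h2, pow_mul]
      have h3 : ∀ k : ℕ, ((walkT f x ^ (n * ℓ)) ^ k) p = p := by
        intro k
        induction k with
        | zero => simp
        | succ k ihk => rw [pow_succ, Equiv.Perm.mul_apply, hp'.1, ihk]
      exact (h3 _).symm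
  have hCP : ∀ q ∈ C, q ∈ P := fun q hq => (Finset.mem_filter.mp hq).1
  have hCi : ∀ q ∈ C, q.2 = i₀ := fun q hq => (Finset.mem_filter.mp hq).2
  -- the canonical representative of an orbit
  let O : Ω × ZMod ℓ → Set (Ω × ZMod ℓ) := fun q => {q' | (∃ j : ℕ, q' = (walkT f x ^ j) q) ∧
    q'.2 = i₀}
  have hOtrans : ∀ q q', q ∈ P → q' ∈ O q → O q' = O q := by
    rintro q q' hq ⟨⟨j, rfl⟩, hj⟩
    ext r
    constructor
    · rintro ⟨⟨j', rfl⟩, hj'⟩
      exact ⟨⟨j' + j, by rw [pow_add, Equiv.Perm.mul_apply]⟩, hj'⟩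
    · rintro ⟨⟨j', rfl⟩, hj'⟩
      refine ⟨⟨j' + (n * ℓ * j - j), ?_⟩, hj'⟩
      rw [pow_add, Equiv.Perm.mul_apply]
      congr 1
      rw [← Equiv.Perm.mul_apply, ← pow_add]
      have h2 : n * ℓ * j - j + j = n * ℓ * j := by
        have : j ≤ n * ℓ * j := Nat.le_mul_of_pos_left _ hN
        omega
      rw [h2, pow_mul]
      have h3 : ∀ k : ℕ, ((walkT f x ^ (n * ℓ)) ^ k) q = q := by
        intro k
        induction k with
        | zero => simp
        | succ k ihk => rw [pow_succ, Equiv.Perm.mul_apply, ((hPmem q).mp hq).1, ihk]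
      exact (h3 _).symm
  let ψ : Ω × ZMod ℓ → Ω × ZMod ℓ := fun q => if h : (O q).Nonempty then h.some else q
  have hψO : ∀ q ∈ C, ψ q ∈ O q := by
    intro q hq
    have h : (O q).Nonempty := ⟨q, ⟨0, by simp⟩, hCi q hq⟩
    simp only [ψ, h, dif_pos]
    exact h.some_mem
  have hψC : ∀ q ∈ C, ψ q ∈ C := by
    intro q hq
    obtain ⟨⟨j, hj⟩, hj2⟩ := hψO q hq
    rw [hC, Finset.mem_filter]
    refine ⟨?_, hj2⟩
    rw [hj]; exact hPk _ _ (hCP q hq)
  have hψeq : ∀ q ∈ C, ∀ q' ∈ O q, ψ q' = ψ q := by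
    intro q hq q' hq'
    have h := hOtrans q q' (hCP q hq) hq'
    simp only [ψ, h]
    by_cases hn : (O q).Nonempty
    · simp only [hn, dif_pos]
    · exact absurd ⟨q', hq'⟩ hn
  -- relevant representatives
  let per : Ω × ZMod ℓ → ℕ := fun q => Function.minimalPeriod (walkT f x) q
  set R := C.filter (fun q => ψ q = q ∧ ¬ pr ∣ (n * ℓ) / per q) with hR
  have hper : ∀ q ∈ P, per q ∣ n * ℓ ∧ (walkT f x ^ (per q)) q = q ∧ ℓ ∣ per q := by
    intro q hq
    have h1 : Function.IsPeriodicPt (walkT f x) (n * ℓ) q := by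
      have := ((hPmem q).mp hq).1
      rw [Function.IsPeriodicPt, Function.IsFixedPt]
      rw [← Equiv.Perm.iterate_eq_pow] at this
      exact this
    have h2 : (walkT f x ^ (per q)) q = q := by
      rw [← Equiv.Perm.iterate_eq_pow]
      exact Function.iterate_minimalPeriod
    refine ⟨h1.minimalPeriod_dvd, h2, ?_⟩
    have h3 := congrArg Prod.snd h2
    rw [walkT_pow_snd] at h3
    have h4 : (per q : ZMod ℓ) = 0 := by
      have := congrArg (fun t => t - q.2) h3
      simpa using this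
    exact (ZMod.natCast_eq_zero_iff _ ℓ).mp h4
  have hSne : ∀ q ∈ R, (walkT f x ^ ℓ) q ≠ q := by
    intro q hq hcon
    rw [hR, Finset.mem_filter] at hq
    obtain ⟨hqC, -, hndvd⟩ := hq
    obtain ⟨h1, h2, h3⟩ := hper q (hCP q hqC)
    have h4 : per q ∣ ℓ := by
      have : Function.IsPeriodicPt (walkT f x) ℓ q := by
        rw [Function.IsPeriodicPt, Function.IsFixedPt, Equiv.Perm.iterate_eq_pow]
        exact hcon
      exact this.minimalPeriod_dvd
    have h5 : per q = ℓ := Nat.dvd_antisymm h4 h3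
    rw [h5, Nat.mul_div_cancel _ hℓ] at hndvd
    exact hndvd hprn
  have hSC : ∀ q ∈ C, (walkT f x ^ ℓ) q ∈ C := by
    intro q hq
    rw [hC, Finset.mem_filter]
    refine ⟨hPk _ _ (hCP q hq), ?_⟩
    rw [walkT_pow_snd, hCi q hq]; simp
  have hRcard : 2 * R.card ≤ C.card := by
    have hRC : R ⊆ C := Finset.filter_subset _ _
    have h1 : (R.image (fun q => (walkT f x ^ ℓ) q)).card = R.card :=
      Finset.card_image_of_injective _ (walkT f x ^ ℓ).injective
    have h2 : Disjoint R (R.image (fun q => (walkT f x ^ ℓ) q)) := by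
      rw [Finset.disjoint_left]
      intro q hq hq'
      rw [Finset.mem_image] at hq'
      obtain ⟨r, hr, hrq⟩ := hq'
      have hr' := hr
      rw [hR, Finset.mem_filter] at hq hr'
      have h3 : q ∈ O r := ⟨⟨ℓ, hrq.symm⟩, hCi q hq.1⟩
      have h4 := hψeq r hr'.1 q h3
      rw [hq.2.1, hr'.2.1] at h4
      rw [h4] at hrq
      exact hSne r hr hrq
    have h3 : R ∪ R.image (fun q => (walkT f x ^ ℓ) q) ⊆ C := by
      intro q hq
      rcases Finset.mem_union.mp hq with hq | hq
      · exact hRC hq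
      · obtain ⟨r, hr, rfl⟩ := Finset.mem_image.mp hq
        exact hSC r (hRC hr)
    have h4 := Finset.card_le_card h3
    rw [Finset.card_union_of_disjoint h2, h1] at h4
    omega
  -- choose loops for the generators
  choose gl hgl using fun j => hχ.surj (gens j)
  obtain ⟨e₀, he₀⟩ := hne
  obtain ⟨p₀, hp₀, _⟩ := hirr.cov e₀ he₀
  -- dimension count
  have hdim : E.ncard < R.card + k + (P.image Prod.fst).card := by
    by_contra hcon
    push Not at hcon
    obtain ⟨c, -, hc0, hc⟩ := exists_not_coboundary (k := ZMod pr) f (hE.toFinset)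
      (P.image Prod.fst) (by
        intro e he
        rw [← hEim, Finset.mem_image] at he
        obtain ⟨p, hp, rfl⟩ := he
        have h1 : p.1 ∈ P.image Prod.fst := Finset.mem_image_of_mem _ hp
        have h2 : act f (x p.2) p.1 ∈ P.image Prod.fst := by
          have := Finset.mem_image_of_mem Prod.fst (hPT p hp)
          rwa [walkT_fst] at this
        rcases hx : x p.2 with ⟨a, b⟩
        rw [hx] at h2
        simp only [stepE, edgeAt, hx]
        cases b
        · simp only [Bool.false_eq_true, if_false]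
          refine ⟨h2, ?_⟩
          simpa [act] using h1
        · simp only [if_true]
          refine ⟨h1, ?_⟩
          simpa [act] using h2)
      (constr f x (n * ℓ) (fun q : R => q.1) (fun j => (gl j : FreeGroup α)) o)
      ⟨p₀.1, Finset.mem_image_of_mem _ ((hPmem _).mpr hp₀)⟩ (by
        rw [Fintype.card_sum, Fintype.card_coe, Fintype.card_fin]
        rw [← Set.ncard_eq_toFinset_card E hE]
        exact hcon)
    have hcR : ∀ q ∈ R, apath f x c (n * ℓ) q = 0 := fun q hq => congrFun hc0 (Sum.inl ⟨q, hq⟩)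
    have hcG : ∀ j, acc f c (gl j : FreeGroup α) o = 0 := fun j => congrFun hc0 (Sum.inr j)
    -- the cochain is a cocycle
    have hcC : ∀ q ∈ C, pathVal f x (fun e => Multiplicative.ofAdd (c e)) (n * ℓ) q = 1 := by
      intro q hq
      by_cases hdvd : pr ∣ (n * ℓ) / per q
      · obtain ⟨h1, h2, -⟩ := hper q (hCP q hq)
        have h3 : n * ℓ = (n * ℓ) / per q * per q := (Nat.div_mul_cancel h1).symm
        rw [h3, pathVal_mul _ h2]
        generalize pathVal f x (fun e => Multiplicative.ofAdd (c e)) (per q) q = y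
        have : Multiplicative.toAdd (y ^ ((n * ℓ) / per q)) = 0 := by
          rw [toAdd_pow, nsmul_eq_mul, (ZMod.natCast_eq_zero_iff _ pr).mpr hdvd, zero_mul]
        exact this
      · obtain ⟨⟨j, hj⟩, hj2⟩ := hψO q hq
        have hr : ψ q ∈ R := by
          rw [hR, Finset.mem_filter]
          refine ⟨hψC q hq, hψeq q hq _ (hψO q hq), ?_⟩
          have h5 : per (ψ q) = per q := by
            simp only [per]
            rw [hj, ← Equiv.Perm.iterate_eq_pow]
            apply Function.minimalPeriod_apply_iterate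
            have := ((hPmem q).mp (hCP q hq)).1
            exact Function.mk_mem_periodicPts hN (by
              rw [Function.IsPeriodicPt, Function.IsFixedPt, Equiv.Perm.iterate_eq_pow]
              exact this)
          rw [h5]; exact hdvd
        have h1 := hcR _ hr
        have h2 : pathVal f x (fun e => Multiplicative.ofAdd (c e)) (n * ℓ) (ψ q) = 1 := by
          rw [pathVal_ofAdd, h1]; rfl
        have h3 : q ∈ O (ψ q) := by
          rw [hOtrans q _ (hCP q hq) (hψO q hq)]
          exact ⟨⟨0, by simp⟩, hCi q hq⟩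
        obtain ⟨⟨j', hj'⟩, -⟩ := h3
        have h4 := pathVal_rot_pow (fun e => Multiplicative.ofAdd (c e))
          ((hPmem _).mp (hCP _ (hψC q hq))).1 h2 j'
        rw [← hj'] at h4
        exact h4
    have hcoc : ∀ p ∈ Pos f x (n * ℓ) E,
        pathVal f x (fun e => Multiplicative.ofAdd (c e)) (n * ℓ) p = 1 := by
      intro p hp
      obtain ⟨q, hq, j, rfl⟩ := hrot p ((hPmem p).mpr hp)
      exact pathVal_rot_pow _ ((hPmem _).mp (hCP q hq)).1 (hcC q hq) j
    obtain ⟨Ψ, hΨ⟩ := hχ.factor_cc _ hcoc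
    have hΨ1 : ∀ y : G, Ψ y = 1 := by
      intro y
      have hle : Subgroup.closure (Set.range gens) ≤ Ψ.ker := by
        rw [Subgroup.closure_le]
        rintro _ ⟨j, rfl⟩
        change Ψ (gens j) = 1
        rw [← hgl j, hΨ]
        have := hcG j
        unfold acc at this
        exact this
      rw [hgens] at hle
      exact hle (Subgroup.mem_top y)
    obtain ⟨φ, hφ⟩ := cob_of_loops hirr.conn (fun e => Multiplicative.ofAdd (c e)) (by
      intro g hg
      have := hΨ ⟨g, hg⟩
      rw [hΨ1] at this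
      exact this.symm)
    obtain ⟨e, he, hne⟩ := hc (fun w => Multiplicative.toAdd (φ w))
    apply hne
    rw [hE.mem_toFinset] at he
    have := congrArg Multiplicative.toAdd (hφ e he)
    simp only [toAdd_ofAdd, toAdd_mul, toAdd_inv] at this
    rw [this]; ring
  rw [hEim, ← Set.ncard_eq_toFinset_card E hE] at hcount
  -- positions versus edges
  have hPC : P.card ≤ ℓ * C.card := by
    have h1 : P ⊆ (Finset.range ℓ ×ˢ C).image (fun jq => (walkT f x ^ jq.1) jq.2) := by
      intro p hp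
      obtain ⟨q, hq, j, rfl⟩ := hrot p hp
      rw [Finset.mem_image]
      refine ⟨(j % ℓ, (walkT f x ^ (j - j % ℓ)) q), ?_, ?_⟩
      · rw [Finset.mem_product, Finset.mem_range]
        refine ⟨Nat.mod_lt _ hℓ, ?_⟩
        rw [hC, Finset.mem_filter]
        refine ⟨hPk _ _ (hCP q hq), ?_⟩
        rw [walkT_pow_snd, hCi q hq]
        have : ((j - j % ℓ : ℕ) : ZMod ℓ) = 0 := by
          rw [ZMod.natCast_eq_zero_iff]
          exact Nat.dvd_sub_mod j
        rw [this, add_zero]
      · simp only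
        rw [← Equiv.Perm.mul_apply, ← pow_add]
        congr 2
        have := Nat.mod_le j ℓ
        omega
    calc P.card ≤ _ := Finset.card_le_card h1
      _ ≤ (Finset.range ℓ ×ˢ C).card := Finset.card_image_le
      _ = ℓ * C.card := by rw [Finset.card_product, Finset.card_range]
  have hEP : 2 * E.ncard ≤ P.card := by
    rw [Set.ncard_eq_toFinset_card E hE]
    have hex : ∀ e ∈ E, ∃ pq : (Ω × ZMod ℓ) × (Ω × ZMod ℓ), pq.1 ∈ Pos f x (n * ℓ) E ∧
        pq.2 ∈ Pos f x (n * ℓ) E ∧ stepE f x pq.1 = e ∧ stepE f x pq.2 = e ∧ pq.1 ≠ pq.2 := by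
      intro e he
      obtain ⟨p, hp, q, hq, h1, h2, h3⟩ := hirr.cov e he
      exact ⟨(p, q), hp, hq, h1, h2, h3⟩
    have : Nonempty Ω := ⟨o⟩
    choose! pq hp1 hp2 e1 e2 hne12 using hex
    obtain ⟨p1, hp1def⟩ : ∃ p1 : α × Ω → Ω × ZMod ℓ, p1 = fun e => (pq e).1 := ⟨_, rfl⟩
    obtain ⟨p2, hp2def⟩ : ∃ p2 : α × Ω → Ω × ZMod ℓ, p2 = fun e => (pq e).2 := ⟨_, rfl⟩
    replace hp1 : ∀ e ∈ E, p1 e ∈ Pos f x (n * ℓ) E := by rw [hp1def]; exact hp1
    replace hp2 : ∀ e ∈ E, p2 e ∈ Pos f x (n * ℓ) E := by rw [hp2def]; exact hp2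
    replace e1 : ∀ e ∈ E, stepE f x (p1 e) = e := by rw [hp1def]; exact e1
    replace e2 : ∀ e ∈ E, stepE f x (p2 e) = e := by rw [hp2def]; exact e2
    replace hne12 : ∀ e ∈ E, p1 e ≠ p2 e := by rw [hp1def, hp2def]; exact hne12
    have h1 : hE.toFinset.image p1 ∪ hE.toFinset.image p2 ⊆ P := by
      intro p hp
      rcases Finset.mem_union.mp hp with hp | hp
      · obtain ⟨e, he, rfl⟩ := Finset.mem_image.mp hp
        exact (hPmem _).mpr (hp1 e (hE.mem_toFinset.mp he))
      · obtain ⟨e, he, rfl⟩ := Finset.mem_image.mp hp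
        exact (hPmem _).mpr (hp2 e (hE.mem_toFinset.mp he))
    have h2 : Disjoint (hE.toFinset.image p1) (hE.toFinset.image p2) := by
      rw [Finset.disjoint_left]
      intro p hp hp'
      obtain ⟨e, he, rfl⟩ := Finset.mem_image.mp hp
      obtain ⟨e', he', hee⟩ := Finset.mem_image.mp hp'
      rw [hE.mem_toFinset] at he he'
      have h3 : e' = e := by
        rw [← e2 e' he', hee, e1 e he]
      subst h3
      exact hne12 e' he' hee.symm
    have h3 : (hE.toFinset.image p1).card = hE.toFinset.card := by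
      apply Finset.card_image_of_injOn
      intro e he e' he' hee
      have he1 := hE.mem_toFinset.mp (Finset.mem_coe.mp he)
      have he1' := hE.mem_toFinset.mp (Finset.mem_coe.mp he')
      rw [← e1 e he1, hee, e1 e' he1']
    have h4 : (hE.toFinset.image p2).card = hE.toFinset.card := by
      apply Finset.card_image_of_injOn
      intro e he e' he' hee
      have he1 := hE.mem_toFinset.mp (Finset.mem_coe.mp he)
      have he1' := hE.mem_toFinset.mp (Finset.mem_coe.mp he')
      rw [← e2 e he1, hee, e2 e' he1']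
    have h5 := Finset.card_le_card h1
    rw [Finset.card_union_of_disjoint h2, h3, h4] at h5
    omega
  have hC2 : C.card ≤ 2 * k := by omega
  have h9 : 2 * E.ncard ≤ ℓ * (2 * k) :=
    hEP.trans (hPC.trans (Nat.mul_le_mul_left ℓ hC2))
  have h10 : ℓ * (2 * k) = 2 * (ℓ * k) := by ring
  rw [h10] at h9
  omega

end Pool.Agent.H44R2
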