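import Mathlib
import Pool.Agent.H44R2.Bound

/-!
# Minimisation and the complex carrying the image of an endomorphism
-/

namespace Pool.Agent.H44R2

open Monoid

variable {α Ω Ω' G : Type} [Group G] {ℓ : ℕ}

section Minimise

variable {f : α → Equiv.Perm Ω} {x : ZMod ℓ → α × Bool} {N : ℕ} {E E' : Set (α × Ω)}

lemma Pth_empty {v : Ω} {g : FreeGroup α} (h : Pth f ∅ v g) : g = 1 := by
  cases h with
  | one => rfl
  | step p g _ he => exact absurd he (Set.notMem_empty _)

/-- Passing to an irreducible sub-complex. -/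
theorem Mk.minimise [NeZero ℓ] (hN0 : 0 < N) (hN : (N : ZMod ℓ) = 0) (hcyc : ¬ IsCyclic G)
    (hind : ∀ (A B : Type) [Group A] [Group B], Nontrivial A → Nontrivial B →
      IsEmpty (G ≃* Coprod A B)) (s : ℕ) :
    ∀ (E : Set (α × Ω)) (o : Ω) (χ : PiE f E o →* G), E.Finite → E.ncard ≤ s →
      Mk f x N E o χ → ∃ (E' : Set (α × Ω)) (hE' : E' ⊆ E) (o' : Ω) (q : FreeGroup α)
        (hq : Pth f E o q) (hqo : FreeGroup.lift f q o = o'),
        Mk f x N E' o' (χ.comp (conjHom f hE' hq hqo)) ∧ Irr f x N E' o' := by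
  induction s with
  | zero =>
    intro E o χ hE hcard hχ
    have h0 : E = ∅ := by
      rw [← Set.ncard_eq_zero hE]; omega
    exfalso
    apply hcyc
    have hsub : Subsingleton G := by
      constructor
      intro y y'
      have h1 : ∀ y : G, y = 1 := by
        intro y
        obtain ⟨g, rfl⟩ := hχ.surj y
        have h2 : (g : FreeGroup α) = 1 := by
          exact Pth_empty (g.2.1.mono h0.subset)
        have h4 : g = 1 := Subtype.ext h2
        rw [h4, map_one]
      rw [h1 y, h1 y']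
    exact isCyclic_of_subsingleton
  | succ s ih =>
    intro E o χ hE hcard hχ
    have hstep : ∀ (e : α × Ω) (he : e ∈ E) (o' : Ω) (q : FreeGroup α) (hq : Pth f E o q)
        (hqo : FreeGroup.lift f q o = o'),
        Mk f x N (E \ {e}) o' (χ.comp (conjHom f Set.sdiff_subset hq hqo)) →
        ∃ (E' : Set (α × Ω)) (hE' : E' ⊆ E) (o' : Ω) (q : FreeGroup α)
        (hq : Pth f E o q) (hqo : FreeGroup.lift f q o = o'),
        Mk f x N E' o' (χ.comp (conjHom f hE' hq hqo)) ∧ Irr f x N E' o' := by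
      intro e he o' q hq hqo hM
      have hc : (E \ {e}).ncard ≤ s := by
        have := Set.ncard_sdiff_singleton_add_one he hE
        omega
      obtain ⟨E', hE', o'', q', hq', hqo', hM', hirr⟩ := ih (E \ {e}) o' _
        (hE.subset Set.sdiff_subset) hc hM
      refine ⟨E', hE'.trans Set.sdiff_subset, o'', q' * q,
        hq.trans' hqo (hq'.mono Set.sdiff_subset), by
          rw [map_mul, Equiv.Perm.mul_apply, hqo, hqo'], ?_, hirr⟩
      convert hM' using 1
      ext g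
      change χ _ = χ _
      congr 1
      apply Subtype.ext
      simp only [conjHom_coe]
      group
    by_cases hconn : ∀ e ∈ E, e.2 ∈ Comp f E o
    · by_cases hcov : ∀ e ∈ E, ∃ p ∈ Pos f x N E, ∃ q ∈ Pos f x N E,
          stepE f x p = e ∧ stepE f x q = e ∧ p ≠ q
      · refine ⟨E, subset_rfl, o, 1, Pth.one, by simp, ?_, ⟨hcov, hconn⟩⟩
        exact hχ.base Pth.one (by simp)
      · push Not at hcov
        obtain ⟨e, he, hcov⟩ := hcov
        obtain ⟨o', q, hq, hqo, hM⟩ := hχ.reduce hN0 hN hcyc hind he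
          (fun p hp q hq h1 h2 => hcov p hp q hq h1 h2)
        exact hstep e he o' q hq hqo hM
    · push Not at hconn
      obtain ⟨e, he, hconn⟩ := hconn
      obtain ⟨a, v⟩ := e
      exact hstep (a, v) he o 1 Pth.one (by simp) (hχ.off hconn)

end Minimise

section Mor

variable {f : α → Equiv.Perm Ω} {f' : α → Equiv.Perm Ω'} {x : ZMod ℓ → α × Bool} {N : ℕ}
  {E : Set (α × Ω)} {E' : Set (α × Ω')} {P : Ω' → Ω}

lemma map_act (hP : ∀ a ω, P (f' a ω) = f a (P ω)) (p : α × Bool) (ω : Ω') :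
    P (act f' p ω) = act f p (P ω) := by
  obtain ⟨a, b⟩ := p
  cases b
  · rw [act_false, act_false, Equiv.Perm.eq_inv_iff_eq, ← hP]; simp
  · rw [act_true, act_true]; exact hP a ω

lemma map_lift (hP : ∀ a ω, P (f' a ω) = f a (P ω)) (g : FreeGroup α) (ω : Ω') :
    P (FreeGroup.lift f' g ω) = FreeGroup.lift f g (P ω) := by
  induction g using FreeGroup.induction_on generalizing ω with
  | C1 => simp
  | of a => simpa using hP a ω
  | inv_of a _ =>
    have := map_act hP (a, false) ω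
    simpa [act] using this
  | mul g h ihg ihh =>
    rw [map_mul, map_mul, Equiv.Perm.mul_apply, Equiv.Perm.mul_apply, ihg, ihh]

lemma map_edgeAt (hP : ∀ a ω, P (f' a ω) = f a (P ω)) (p : α × Bool) (ω : Ω') :
    edgeAt f p (P ω) = ((edgeAt f' p ω).1, P (edgeAt f' p ω).2) := by
  unfold edgeAt
  simp only
  split_ifs
  · rfl
  · rw [map_act hP]

lemma map_Pth (hP : ∀ a ω, P (f' a ω) = f a (P ω)) (hE : ∀ e ∈ E', (e.1, P e.2) ∈ E) {ω : Ω'}
    {g : FreeGroup α} (hg : Pth f' E' ω g) : Pth f E (P ω) g := by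
  induction hg with
  | one => exact Pth.one
  | step p g _ he ih =>
    refine Pth.step p g ih ?_
    rw [← map_lift hP, map_edgeAt hP]
    exact hE _ he

lemma map_walk (hP : ∀ a ω, P (f' a ω) = f a (P ω)) (k : ℕ) (p : Ω' × ZMod ℓ) :
    (walkT f x ^ k) (P p.1, p.2) = (P ((walkT f' x ^ k) p).1, ((walkT f' x ^ k) p).2) := by
  obtain ⟨v, i⟩ := p
  rw [walkT_pow, walkT_pow]
  simp only [map_lift hP]

lemma map_stepE (hP : ∀ a ω, P (f' a ω) = f a (P ω)) (p : Ω' × ZMod ℓ) :
    stepE f x (P p.1, p.2) = ((stepE f' x p).1, P (stepE f' x p).2) := map_edgeAt hP _ _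

lemma map_Pos (hP : ∀ a ω, P (f' a ω) = f a (P ω)) (hE : ∀ e ∈ E', (e.1, P e.2) ∈ E)
    {p : Ω' × ZMod ℓ} (hp : p ∈ Pos f' x N E') : (P p.1, p.2) ∈ Pos f x N E := by
  refine ⟨?_, fun k => ?_⟩
  · rw [map_walk hP, hp.1]
  · rw [map_walk hP, map_stepE hP]
    exact hE _ (hp.2 k)

lemma map_PiE (hP : ∀ a ω, P (f' a ω) = f a (P ω)) (hE : ∀ e ∈ E', (e.1, P e.2) ∈ E) {ω : Ω'}
    {g : FreeGroup α} (hg : g ∈ PiE f' E' ω) : g ∈ PiE f E (P ω) :=
  ⟨map_Pth hP hE hg.1, by rw [← map_lift hP, hg.2]⟩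

lemma map_NnE (hP : ∀ a ω, P (f' a ω) = f a (P ω)) (hE : ∀ e ∈ E', (e.1, P e.2) ∈ E) {ω : Ω'}
    {g : FreeGroup α} (hg : g ∈ NnE f' x N E' ω) : g ∈ NnE f x N E (P ω) := by
  refine (Subgroup.closure_le _).mpr ?_ hg
  rintro y ⟨u, hu, hp, rfl⟩
  apply Subgroup.subset_closure
  refine ⟨u, map_Pth hP hE hu, ?_, rfl⟩
  rw [← map_lift hP]
  exact map_Pos hP hE hp

/-- Lifting a path. -/
lemma lift_Pth (hP : ∀ a ω, P (f' a ω) = f a (P ω)) {ω : Ω'} {g : FreeGroup α}
    (hg : Pth f E (P ω) g) : ∃ E' : Set (α × Ω'), E'.Finite ∧ (∀ e ∈ E', (e.1, P e.2) ∈ E) ∧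
      Pth f' E' ω g := by
  induction hg with
  | one => exact ⟨∅, Set.finite_empty, by simp, Pth.one⟩
  | step p g _ he ih =>
    obtain ⟨E', hfin, hE', hpth⟩ := ih
    refine ⟨E' ∪ {edgeAt f' p (FreeGroup.lift f' g ω)}, hfin.union (Set.finite_singleton _), ?_,
      Pth.step p g (hpth.mono Set.subset_union_left) (Or.inr rfl)⟩
    rintro e (h | h)
    · exact hE' e h
    · rw [Set.mem_singleton_iff] at h
      rw [h, ← map_edgeAt hP, map_lift hP]
      exact he

end Mor

/-- Finite generation of membership in a closure. -/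
lemma mem_closure_finite {F : Type} [Group F] (U : Set F) {v : F} (hv : v ∈ Subgroup.closure U) :
    ∃ S : Set F, S ⊆ U ∧ S.Finite ∧ v ∈ Subgroup.closure S := by
  induction hv using Subgroup.closure_induction with
  | mem v hv =>
    exact ⟨{v}, Set.singleton_subset_iff.mpr hv, Set.finite_singleton _,
      Subgroup.subset_closure rfl⟩
  | one => exact ⟨∅, Set.empty_subset _, Set.finite_empty, Subgroup.one_mem _⟩
  | mul a b _ _ iha ihb =>
    obtain ⟨S1, h1, f1, m1⟩ := iha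
    obtain ⟨S2, h2, f2, m2⟩ := ihb
    exact ⟨S1 ∪ S2, Set.union_subset h1 h2, f1.union f2,
      Subgroup.mul_mem _ (Subgroup.closure_mono Set.subset_union_left m1)
        (Subgroup.closure_mono Set.subset_union_right m2)⟩
  | inv a _ iha =>
    obtain ⟨S1, h1, f1, m1⟩ := iha
    exact ⟨S1, h1, f1, Subgroup.inv_mem _ m1⟩

/-- **The complex carrying the image of an injective endomorphism.** -/
theorem exists_image_complex [NeZero ℓ] [Finite α] {f : α → Equiv.Perm Ω}
    {x : ZMod ℓ → α × Bool} {n : ℕ} (hn : 0 < n) {E : Set (α × Ω)} {o : Ω} {χ : PiE f E o →* G}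
    (hχ : Mk f x (n * ℓ) E o χ) (π : FreeGroup α →* G) (hπ : Function.Surjective π)
    (hker : π.ker = Subgroup.normalClosure {wd x (n * ℓ) 0})
    (φ : G →* G) (hφ : Function.Injective φ) :
    ∃ (Ω' : Type) (f' : α → Equiv.Perm Ω') (P : Ω' → Ω) (E' : Set (α × Ω')) (o' : Ω')
      (χ' : PiE f' E' o' →* G), E'.Finite ∧ (∀ a ω, P (f' a ω) = f a (P ω)) ∧
      (∀ e ∈ E', (e.1, P e.2) ∈ E) ∧ P o' = o ∧ Mk f' x (n * ℓ) E' o' χ' ∧
      ∀ y : PiE f' E' o', φ (χ' y) = tot χ (y : FreeGroup α) := by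
  classical
  have hℓ : 0 < ℓ := Nat.pos_of_ne_zero (NeZero.ne ℓ)
  have hN : 0 < n * ℓ := Nat.mul_pos hn hℓ
  set z := wd x (n * ℓ) 0 with hz
  -- lifts of the generators
  choose u hu using fun a : α => hχ.surj (φ (π (FreeGroup.of a)))
  let U : FreeGroup α →* PiE f E o := FreeGroup.lift u
  have hU : ∀ g, χ (U g) = φ (π g) := by
    intro g
    have : χ.comp U = φ.comp π := by
      ext a; simp [U, hu]
    exact DFunLike.congr_fun this g
  have hπz : π z = 1 := by
    have : z ∈ π.ker := by rw [hker]; exact Subgroup.subset_normalClosure (Set.mem_singleton _)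
    exact this
  have hUz : (U z : FreeGroup α) ∈ NnE f x (n * ℓ) E o := by
    rw [← hχ.ker, hU, hπz, map_one]
  obtain ⟨S, hSsub, hSfin, hSz⟩ := mem_closure_finite _ hUz
  have hSsub' : ∀ y ∈ S, ∃ g, Pth f E o g ∧
      (FreeGroup.lift f g o, (0 : ZMod ℓ)) ∈ Pos f x (n * ℓ) E ∧
      y = g⁻¹ * wd x (n * ℓ) 0 * g := fun y hy => hSsub hy
  choose! gS hgS1 hgS2 hgS3 using hSsub'
  -- the subgroup
  let L : Subgroup (FreeGroup α) := Subgroup.closure (Set.range (fun a => (u a : FreeGroup α)) ∪ S)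
  have huL : ∀ a, (u a : FreeGroup α) ∈ L := fun a => Subgroup.subset_closure (Or.inl ⟨a, rfl⟩)
  have hSL : ∀ y ∈ S, y ∈ L := fun y hy => Subgroup.subset_closure (Or.inr hy)
  have hSPi : ∀ y ∈ S, y ∈ PiE f E o := by
    intro y hy
    rw [hgS3 y hy]
    apply conj_mem_PiE (hgS1 y hy)
    exact ⟨Pth_wd _ (fun k _ => (hgS2 y hy).2 k), lift_wd_of_period (hgS2 y hy).1⟩
  have hLPi : L ≤ PiE f E o := by
    rw [Subgroup.closure_le]
    rintro y (⟨a, rfl⟩ | hy)
    · exact (u a).2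
    · exact hSPi y hy
  let Ω' := FreeGroup α ⧸ L
  let f' : α → Equiv.Perm Ω' := cosetPerm L
  let o' : Ω' := ((1 : FreeGroup α) : FreeGroup α ⧸ L)
  have hf' : ∀ (g : FreeGroup α) (ω : Ω'), FreeGroup.lift f' g ω = g • ω := lift_cosetPerm L
  have ho' : ∀ g : FreeGroup α, g ∈ L ↔ g • o' = o' := by
    intro g
    change _ ↔ ((g * 1 : FreeGroup α) : FreeGroup α ⧸ L) = ((1 : FreeGroup α) : FreeGroup α ⧸ L)
    rw [mul_one, eq_comm, QuotientGroup.eq]
    simp
  let P : Ω' → Ω := fun ω => FreeGroup.lift f (Quotient.out ω : FreeGroup α) o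
  have hPmk : ∀ g : FreeGroup α, P ((g : FreeGroup α ⧸ L)) = FreeGroup.lift f g o := by
    intro g
    obtain ⟨y, hy⟩ := QuotientGroup.mk_out_eq_mul L g
    have h5 : (Quotient.out ((g : FreeGroup α ⧸ L)) : FreeGroup α) = g * y := hy
    simp only [P]
    rw [h5, map_mul, Equiv.Perm.mul_apply, (hLPi y.2).2]
  have hPo : P o' = o := by
    change P (((1 : FreeGroup α) : FreeGroup α ⧸ L)) = o
    rw [hPmk]; simp
  have hP : ∀ a ω, P (f' a ω) = f a (P ω) := by
    intro a ω
    obtain ⟨g, rfl⟩ := QuotientGroup.mk_surjective ω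
    have h5 : f' a ((g : FreeGroup α) : FreeGroup α ⧸ L) =
        ((FreeGroup.of a * g : FreeGroup α) : FreeGroup α ⧸ L) := rfl
    rw [h5, hPmk, hPmk, map_mul, Equiv.Perm.mul_apply]; simp
  -- the edges
  have hliftu : ∀ a : α, ∃ E' : Set (α × Ω'), E'.Finite ∧ (∀ e ∈ E', (e.1, P e.2) ∈ E) ∧
      Pth f' E' o' (u a : FreeGroup α) := by
    intro a
    apply lift_Pth hP
    rw [hPo]; exact (u a).2.1
  choose Eu hEu1 hEu2 hEu3 using hliftu
  have hliftS : ∀ y ∈ S, ∃ E' : Set (α × Ω'), E'.Finite ∧ (∀ e ∈ E', (e.1, P e.2) ∈ E) ∧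
      Pth f' E' o' (gS y) := by
    intro y hy
    apply lift_Pth hP
    rw [hPo]; exact hgS1 y hy
  choose! ES hES1 hES2 hES3 using hliftS
  let q : FreeGroup α → Ω' × ZMod ℓ := fun y => (gS y • o', 0)
  have hqper : ∀ y ∈ S, (walkT f' x ^ (n * ℓ)) (q y) = q y := by
    intro y hy
    simp only [q]
    rw [walkT_pow, ← hz, hf']
    have h1 : y • o' = o' := (ho' y).mp (hSL y hy)
    rw [hgS3 y hy] at h1
    have h2 := congrArg (fun t => gS y • t) h1
    simp only [smul_smul] at h2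
    have h3 : gS y * ((gS y)⁻¹ * z * gS y) = z * gS y := by group
    rw [h3] at h2
    rw [smul_smul, h2]
    simp
  let EZ : FreeGroup α → Set (α × Ω') := fun y =>
    (fun k : ℕ => stepE f' x ((walkT f' x ^ k) (q y))) '' (Set.Iio (n * ℓ))
  have hEZ : ∀ y ∈ S, ∀ k : ℕ, stepE f' x ((walkT f' x ^ k) (q y)) ∈ EZ y := by
    intro y hy k
    refine ⟨k % (n * ℓ), Nat.mod_lt _ hN, ?_⟩
    simp only
    congr 1
    conv_rhs => rw [← Nat.mod_add_div k (n * ℓ)]
    rw [pow_add, Equiv.Perm.mul_apply, pow_mul]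
    have h3 : ∀ j : ℕ, ((walkT f' x ^ (n * ℓ)) ^ j) (q y) = q y := by
      intro j
      induction j with
      | zero => simp
      | succ j ihj => rw [pow_succ, Equiv.Perm.mul_apply, hqper y hy, ihj]
    rw [h3]
  let E' : Set (α × Ω') := (⋃ a, Eu a) ∪ (⋃ y ∈ S, (ES y ∪ EZ y))
  have hE'fin : E'.Finite := by
    apply Set.Finite.union
    · exact Set.finite_iUnion (fun a => hEu1 a)
    · apply hSfin.biUnion
      intro y hy
      exact (hES1 y hy).union ((Set.finite_Iio _).image _)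
  have hE'E : ∀ e ∈ E', (e.1, P e.2) ∈ E := by
    rintro e (he | he)
    · rw [Set.mem_iUnion] at he
      obtain ⟨a, ha⟩ := he
      exact hEu2 a e ha
    · rw [Set.mem_iUnion₂] at he
      obtain ⟨y, hy, he⟩ := he
      rcases he with he | he
      · exact hES2 y hy e he
      · obtain ⟨k, _, rfl⟩ := he
        simp only
        rw [← map_stepE hP, ← map_walk hP]
        have h1 : P (q y).1 = FreeGroup.lift f (gS y) o := by
          simp only [q]
          rw [← hf', map_lift hP, hPo]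
        rw [h1]
        exact (hgS2 y hy).2 k
  have hEuE : ∀ a, Eu a ⊆ E' := fun a => (Set.subset_iUnion Eu a).trans Set.subset_union_left
  have hESE : ∀ y ∈ S, ES y ⊆ E' := fun y hy e he =>
    Or.inr (Set.mem_iUnion₂.mpr ⟨y, hy, Or.inl he⟩)
  have hEZE : ∀ y ∈ S, EZ y ⊆ E' := fun y hy e he =>
    Or.inr (Set.mem_iUnion₂.mpr ⟨y, hy, Or.inr he⟩)
  have huPi : ∀ a, (u a : FreeGroup α) ∈ PiE f' E' o' := fun a =>
    ⟨(hEu3 a).mono (hEuE a), by rw [hf']; exact (ho' _).mp (huL a)⟩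
  have hSN : ∀ y ∈ S, y ∈ NnE f' x (n * ℓ) E' o' := by
    intro y hy
    apply Subgroup.subset_closure
    refine ⟨gS y, (hES3 y hy).mono (hESE y hy), ?_, hgS3 y hy⟩
    rw [hf']
    exact ⟨hqper y hy, fun k => hEZE y hy (hEZ y hy k)⟩
  have hPiL : PiE f' E' o' = L := by
    apply le_antisymm
    · intro g hg
      have := hg.2
      rw [hf'] at this
      exact (ho' g).mpr this
    · rw [Subgroup.closure_le]
      rintro y (⟨a, rfl⟩ | hy)
      · exact huPi a
      · exact NnE_le_PiE _ (hSN y hy)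
  have hPisub : PiE f' E' o' ≤ PiE f E o := by rw [hPiL]; exact hLPi
  have hNsub : NnE f' x (n * ℓ) E' o' ≤ NnE f x (n * ℓ) E o := by
    intro y hy
    have := map_NnE hP hE'E hy
    rwa [hPo] at this
  have hUPi : ∀ g, (U g : FreeGroup α) ∈ PiE f' E' o' := by
    intro g
    have h1 : U.range ≤ Subgroup.comap (PiE f E o).subtype (PiE f' E' o') := by
      rw [FreeGroup.range_lift_eq_closure, Subgroup.closure_le]
      rintro _ ⟨a, rfl⟩
      exact huPi a
    exact h1 ⟨g, rfl⟩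
  -- the normal subgroup
  have hconj : ∀ g ∈ PiE f' E' o', ∀ y ∈ NnE f' x (n * ℓ) E' o',
      g * y * g⁻¹ ∈ NnE f' x (n * ℓ) E' o' := fun g hg y hy => conj_loop_mem_NnE hg hy
  have hUker : ∀ g, π g = 1 → (U g : FreeGroup α) ∈ NnE f' x (n * ℓ) E' o' := by
    intro g hg
    have hg' : g ∈ Subgroup.normalClosure {z} := by rw [← hker]; exact hg
    let M : Subgroup (FreeGroup α) := Subgroup.comap ((PiE f E o).subtype.comp U)
      (NnE f' x (n * ℓ) E' o')
    have hMn : M.Normal := by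
      constructor
      intro y hy v
      rw [Subgroup.mem_comap] at hy ⊢
      rw [map_mul, map_mul, map_inv]
      exact hconj _ (hUPi v) _ hy
    have h1 : Subgroup.normalClosure {z} ≤ M := by
      apply Subgroup.normalClosure_le_normal
      rw [Set.singleton_subset_iff, SetLike.mem_coe, Subgroup.mem_comap]
      change ((U z : PiE f E o) : FreeGroup α) ∈ NnE f' x (n * ℓ) E' o'
      refine (Subgroup.closure_le _).mpr ?_ hSz
      intro y hy
      exact hSN y hy
    exact h1 hg'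
  -- decomposition of loops
  have hdec : ∀ y ∈ PiE f' E' o', ∃ g, ((U g : FreeGroup α))⁻¹ * y ∈ NnE f' x (n * ℓ) E' o' := by
    intro y hy
    rw [hPiL] at hy
    induction hy using Subgroup.closure_induction with
    | mem y hy =>
      rcases hy with ⟨a, rfl⟩ | hy
      · refine ⟨FreeGroup.of a, ?_⟩
        have : (U (FreeGroup.of a) : FreeGroup α) = u a := by simp [U]
        rw [this, inv_mul_cancel]
        exact Subgroup.one_mem _
      · refine ⟨1, ?_⟩
        rw [map_one]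
        simpa using hSN y hy
    | one => exact ⟨1, by rw [map_one]; simpa using Subgroup.one_mem _⟩
    | mul a b ha hb iha ihb =>
      obtain ⟨g1, h1⟩ := iha
      obtain ⟨g2, h2⟩ := ihb
      refine ⟨g1 * g2, ?_⟩
      rw [map_mul]
      have hb' : (U g2 : FreeGroup α)⁻¹ ∈ PiE f' E' o' := Subgroup.inv_mem _ (hUPi g2)
      have h3 := hconj _ hb' _ h1
      have h4 := Subgroup.mul_mem _ h3 h2
      have h5 : (U g2 : FreeGroup α)⁻¹ * ((U g1 : FreeGroup α)⁻¹ * a) *
          ((U g2 : FreeGroup α)⁻¹)⁻¹ * ((U g2 : FreeGroup α)⁻¹ * b) =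
          ((U g1 * U g2 : PiE f E o) : FreeGroup α)⁻¹ * (a * b) := by
        rw [Subgroup.coe_mul]; group
      rwa [h5] at h4
    | inv a ha iha =>
      obtain ⟨g1, h1⟩ := iha
      refine ⟨g1⁻¹, ?_⟩
      rw [map_inv]
      have h2 := Subgroup.inv_mem _ h1
      have h3 := hconj _ (hUPi g1) _ h2
      have h5 : (U g1 : FreeGroup α) * ((U g1 : FreeGroup α)⁻¹ * a)⁻¹ * (U g1 : FreeGroup α)⁻¹ =
          (((U g1)⁻¹ : PiE f E o) : FreeGroup α)⁻¹ * a⁻¹ := by
        rw [Subgroup.coe_inv]; group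
      rwa [h5] at h3
  -- the marking
  let χ₁ : PiE f' E' o' →* G := χ.comp (Subgroup.inclusion hPisub)
  have hrange : ∀ y, χ₁ y ∈ φ.range := by
    intro y
    obtain ⟨g, hg⟩ := hdec y y.2
    refine ⟨π g, ?_⟩
    rw [← hU]
    have h1 : χ ((U g)⁻¹ * Subgroup.inclusion hPisub y) = 1 := by
      rw [hχ.ker]
      exact hNsub hg
    rw [map_mul, map_inv, inv_mul_eq_one] at h1
    exact h1
  let χ' : PiE f' E' o' →* G := (MonoidHom.ofInjective hφ).symm.toMonoidHom.comp
    (MonoidHom.codRestrict χ₁ φ.range hrange)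
  have hχ' : ∀ y, φ (χ' y) = χ₁ y := by
    intro y
    have h1 : MonoidHom.ofInjective hφ (χ' y) = ⟨χ₁ y, hrange y⟩ := by
      simp only [χ', MonoidHom.comp_apply, MulEquiv.toMonoidHom_eq_coe, MonoidHom.coe_coe,
        MulEquiv.apply_symm_apply]
      rfl
    exact congrArg Subtype.val h1
  refine ⟨Ω', f', P, E', o', χ', hE'fin, hP, hE'E, hPo, ⟨?_, ?_⟩, ?_⟩
  · intro y
    obtain ⟨g, rfl⟩ := hπ y
    refine ⟨⟨U g, hUPi g⟩, ?_⟩
    apply hφ
    rw [hχ', ← hU]
    rfl
  · intro y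
    constructor
    · intro h1
      obtain ⟨g, hg⟩ := hdec y y.2
      have h2 : χ₁ y = 1 := by rw [← hχ', h1, map_one]
      have h3 : χ ((U g)⁻¹ * Subgroup.inclusion hPisub y) = 1 := by
        rw [hχ.ker]
        exact hNsub hg
      have h4 : χ (Subgroup.inclusion hPisub y) = 1 := h2
      rw [map_mul, h4, mul_one, map_inv, inv_eq_one, hU] at h3
      have h5 : π g = 1 := hφ (by rw [h3, map_one])
      have h6 := Subgroup.mul_mem _ (hUker g h5) hg
      have h7 : (U g : FreeGroup α) * ((U g : FreeGroup α)⁻¹ * y) = y := by group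
      rwa [h7] at h6
    · intro h1
      apply hφ
      rw [hχ', map_one]
      change χ _ = 1
      rw [hχ.ker]
      exact hNsub h1
  · intro y
    rw [hχ', tot_of_mem χ (hPisub y.2)]
    rfl

end Pool.Agent.H44R2
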