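import Mathlib
import Pool.Agent.H44R2.Step

/-!
# Freely indecomposable one-relator groups with torsion are cohopfian
-/

namespace Pool.Agent.H44R2

open Monoid

section Rigid

variable {α Ω : Type} {f : α → Equiv.Perm Ω} {E : Set (α × Ω)} {o : Ω}

lemma Comp_subset_vert (hne : E.Nonempty) (hconn : ∀ e ∈ E, e.2 ∈ Comp f E o) {v : Ω}
    (hv : v ∈ Comp f E o) : ∃ e ∈ E, e.2 = v ∨ f e.1 e.2 = v := by
  by_contra hcon
  push Not at hcon
  let U : Set Ω := {w | ¬ ∃ e ∈ E, e.2 = w ∨ f e.1 e.2 = w}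
  have hU : ∀ b w, (b, w) ∈ E → (w ∈ U ↔ f b w ∈ U) := by
    intro b w he
    constructor
    · intro h; exact absurd ⟨(b, w), he, Or.inl rfl⟩ h
    · intro h; exact absurd ⟨(b, w), he, Or.inr rfl⟩ h
  obtain ⟨e, he⟩ := hne
  obtain ⟨g, hg, hgv⟩ := hv
  obtain ⟨g', hg', hgv'⟩ := hconn e he
  have h1 := closed_path hU hg
  have h2 := closed_path hU hg'
  rw [hgv] at h1
  rw [hgv'] at h2
  have h3 : v ∈ U := by
    rintro ⟨e, he, h | h⟩
    · exact (hcon e he).1 h
    · exact (hcon e he).2 h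
  have h4 : e.2 ∈ U := h2.mp (h1.mpr h3)
  exact h4 ⟨e, he, Or.inl rfl⟩

lemma pres_path {R : Ω → Ω} (hR : ∀ e ∈ E, (e.1, R e.2) ∈ E ∧ R (f e.1 e.2) = f e.1 (R e.2))
    {v : Ω} {g : FreeGroup α} (hg : Pth f E v g) :
    Pth f E (R v) g ∧ R (FreeGroup.lift f g v) = FreeGroup.lift f g (R v) := by
  induction hg with
  | one => exact ⟨Pth.one, by simp⟩
  | step p g hg he ih =>
    obtain ⟨ih1, ih2⟩ := ih
    set w := FreeGroup.lift f g v with hw
    have h1 : edgeAt f p (R w) ∈ E ∧ R (act f p w) = act f p (R w) := by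
      obtain ⟨b, s⟩ := p
      cases s
      · simp only [edgeAt, Bool.false_eq_true, if_false, act_false] at he ⊢
        obtain ⟨h2, h3⟩ := hR _ he
        simp only at h2 h3
        have h4 : f b ((f b)⁻¹ w) = w := by simp
        rw [h4] at h3
        have h5 : (f b)⁻¹ (R w) = R ((f b)⁻¹ w) := by
          rw [Equiv.Perm.inv_eq_iff_eq]; exact h3
        rw [h5]
        exact ⟨h2, rfl⟩
      · simp only [edgeAt, if_true, act_true] at he ⊢
        exact hR _ he
    refine ⟨Pth.step p g ih1 (by rw [← ih2]; exact h1.1), ?_⟩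
    rw [map_mul, Equiv.Perm.mul_apply, Equiv.Perm.mul_apply, ← hw, lift_letter, h1.2, ih2]

/-- A label-preserving self-map of a finite connected folded graph is an automorphism. -/
lemma rigid (hE : E.Finite) (hne : E.Nonempty) (hconn : ∀ e ∈ E, e.2 ∈ Comp f E o) {R : Ω → Ω}
    (hR : ∀ e ∈ E, (e.1, R e.2) ∈ E ∧ R (f e.1 e.2) = f e.1 (R e.2)) :
    (∀ e ∈ E, ∃ e₁ ∈ E, e₁.1 = e.1 ∧ R e₁.2 = e.2) ∧
    (∀ v ∈ Comp f E o, ∀ v' ∈ Comp f E o, R v = R v' → v = v') := by
  have hRC : ∀ v ∈ Comp f E o, R v ∈ Comp f E o := by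
    intro v hv
    obtain ⟨e, he, h | h⟩ := Comp_subset_vert hne hconn hv
    · rw [← h]
      exact hconn _ (hR e he).1
    · rw [← h, (hR e he).2, ← Comp_edge (hR e he).1]
      exact hconn _ (hR e he).1
  have hRC' : ∀ (m : ℕ) (v), v ∈ Comp f E o → R^[m] v ∈ Comp f E o := by
    intro m
    induction m with
    | zero => intro v hv; exact hv
    | succ m ih => intro v hv; rw [Function.iterate_succ_apply]; exact ih _ (hRC v hv)
  have hRm : ∀ m : ℕ, ∀ e ∈ E, (e.1, R^[m] e.2) ∈ E ∧ R^[m] (f e.1 e.2) = f e.1 (R^[m] e.2) := by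
    intro m
    induction m with
    | zero => intro e he; exact ⟨he, rfl⟩
    | succ m ih =>
      intro e he
      obtain ⟨h1, h2⟩ := ih e he
      obtain ⟨h3, h4⟩ := hR _ h1
      rw [Function.iterate_succ_apply', Function.iterate_succ_apply', h2]
      exact ⟨h3, h4⟩
  have hCfin : (Comp f E o).Finite := by
    have h1 : ((fun e : α × Ω => e.2) '' E ∪ (fun e : α × Ω => f e.1 e.2) '' E).Finite :=
      (hE.image _).union (hE.image _)
    apply h1.subset
    intro v hv
    obtain ⟨e, he, h | h⟩ := Comp_subset_vert hne hconn hv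
    · exact Or.inl ⟨e, he, h⟩
    · exact Or.inr ⟨e, he, h⟩
  obtain ⟨i, j, hij, heq⟩ := hCfin.exists_lt_map_eq_of_forall_mem (f := fun m : ℕ => R^[m] o)
    (fun m => hRC' m o (self_mem_Comp o))
  obtain ⟨m, hm⟩ : ∃ m, j = (m + 1) + i := ⟨j - i - 1, by omega⟩
  rw [hm, Function.iterate_add_apply] at heq
  set v₀ := R^[i] o with hv₀
  have hv₀C : v₀ ∈ Comp f E o := hRC' i o (self_mem_Comp o)
  have hid : ∀ w ∈ Comp f E o, R^[m + 1] w = w := by
    intro w hw
    obtain ⟨g, hg, hgv⟩ := hv₀C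
    obtain ⟨g', hg', hgw⟩ := hw
    have h1 : Pth f E v₀ (g' * g⁻¹) := (hg.inv' hgv).trans' (by
      rw [← hgv, map_inv]; simp) hg'
    have h2 : FreeGroup.lift f (g' * g⁻¹) v₀ = w := by
      rw [map_mul, Equiv.Perm.mul_apply, ← hgv, map_inv]
      simpa using hgw
    have h3 := (pres_path (hRm (m + 1)) h1).2
    rw [h2, ← heq, h2] at h3
    exact h3
  refine ⟨?_, ?_⟩
  · intro e he
    refine ⟨(e.1, R^[m] e.2), (hRm m e he).1, rfl, ?_⟩
    have := hid e.2 (hconn e he)
    rw [Function.iterate_succ_apply'] at this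
    exact this
  · intro v hv v' hv' h
    have h1 := hid v hv
    have h2 := hid v' hv'
    rw [Function.iterate_succ_apply] at h1 h2
    rw [← h1, ← h2, h]

end Rigid

section Torsion

variable {α : Type}

/-- Torsion-freeness when the relator is not a proper power. -/
lemma torsion_aux {ℓ : ℕ} [NeZero ℓ] {x : ZMod ℓ → α × Bool} (hred : CycRed x)
    (hprim : Primitive x) (N : Subgroup (FreeGroup α)) [N.Normal]
    (hfin : ∀ v ∈ N, ∃ S : Finset (FreeGroup α),
        (∀ g ∈ S, g * (wd x ℓ 0) ^ 1 * g⁻¹ ∈ N) ∧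
        v ∈ Subgroup.closure {y : FreeGroup α | ∃ g ∈ S, y = g * (wd x ℓ 0) ^ 1 * g⁻¹})
    (g : FreeGroup α) (m : ℕ) (hm : 0 < m) (hg : g ^ m ∈ N) : g ∈ N := by
  classical
  obtain ⟨S, hS1, hS2⟩ := hfin _ hg
  refine key hred hprim one_pos N {g} S hS1 _ rfl ?_ ?_ g (Finset.mem_singleton_self g)
  · intro lam hlam y hy
    rw [Finset.mem_singleton] at hy
    have h1 : y ^ m ∈ lam.ker := by
      have h2 : (g ^ m) ∈ Subgroup.map (Subgroup.subtype _) lam.ker := by
        refine (Subgroup.closure_le _).mpr ?_ hS2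
        rintro _ ⟨u, hu, rfl⟩
        have huL : u * (wd x ℓ 0) ^ 1 * u⁻¹ ∈ Subgroup.closure
            ((({g} : Finset (FreeGroup α)) : Set (FreeGroup α)) ∪
              {y | ∃ g ∈ S, y = g * (wd x ℓ 0) ^ 1 * g⁻¹}) :=
          Subgroup.subset_closure (Or.inr ⟨u, hu, rfl⟩)
        exact ⟨⟨_, huL⟩, hlam ⟨_, huL⟩ ⟨u, hu, rfl⟩, rfl⟩
      obtain ⟨y', hy', hyy⟩ := h2
      have h3 : y' = y ^ m := by
        apply Subtype.ext
        rw [Subgroup.coe_pow, hy]
        exact hyy
      rw [← h3]; exact hy'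
    rw [MonoidHom.mem_ker, map_pow] at h1
    have h2 := congrArg Multiplicative.toAdd h1
    rw [toAdd_pow, toAdd_one, nsmul_eq_mul] at h2
    have h3 : (m : ℚ) ≠ 0 := by positivity
    have h4 : Multiplicative.toAdd (lam y) = 0 := (mul_eq_zero.mp h2).resolve_left h3
    exact h4
  · intro m' hm' lam _ y _
    have : m' = 1 := Nat.dvd_one.mp hm'
    subst this
    exact Subsingleton.elim (α := ZMod 1) _ _

end Torsion

section Encode

lemma exists_inj {Ω : Type} {V : Set Ω} (hV : V.Finite) {B : ℕ} (hB : V.ncard ≤ B) :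
    ∃ ι : Ω → Fin (B + 1), Set.InjOn ι V := by
  classical
  haveI : Fintype V := hV.fintype
  have h1 : Fintype.card V ≤ Fintype.card (Fin (B + 1)) := by
    rw [Fintype.card_fin, ← Nat.card_eq_fintype_card]
    have : Nat.card V = V.ncard := rfl
    omega
  obtain ⟨e⟩ := Function.Embedding.nonempty_of_card_le h1
  refine ⟨fun v => if h : v ∈ V then e ⟨v, h⟩ else 0, ?_⟩
  intro v hv v' hv' h
  simp only [hv, hv', dif_pos] at h
  exact congrArg Subtype.val (e.injective h)

end Encode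

/-- Cohopficity, for groups given with a surjection from a free group whose kernel is the normal
closure of a proper power. -/
theorem cohopf_aux {k : ℕ} {G : Type} [Group G] {ℓ : ℕ} [NeZero ℓ] {x : ZMod ℓ → Fin k × Bool}
    (hred : CycRed x) (hprim : Primitive x) {n pr : ℕ} (hn : 0 < n) (hpr : pr.Prime)
    (hprn : pr ∣ n) (π : FreeGroup (Fin k) →* G) (hπ : Function.Surjective π)
    (hker : π.ker = Subgroup.normalClosure {wd x (n * ℓ) 0})
    (hcyc : ¬ IsCyclic G)
    (hind : ∀ (A B : Type) [Group A] [Group B], Nontrivial A → Nontrivial B →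
      IsEmpty (G ≃* Coprod A B))
    (φ : G →* G) (hφ : Function.Injective φ) : Function.Surjective φ := by
  classical
  have hℓ : 0 < ℓ := Nat.pos_of_ne_zero (NeZero.ne ℓ)
  have hN0 : 0 < n * ℓ := Nat.mul_pos hn hℓ
  have hN : ((n * ℓ : ℕ) : ZMod ℓ) = 0 := by simp
  set N := n * ℓ with hNdef
  let gens : Fin k → G := fun i => π (FreeGroup.of i)
  have hgens : Subgroup.closure (Set.range gens) = ⊤ := by
    have h1 : Set.range gens = π '' (Set.range FreeGroup.of) := by
      rw [← Set.range_comp]; rfl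
    rw [h1, ← MonoidHom.map_closure, FreeGroup.closure_range_of, ← MonoidHom.range_eq_map,
      MonoidHom.range_eq_top]
    exact hπ
  have hnontriv : ∀ (Ω : Type) (f : Fin k → Equiv.Perm Ω) (E : Set (Fin k × Ω)) (o : Ω)
      (χ : PiE f E o →* G), Mk f x N E o χ → E.Nonempty := by
    intro Ω f E o χ hχ
    by_contra hcon
    rw [Set.not_nonempty_iff_eq_empty] at hcon
    apply hcyc
    have h1 : ∀ y : G, y = 1 := by
      intro y
      obtain ⟨g, rfl⟩ := hχ.surj y
      have h2 : (g : FreeGroup (Fin k)) = 1 := Pth_empty (g.2.1.mono hcon.subset)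
      have h4 : g = 1 := Subtype.ext h2
      rw [h4, map_one]
    have : Subsingleton G := ⟨fun y y' => by rw [h1 y, h1 y']⟩
    exact isCyclic_of_subsingleton
  set B := 2 * (ℓ * k) with hB
  -- encoding of irreducible marked complexes
  let Enc : (Ω : Type) → (Fin k → Equiv.Perm Ω) → Set (Fin k × Ω) → (Ω → Fin (B + 1)) →
      Finset (Fin k × Fin (B + 1) × Fin (B + 1)) → Prop := fun Ω f E ι D =>
    ∀ t, t ∈ D ↔ ∃ e ∈ E, t = (e.1, ι e.2, ι (f e.1 e.2))
  let Good : Finset (Fin k × Fin (B + 1) × Fin (B + 1)) → Prop := fun D =>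
    ∃ (Ω : Type) (f : Fin k → Equiv.Perm Ω) (E : Set (Fin k × Ω)) (o : Ω)
      (χ : PiE f E o →* G) (ι : Ω → Fin (B + 1)), E.Finite ∧ Mk f x N E o χ ∧ Irr f x N E o ∧
      Set.InjOn ι (Comp f E o) ∧ Enc Ω f E ι D
  have hencode : ∀ (Ω : Type) (f : Fin k → Equiv.Perm Ω) (E : Set (Fin k × Ω)) (o : Ω)
      (χ : PiE f E o →* G), E.Finite → Mk f x N E o χ → Irr f x N E o →
      ∃ (ι : Ω → Fin (B + 1)) (D : Finset (Fin k × Fin (B + 1) × Fin (B + 1))),
        Set.InjOn ι (Comp f E o) ∧ Enc Ω f E ι D := by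
    intro Ω f E o χ hE hχ hirr
    have hne := hnontriv Ω f E o χ hχ
    have hbd := hirr.bound hred hprim hn hpr hprn hχ hE hne gens hgens
    have hsub : Comp f E o ⊆ (fun e : Fin k × Ω => e.2) '' E ∪
        (fun e : Fin k × Ω => f e.1 e.2) '' E := by
      intro v hv
      obtain ⟨e, he, h | h⟩ := Comp_subset_vert hne hirr.conn hv
      · exact Or.inl ⟨e, he, h⟩
      · exact Or.inr ⟨e, he, h⟩
    have hfin : ((fun e : Fin k × Ω => e.2) '' E ∪
        (fun e : Fin k × Ω => f e.1 e.2) '' E).Finite := (hE.image _).union (hE.image _)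
    have hcard : (Comp f E o).ncard ≤ B := by
      calc (Comp f E o).ncard ≤ _ := Set.ncard_le_ncard hsub hfin
        _ ≤ ((fun e : Fin k × Ω => e.2) '' E).ncard +
          ((fun e : Fin k × Ω => f e.1 e.2) '' E).ncard := Set.ncard_union_le _ _
        _ ≤ E.ncard + E.ncard := Nat.add_le_add (Set.ncard_image_le hE) (Set.ncard_image_le hE)
        _ ≤ B := by omega
    obtain ⟨ι, hι⟩ := exists_inj (hfin.subset hsub) hcard
    refine ⟨ι, hE.toFinset.image (fun e => (e.1, ι e.2, ι (f e.1 e.2))), hι, ?_⟩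
    intro t
    rw [Finset.mem_image]
    constructor
    · rintro ⟨e, he, rfl⟩
      exact ⟨e, hE.mem_toFinset.mp he, rfl⟩
    · rintro ⟨e, he, rfl⟩
      exact ⟨e, hE.mem_toFinset.mpr he, rfl⟩
  -- the order
  let Le : Finset (Fin k × Fin (B + 1) × Fin (B + 1)) →
      Finset (Fin k × Fin (B + 1) × Fin (B + 1)) → Prop := fun D' D =>
    ∃ p : Fin (B + 1) → Fin (B + 1), ∀ a u v, (a, u, v) ∈ D' → (a, p u, p v) ∈ D
  have Letrans : ∀ D1 D2 D3, Le D1 D2 → Le D2 D3 → Le D1 D3 := by
    rintro D1 D2 D3 ⟨p, hp⟩ ⟨p', hp'⟩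
    exact ⟨p' ∘ p, fun a u v h => hp' _ _ _ (hp _ _ _ h)⟩
  let rel : Finset (Fin k × Fin (B + 1) × Fin (B + 1)) →
      Finset (Fin k × Fin (B + 1) × Fin (B + 1)) → Prop := fun D' D => Le D' D ∧ ¬ Le D D'
  have htrans : IsTrans _ rel := ⟨by
    rintro D1 D2 D3 ⟨h1, h2⟩ ⟨h3, h4⟩
    exact ⟨Letrans _ _ _ h1 h3, fun h5 => h4 (Letrans _ _ _ h5 h1)⟩⟩
  have hirrefl : Std.Irrefl rel := ⟨fun D h => h.2 h.1⟩
  have hwf : WellFounded rel := Finite.wellFounded_of_trans_of_irrefl rel
  -- existence of a good diagram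
  have hgood : ∃ D, Good D := by
    let f₀ : Fin k → Equiv.Perm Unit := fun _ => 1
    have hall : ∀ g : FreeGroup (Fin k), Pth f₀ Set.univ () g := by
      intro g
      obtain ⟨L, rfl⟩ : ∃ L, (FreeGroup.mk L : FreeGroup (Fin k)) = g := Quot.exists_rep g
      induction L with
      | nil => exact Pth.one
      | cons p L ih => rw [mk_cons_letter]; exact Pth.step p _ ih (Set.mem_univ _)
    have hPi : ∀ g : FreeGroup (Fin k), g ∈ PiE f₀ Set.univ () := fun g => ⟨hall g, rfl⟩
    have hpos : ∀ p : Unit × ZMod ℓ, p ∈ Pos f₀ x N Set.univ := by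
      rintro ⟨u, i⟩
      refine ⟨?_, fun _ => Set.mem_univ _⟩
      rw [walkT_pow, hN]
      simp
    have hM : Mk f₀ x N Set.univ () (π.comp (PiE f₀ Set.univ ()).subtype) := by
      refine ⟨?_, ?_⟩
      · intro y
        obtain ⟨g, rfl⟩ := hπ y
        exact ⟨⟨g, hPi g⟩, rfl⟩
      · intro g
        change π (g : FreeGroup (Fin k)) = 1 ↔ _
        rw [← MonoidHom.mem_ker, hker]
        have : Subgroup.normalClosure {wd x N 0} = NnE f₀ x N Set.univ () := by
          unfold Subgroup.normalClosure NnE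
          congr 1
          ext y
          rw [Group.mem_conjugatesOfSet_iff]
          constructor
          · rintro ⟨a, ha, hc⟩
            rw [Set.mem_singleton_iff] at ha
            subst ha
            obtain ⟨c, hc⟩ := isConj_iff.mp hc
            exact ⟨c⁻¹, hall _, hpos _, by rw [inv_inv]; exact hc.symm⟩
          · rintro ⟨c, _, _, rfl⟩
            refine ⟨_, Set.mem_singleton _, ?_⟩
            rw [isConj_iff]
            exact ⟨c⁻¹, by rw [inv_inv]⟩
        rw [this]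
    obtain ⟨E', hE', o', q, hq, hqo, hM', hirr⟩ := Mk.minimise hN0 hN hcyc hind _ Set.univ ()
      _ (Set.toFinite _) le_rfl hM
    obtain ⟨ι, D, hι, hD⟩ := hencode _ _ E' o' _ (Set.toFinite _) hM' hirr
    exact ⟨D, Unit, f₀, E', o', _, ι, Set.toFinite _, hM', hirr, hι, hD⟩
  obtain ⟨D, hDgood, hDmin⟩ := hwf.has_min {D | Good D} hgood
  obtain ⟨Ω, f, E, o, χ, ι, hE, hχ, hirr, hι, hD⟩ := hDgood
  have hEne := hnontriv Ω f E o χ hχ
  -- the complex of the image
  obtain ⟨Ω', f', P, E', o', χ', hE'fin, hP, hE'E, hPo, hχ', hφχ⟩ :=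
    exists_image_complex hn hχ π hπ hker φ hφ
  obtain ⟨E'', hE'', o'', q, hq, hqo, hχ'', hirr''⟩ := Mk.minimise hN0 hN hcyc hind _ E' o'
      χ' hE'fin le_rfl hχ'
  have hE''fin : E''.Finite := hE'fin.subset hE''
  have hE''E : ∀ e ∈ E'', (e.1, P e.2) ∈ E := fun e he => hE'E e (hE'' he)
  have hE''ne := hnontriv Ω' f' E'' o'' _ hχ''
  obtain ⟨ι', D', hι', hD'⟩ := hencode _ _ E'' o'' _ hE''fin hχ'' hirr''
  have hD'good : Good D' := ⟨Ω', f', E'', o'', _, ι', hE''fin, hχ'', hirr'', hι', hD'⟩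
  have hcomp'' : ∀ e ∈ E'', e.2 ∈ Comp f' E'' o'' ∧ f' e.1 e.2 ∈ Comp f' E'' o'' := by
    intro e he
    have h1 := hirr''.conn e he
    exact ⟨h1, (Comp_edge he).mp h1⟩
  -- `D' ≤ D`
  have hle : Le D' D := by
    refine ⟨fun t => if h : ∃ v ∈ Comp f' E'' o'', ι' v = t then ι (P h.choose) else 0, ?_⟩
    have hval : ∀ v ∈ Comp f' E'' o'', (if h : ∃ v' ∈ Comp f' E'' o'', ι' v' = ι' v then
        ι (P h.choose) else 0) = ι (P v) := by
      intro v hv
      have h : ∃ v' ∈ Comp f' E'' o'', ι' v' = ι' v := ⟨v, hv, rfl⟩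
      rw [dif_pos h]
      have h2 := h.choose_spec
      rw [hι' h2.1 hv h2.2]
    intro a u v huv
    obtain ⟨e, he, ht⟩ := (hD' _).mp huv
    simp only [Prod.mk.injEq] at ht
    obtain ⟨rfl, rfl, rfl⟩ := ht
    obtain ⟨h1, h2⟩ := hcomp'' e he
    simp only
    rw [hval _ h1, hval _ h2, hP]
    exact (hD _).mpr ⟨(e.1, P e.2), hE''E e he, rfl⟩
  have hge : Le D D' := by
    by_contra hcon
    exact hDmin D' hD'good ⟨hle, hcon⟩
  obtain ⟨p', hp'⟩ := hge
  -- the map `Q`
  let Q : Ω → Ω' := fun v => if h : ∃ v' ∈ Comp f' E'' o'', ι' v' = p' (ι v) then h.choose else o''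
  have hQ : ∀ e ∈ E, (e.1, Q e.2) ∈ E'' ∧ Q (f e.1 e.2) = f' e.1 (Q e.2) := by
    intro e he
    have h1 : (e.1, ι e.2, ι (f e.1 e.2)) ∈ D := (hD _).mpr ⟨e, he, rfl⟩
    have h2 := hp' _ _ _ h1
    obtain ⟨e', he', ht⟩ := (hD' _).mp h2
    simp only [Prod.mk.injEq] at ht
    obtain ⟨ha, hu, hv⟩ := ht
    obtain ⟨h3, h4⟩ := hcomp'' e' he'
    have h5 : Q e.2 = e'.2 := by
      have h : ∃ v' ∈ Comp f' E'' o'', ι' v' = p' (ι e.2) := ⟨e'.2, h3, hu.symm⟩
      simp only [Q, h, dif_pos]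
      have h6 := h.choose_spec
      exact hι' h6.1 h3 (h6.2.trans hu)
    have h7 : Q (f e.1 e.2) = f' e'.1 e'.2 := by
      have h : ∃ v' ∈ Comp f' E'' o'', ι' v' = p' (ι (f e.1 e.2)) := ⟨_, h4, hv.symm⟩
      simp only [Q, h, dif_pos]
      have h6 := h.choose_spec
      exact hι' h6.1 h4 (h6.2.trans hv)
    rw [h5, h7, ha]
    exact ⟨he', rfl⟩
  obtain ⟨hsurjE, -⟩ := rigid (R := fun v => P (Q v)) hE hEne hirr.conn (by
    intro e he
    obtain ⟨h1, h2⟩ := hQ e he
    refine ⟨hE''E _ h1, ?_⟩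
    change P (Q (f e.1 e.2)) = f e.1 (P (Q e.2))
    rw [h2, hP])
  obtain ⟨-, hinj⟩ := rigid (R := fun v => Q (P v)) hE''fin hE''ne hirr''.conn (by
    intro e he
    obtain ⟨h1, h2⟩ := hQ _ (hE''E e he)
    refine ⟨h1, ?_⟩
    change Q (P (f' e.1 e.2)) = f' e.1 (Q (P e.2))
    rw [hP]
    exact h2)
  have hPinj : ∀ v ∈ Comp f' E'' o'', ∀ v' ∈ Comp f' E'' o'', P v = P v' → v = v' := by
    intro v hv v' hv' h
    exact hinj v hv v' hv' (by simp only [h])
  -- lifting edges
  have hlift1 : ∀ a, ∀ v ∈ Comp f' E'' o'', (a, P v) ∈ E → (a, v) ∈ E'' := by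
    intro a v hv he
    obtain ⟨e₁, he₁, h1, h2⟩ := hsurjE _ he
    simp only at h1 h2
    obtain ⟨h3, -⟩ := hQ e₁ he₁
    have h4 : Q e₁.2 = v := hPinj _ (hcomp'' _ h3).1 v hv h2
    rw [h4, h1] at h3
    exact h3
  have hliftP : ∀ v ∈ Comp f' E'' o'', ∀ g, Pth f E (P v) g → Pth f' E'' v g := by
    intro v hv g hg
    induction hg with
    | one => exact Pth.one
    | step p g _ he ih =>
      refine Pth.step p g ih ?_
      have hw : FreeGroup.lift f' g v ∈ Comp f' E'' o'' := (Comp_path ih).mp hv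
      rw [← map_lift hP] at he
      set w := FreeGroup.lift f' g v with hwdef
      obtain ⟨a, s⟩ := p
      cases s
      · simp only [edgeAt, Bool.false_eq_true, if_false, act_false] at he ⊢
        obtain ⟨e₁, he₁, h1, h2⟩ := hsurjE _ he
        simp only at h1 h2
        obtain ⟨h3, -⟩ := hQ e₁ he₁
        rw [h1] at h3
        have h4 : P (f' a (Q e₁.2)) = P w := by
          rw [hP, h2]; simp
        have h5 : f' a (Q e₁.2) = w := hPinj _ (hcomp'' _ h3).2 w hw h4
        rw [← h5]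
        simpa using h3
      · simp only [edgeAt, if_true] at he ⊢
        exact hlift1 a w hw he
  -- conclusion
  intro y
  obtain ⟨h, rfl⟩ := hχ.surj y
  have hq1 : Pth f E o q := by
    have := map_Pth hP hE'E hq
    rwa [hPo] at this
  have hq2 : FreeGroup.lift f q o = P o'' := by
    rw [← hqo, map_lift hP, hPo]
  have h1 : q * (h : FreeGroup (Fin k)) * q⁻¹ ∈ PiE f E (P o'') := by
    rw [← hq2]; exact conj_mem_PiE' hq1 h.2
  have h2 : q * (h : FreeGroup (Fin k)) * q⁻¹ ∈ PiE f' E'' o'' := by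
    have h3 := hliftP o'' (self_mem_Comp _) _ h1.1
    refine ⟨h3, ?_⟩
    apply hPinj _ ((Comp_path h3).mp (self_mem_Comp _)) _ (self_mem_Comp _)
    rw [map_lift hP]
    exact h1.2
  refine ⟨χ'.comp (conjHom f' hE'' hq hqo) ⟨_, h2⟩, ?_⟩
  rw [MonoidHom.comp_apply, hφχ, conjHom_coe]
  have h3 : q⁻¹ * (q * (h : FreeGroup (Fin k)) * q⁻¹) * q = h := by group
  simp only
  rw [h3, tot_coe]

/-- Freely indecomposable one-relator groups with torsion are cohopfian. -/
theorem cohopf (k : ℕ) (w : FreeGroup (Fin k))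
    (htor : ∃ g : PresentedGroup ({w} : Set (FreeGroup (Fin k))), g ≠ 1 ∧ IsOfFinOrder g)
    (hind : ∀ (A B : Type) [Group A] [Group B], Nontrivial A → Nontrivial B →
        IsEmpty (PresentedGroup ({w} : Set (FreeGroup (Fin k))) ≃* Monoid.Coprod A B))
    (φ : PresentedGroup ({w} : Set (FreeGroup (Fin k))) →*
          PresentedGroup ({w} : Set (FreeGroup (Fin k))))
    (hφ : Function.Injective φ) : Function.Surjective φ := by
  classical
  obtain ⟨g₀, hg₀, hfin₀⟩ := htor
  by_cases hcyc : IsCyclic (PresentedGroup ({w} : Set (FreeGroup (Fin k))))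
  · -- cyclic groups with torsion are finite
    obtain ⟨c, hc⟩ := hcyc.exists_generator
    have hcfin : IsOfFinOrder c := by
      obtain ⟨j, rfl⟩ := Subgroup.mem_zpowers_iff.mp (hc g₀)
      rw [isOfFinOrder_iff_pow_eq_one] at hfin₀ ⊢
      obtain ⟨m, hm, hmeq⟩ := hfin₀
      have hj : j ≠ 0 := by
        rintro rfl
        exact hg₀ (zpow_zero c)
      rw [← zpow_natCast, ← zpow_mul] at hmeq
      refine ⟨(j * m).natAbs, ?_, ?_⟩
      · rw [Int.natAbs_pos]
        exact mul_ne_zero hj (by exact_mod_cast hm.ne')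
      · rcases Int.natAbs_eq (j * m) with h | h
        · rw [← zpow_natCast, ← h]; exact hmeq
        · rw [h, zpow_neg, inv_eq_one, zpow_natCast] at hmeq
          exact hmeq
    have hfin : Finite (PresentedGroup ({w} : Set (FreeGroup (Fin k)))) := by
      have h1 : (Subgroup.zpowers c : Set (PresentedGroup ({w} : Set (FreeGroup (Fin k))))).Finite := by
        rw [← Set.finite_coe_iff]
        exact (finite_zpowers.mpr hcfin)
      have h2 : (Subgroup.zpowers c : Set (PresentedGroup ({w} : Set (FreeGroup (Fin k))))) =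
          Set.univ := by
        ext y; simpa using hc y
      rw [h2] at h1
      exact Set.finite_univ_iff.mp h1
    exact Finite.injective_iff_surjective.mp hφ
  · set π : FreeGroup (Fin k) →* PresentedGroup ({w} : Set (FreeGroup (Fin k))) :=
      PresentedGroup.mk ({w} : Set (FreeGroup (Fin k))) with hπdef
    have hπ : Function.Surjective π := PresentedGroup.mk_surjective _
    have hker0 : ∀ v, π v = 1 ↔ v ∈ Subgroup.normalClosure ({w} : Set (FreeGroup (Fin k))) :=
      fun v => QuotientGroup.eq_one_iff v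
    obtain ⟨g₁, rfl⟩ := hπ g₀
    obtain ⟨m₀, hm₀, hm₀eq⟩ := isOfFinOrder_iff_pow_eq_one.mp hfin₀
    have hg₁ : g₁ ∉ Subgroup.normalClosure ({w} : Set (FreeGroup (Fin k))) := by
      rw [← hker0]; exact hg₀
    have hg₁m : g₁ ^ m₀ ∈ Subgroup.normalClosure ({w} : Set (FreeGroup (Fin k))) := by
      rw [← hker0, map_pow]; exact hm₀eq
    have hne : Nonempty (Fin k) := by
      by_contra hcon
      rw [not_nonempty_iff] at hcon
      apply hg₀
      have : g₁ = 1 := Subsingleton.elim _ _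
      rw [this, map_one]
    by_cases hw : w = 1
    · exfalso
      apply hg₁
      refine torsion_aux (ℓ := 1) (x := fun _ => (Classical.arbitrary (Fin k), true)) ?_ ?_ _ ?_
        g₁ m₀ hm₀ hg₁m
      · intro i h
        have := congrArg Prod.snd h
        simp [linv] at this
      · intro d _; exact Subsingleton.elim _ _
      · intro v hv
        have h1 : Subgroup.normalClosure ({w} : Set (FreeGroup (Fin k))) ≤ ⊥ :=
          Subgroup.normalClosure_le_normal (by simp [hw])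
        have h2 : v = 1 := Subgroup.mem_bot.mp (h1 hv)
        subst h2
        exact ⟨∅, by simp, Subgroup.one_mem _⟩
    · obtain ⟨ℓ, hℓ, x, n, hn, hred, hprim, hconj⟩ := exists_root w hw
      have hncl : Subgroup.normalClosure ({w} : Set (FreeGroup (Fin k))) =
          Subgroup.normalClosure ({(wd x ℓ 0) ^ n} : Set (FreeGroup (Fin k))) := by
        apply le_antisymm
        · apply Subgroup.normalClosure_le_normal
          rw [Set.singleton_subset_iff]
          obtain ⟨c, hc⟩ := isConj_iff.mp hconj.symm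
          rw [← hc]
          exact Subgroup.normalClosure_normal.conj_mem _
            (Subgroup.subset_normalClosure (Set.mem_singleton _)) _
        · apply Subgroup.normalClosure_le_normal
          rw [Set.singleton_subset_iff]
          obtain ⟨c, hc⟩ := isConj_iff.mp hconj
          rw [← hc]
          exact Subgroup.normalClosure_normal.conj_mem _
            (Subgroup.subset_normalClosure (Set.mem_singleton _)) _
      have hn1 : n ≠ 1 := by
        rintro rfl
        apply hg₁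
        refine torsion_aux hred hprim _ ?_ g₁ m₀ hm₀ hg₁m
        intro v hv
        rw [hncl] at hv ⊢
        obtain ⟨S, hS⟩ := mem_closure_conj _ _ hv
        refine ⟨S, fun g _ => ?_, hS⟩
        exact Subgroup.normalClosure_normal.conj_mem _
          (Subgroup.subset_normalClosure (Set.mem_singleton _)) _
      refine cohopf_aux hred hprim hn (Nat.minFac_prime hn1) (Nat.minFac_dvd n) π hπ ?_ hcyc
        hind φ hφ
      ext v
      rw [MonoidHom.mem_ker, hker0, hncl, wd_pow]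

end Pool.Agent.H44R2
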